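import Mathlib

namespace Pool.Agent.MP_dd334f_gt

/-! ### Alternating words in a group generated by two subgroups -/

section
variable {G : Type*} [Group G] (S : Bool → Subgroup G) (Z : Subgroup G)

/-- A nontrivial letter. -/
def Lett (b : Bool) (g : G) : Prop := g ∈ S b ∧ g ∉ Z

/-- Reduced alternating words, with the types of their first and last letters. -/
inductive Red : Bool → Bool → G → Prop
  | single (b : Bool) (g : G) : Lett S Z b g → Red b b g
  | cons (b e : Bool) (g w : G) : Lett S Z b g → Red (!b) e w → Red b e (g * w)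

/-- Products of pairs of nontrivial letters. -/
inductive Alt : G → Prop
  | base (g h : G) : Lett S Z true g → Lett S Z false h → Alt (g * h)
  | step (g h w : G) : Lett S Z true g → Lett S Z false h → Alt w → Alt (g * h * w)

variable {S Z} (hZ : ∀ b, Z ≤ S b)

include hZ in
theorem lett_absorb {b : Bool} {z g : G} (hz : z ∈ Z) (hg : Lett S Z b g) : Lett S Z b (z * g) :=
  ⟨(S b).mul_mem (hZ b hz) hg.1, fun h => hg.2 ((Subgroup.mul_mem_cancel_left Z hz).mp h)⟩

include hZ in
theorem red_absorb {b e : Bool} {z w : G} (hz : z ∈ Z) (hw : Red S Z b e w) :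
    Red S Z b e (z * w) := by
  cases hw with
  | single _ _ hg => exact Red.single _ _ (lett_absorb hZ hz hg)
  | cons _ _ g w hg hw =>
    rw [← mul_assoc]
    exact Red.cons _ _ _ _ (lett_absorb hZ hz hg) hw

include hZ in
theorem red_mul_left (c : Bool) (x w : G) (hx : x ∈ S c) (hw : w ∈ Z ∨ ∃ b e, Red S Z b e w) :
    x * w ∈ Z ∨ ∃ b e, Red S Z b e (x * w) := by
  rcases hw with hw | ⟨b, e, hw⟩
  · by_cases h : x * w ∈ Z
    · exact Or.inl h
    · exact Or.inr ⟨c, c, Red.single _ _ ⟨(S c).mul_mem hx (hZ c hw), h⟩⟩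
  · by_cases hcb : c = b
    · subst hcb
      cases hw with
      | single _ g hg =>
        by_cases h : x * w ∈ Z
        · exact Or.inl h
        · exact Or.inr ⟨c, c, Red.single _ _ ⟨(S c).mul_mem hx hg.1, h⟩⟩
      | cons _ _ g w' hg hw' =>
        rw [← mul_assoc]
        by_cases h : x * g ∈ Z
        · exact Or.inr ⟨_, _, red_absorb hZ h hw'⟩
        · exact Or.inr ⟨_, _, Red.cons _ _ _ _ ⟨(S c).mul_mem hx hg.1, h⟩ hw'⟩
    · have hb : b = !c := by cases b <;> cases c <;> simp_all
      subst hb
      by_cases h : x ∈ Z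
      · exact Or.inr ⟨_, _, red_absorb hZ h hw⟩
      · exact Or.inr ⟨_, _, Red.cons _ _ _ _ ⟨hx, h⟩ hw⟩

include hZ in
/-- Every element of the group generated by the two subgroups lies in `Z` or is reduced. -/
theorem red_of_mem {w : G} (hw : w ∈ Subgroup.closure ((S true : Set G) ∪ S false)) :
    w ∈ Z ∨ ∃ b e, Red S Z b e w := by
  induction hw using Subgroup.closure_induction_left with
  | one => exact Or.inl Z.one_mem
  | mul_left x hx y _ ih =>
    rcases hx with hx | hx
    · exact red_mul_left hZ true x y hx ih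
    · exact red_mul_left hZ false x y hx ih
  | inv_mul_cancel x hx y _ ih =>
    rcases hx with hx | hx
    · exact red_mul_left hZ true _ y ((S true).inv_mem hx) ih
    · exact red_mul_left hZ false _ y ((S false).inv_mem hx) ih

/-- The product attached to a list of pairs. -/
def pprod (L : List (G × G)) : G := (L.map fun p => p.1 * p.2).prod

theorem pprod_nil : pprod ([] : List (G × G)) = 1 := rfl
theorem pprod_cons (p : G × G) (L : List (G × G)) : pprod (p :: L) = p.1 * p.2 * pprod L := by
  simp [pprod]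
theorem pprod_append (L M : List (G × G)) : pprod (L ++ M) = pprod L * pprod M := by
  simp [pprod]

variable (S) in
/-- Lists of pairs with entries in the two subgroups. -/
def GoodList (L : List (G × G)) : Prop := ∀ p ∈ L, p.1 ∈ S true ∧ p.2 ∈ S false

theorem exists_list {w : G} (hw : w ∈ Subgroup.closure ((S true : Set G) ∪ S false)) :
    ∃ L : List (G × G), GoodList S L ∧ pprod L = w := by
  induction hw using Subgroup.closure_induction_left with
  | one => exact ⟨[], by intro p hp; simp at hp, rfl⟩
  | mul_left x hx y _ ih =>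
    obtain ⟨L, hL, rfl⟩ := ih
    rcases hx with hx | hx
    · refine ⟨(x, 1) :: L, ?_, by simp [pprod_cons]⟩
      intro p hp
      rcases List.mem_cons.mp hp with rfl | hp
      · exact ⟨hx, (S false).one_mem⟩
      · exact hL p hp
    · refine ⟨(1, x) :: L, ?_, by simp [pprod_cons]⟩
      intro p hp
      rcases List.mem_cons.mp hp with rfl | hp
      · exact ⟨(S true).one_mem, hx⟩
      · exact hL p hp
  | inv_mul_cancel x hx y _ ih =>
    obtain ⟨L, hL, rfl⟩ := ih
    rcases hx with hx | hx
    · refine ⟨(x⁻¹, 1) :: L, ?_, by simp [pprod_cons]⟩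
      intro p hp
      rcases List.mem_cons.mp hp with rfl | hp
      · exact ⟨(S true).inv_mem hx, (S false).one_mem⟩
      · exact hL p hp
    · refine ⟨(1, x⁻¹) :: L, ?_, by simp [pprod_cons]⟩
      intro p hp
      rcases List.mem_cons.mp hp with rfl | hp
      · exact ⟨(S true).one_mem, (S false).inv_mem hx⟩
      · exact hL p hp

theorem alt_of_list (L : List (G × G)) (hL : ∀ p ∈ L, Lett S Z true p.1 ∧ Lett S Z false p.2)
    (hne : L ≠ []) : Alt S Z (pprod L) := by
  induction L with
  | nil => exact absurd rfl hne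
  | cons p L ih =>
    have hp := hL p (List.mem_cons_self ..)
    by_cases hL0 : L = []
    · subst hL0
      rw [pprod_cons, pprod_nil, mul_one]
      exact Alt.base _ _ hp.1 hp.2
    · rw [pprod_cons]
      exact Alt.step _ _ _ hp.1 hp.2 (ih (fun q hq => hL q (List.mem_cons_of_mem _ hq)) hL0)

include hZ in
/-- Conjugacy normal form. -/
theorem conj_normal_form {w : G} (hw : w ∈ Subgroup.closure ((S true : Set G) ∪ S false)) :
    ∃ h : G, h * w * h⁻¹ ∈ S true ∨ h * w * h⁻¹ ∈ S false ∨ Alt S Z (h * w * h⁻¹) := by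
  classical
  let P : ℕ → Prop := fun n => ∃ (L : List (G × G)) (h : G), L.length = n ∧ GoodList S L ∧
    h * w * h⁻¹ = pprod L
  have hP : ∃ n, P n := by
    obtain ⟨L, hL, hw⟩ := exists_list hw
    exact ⟨L.length, L, 1, rfl, hL, by simp [hw]⟩
  obtain ⟨L, h, hlen, hL, hwL⟩ := Nat.find_spec hP
  have hmin : ∀ m, m < L.length → ¬ P m := fun m hm => Nat.find_min hP (by rw [← hlen]; exact hm)
  by_cases hL0 : L = []
  · refine ⟨h, Or.inl ?_⟩
    rw [hwL, hL0, pprod_nil]
    exact (S true).one_mem
  by_cases hall : ∀ p ∈ L, Lett S Z true p.1 ∧ Lett S Z false p.2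
  · exact ⟨h, Or.inr (Or.inr (by rw [hwL]; exact alt_of_list L hall hL0))⟩
  · push Not at hall
    obtain ⟨p, hp, hpl⟩ := hall
    obtain ⟨L1, L2, rfl⟩ := List.append_of_mem hp
    have hp' := hL p hp
    -- rotate so that `p` comes first
    have hrot : ∃ k : G, k * w * k⁻¹ = p.1 * p.2 * pprod (L2 ++ L1) := by
      refine ⟨(pprod L1)⁻¹ * h, ?_⟩
      have : (pprod L1)⁻¹ * h * w * ((pprod L1)⁻¹ * h)⁻¹ =
        (pprod L1)⁻¹ * (h * w * h⁻¹) * pprod L1 := by group
      rw [this, hwL, pprod_append, pprod_cons, pprod_append]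
      group
    obtain ⟨k, hk⟩ := hrot
    have hgood : GoodList S (L2 ++ L1) := by
      intro q hq
      apply hL
      simp only [List.mem_append, List.mem_cons] at hq ⊢
      tauto
    have hlen2 : (L1 ++ p :: L2).length = (L2 ++ L1).length + 1 := by
      simp; omega
    by_cases hp1 : p.1 ∈ Z
    · -- merge with the previous letter
      rcases List.eq_nil_or_concat (L2 ++ L1) with hnil | ⟨L3, q, hq⟩
      · refine ⟨k, Or.inr (Or.inl ?_)⟩
        rw [hk, hnil, pprod_nil, mul_one]
        exact (S false).mul_mem (hZ _ hp1) hp'.2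
      · exfalso
        rw [List.concat_eq_append] at hq
        have hq' : q.1 ∈ S true ∧ q.2 ∈ S false := by
          apply hgood; rw [hq]; simp
        apply hmin (L3.length + 1) (by rw [hlen2, hq]; simp)
        refine ⟨(q.1, q.2 * p.1 * p.2) :: L3, (q.1 * q.2) * k, by simp, ?_, ?_⟩
        · intro r hr
          rcases List.mem_cons.mp hr with rfl | hr
          · exact ⟨hq'.1, (S false).mul_mem ((S false).mul_mem hq'.2 (hZ _ hp1)) hp'.2⟩
          · apply hgood; rw [hq]; simp [hr]
        · have : q.1 * q.2 * k * w * (q.1 * q.2 * k)⁻¹ =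
            q.1 * q.2 * (k * w * k⁻¹) * (q.1 * q.2)⁻¹ := by group
          rw [this, hk, hq, pprod_append, pprod_cons, pprod_cons, pprod_nil]
          group
    · have hp2 : p.2 ∈ Z := by
        by_contra hp2
        exact hpl ⟨hp'.1, hp1⟩ ⟨hp'.2, hp2⟩
      -- merge with the next letter
      rcases h21 : (L2 ++ L1) with _ | ⟨q, L3⟩
      · refine ⟨k, Or.inl ?_⟩
        rw [hk, h21, pprod_nil, mul_one]
        exact (S true).mul_mem hp'.1 (hZ _ hp2)
      · exfalso
        have hq' : q.1 ∈ S true ∧ q.2 ∈ S false := by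
          apply hgood; rw [h21]; simp
        apply hmin (L3.length + 1) (by rw [hlen2, h21]; simp)
        refine ⟨(p.1 * p.2 * q.1, q.2) :: L3, k, by simp, ?_, ?_⟩
        · intro r hr
          rcases List.mem_cons.mp hr with rfl | hr
          · exact ⟨(S true).mul_mem ((S true).mul_mem hp'.1 (hZ _ hp2)) hq'.1, hq'.2⟩
          · apply hgood; rw [h21]; simp [hr]
        · rw [hk, h21, pprod_cons, pprod_cons]
          simp only [mul_assoc]

end

end Pool.Agent.MP_dd334f_gt
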