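import Pool.Agent.Lib.MP_dd334f_gt.Discrete

open Matrix
open scoped MatrixGroups

namespace Pool.Agent.MP_dd334f_gt

/-- A matrix with entries of constant sign and a lower bound on its last entry. -/
def PosB (c : ℝ) (M : Matrix (Fin 2) (Fin 2) ℝ) : Prop :=
  ∃ σ : ℝ, (σ = 1 ∨ σ = -1) ∧ 0 < σ * M 0 0 ∧ 0 < σ * M 0 1 ∧ 0 < σ * M 1 0 ∧ c ≤ σ * M 1 1

theorem PosB_mul {c c' : ℝ} (hc : 0 < c) (hc' : 0 < c') {M N : Matrix (Fin 2) (Fin 2) ℝ}
    (hM : PosB c M) (hN : PosB c' N) : PosB (c * c') (M * N) := by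
  obtain ⟨σ, hσ, h1, h2, h3, h4⟩ := hM
  obtain ⟨σ', hσ', k1, k2, k3, k4⟩ := hN
  refine ⟨σ * σ', by rcases hσ with rfl | rfl <;> rcases hσ' with rfl | rfl <;> simp, ?_, ?_, ?_, ?_⟩
  · rw [Matrix.mul_apply, Fin.sum_univ_two]
    have : σ * σ' * (M 0 0 * N 0 0 + M 0 1 * N 1 0) =
      (σ * M 0 0) * (σ' * N 0 0) + (σ * M 0 1) * (σ' * N 1 0) := by ring
    rw [this]; positivity
  · rw [Matrix.mul_apply, Fin.sum_univ_two]
    have : σ * σ' * (M 0 0 * N 0 1 + M 0 1 * N 1 1) =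
      (σ * M 0 0) * (σ' * N 0 1) + (σ * M 0 1) * (σ' * N 1 1) := by ring
    rw [this]
    have : 0 < σ' * N 1 1 := lt_of_lt_of_le hc' k4
    positivity
  · rw [Matrix.mul_apply, Fin.sum_univ_two]
    have : σ * σ' * (M 1 0 * N 0 0 + M 1 1 * N 1 0) =
      (σ * M 1 0) * (σ' * N 0 0) + (σ * M 1 1) * (σ' * N 1 0) := by ring
    rw [this]
    have : 0 < σ * M 1 1 := lt_of_lt_of_le hc h4
    positivity
  · rw [Matrix.mul_apply, Fin.sum_univ_two]
    have : σ * σ' * (M 1 0 * N 0 1 + M 1 1 * N 1 1) =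
      (σ * M 1 0) * (σ' * N 0 1) + (σ * M 1 1) * (σ' * N 1 1) := by ring
    rw [this]
    have h5 : c * c' ≤ (σ * M 1 1) * (σ' * N 1 1) :=
      mul_le_mul h4 k4 hc'.le (le_trans hc.le h4)
    have h6 : 0 < (σ * M 1 0) * (σ' * N 0 1) := by positivity
    linarith

theorem pair_growth (g h : SurfGrp) (hg : Lett SS ZZ true g) (hh : Lett SS ZZ false h) :
    ∃ C : ℝ, 0 < C ∧ ∀ (τ : ℝ) (hτ : 1 ≤ τ),
      PosB (C * τ) (mt (bend τ (by linarith : 0 < τ).ne' (g * h))) := by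
  obtain ⟨σ, p, q, r, t, hσ, hp, hq, hr, ht, hM⟩ := lettA g hg.1 hg.2
  obtain ⟨σ', p', q', r', t', hσ', hp', hq', hr', ht', hM'⟩ := lettB h hh.1 hh.2
  refine ⟨r * q', by positivity, ?_⟩
  intro τ hτ
  have hτ0 : 0 < τ := by linarith
  have hσ2 : σ ^ 2 = 1 := by rcases hσ with rfl | rfl <;> norm_num
  have hσ2' : σ' ^ 2 = 1 := by rcases hσ' with rfl | rfl <;> norm_num
  have hs : (σ * σ') ^ 2 = 1 := by rw [mul_pow, hσ2, hσ2', one_mul]
  have hmat : mt (bend τ hτ0.ne' (g * h)) = (σ * σ') •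
      !![p * p' + q * (r' / τ), p * (τ * q') + q * t'; r * p' + t * (r' / τ),
        r * (τ * q') + t * t'] := by
    rw [map_mul, Aff.mt_mul, bend_SA τ hτ0.ne' g hg.1, bend_SB τ hτ0.ne' h hh.1, hM, hM']
    ext i j
    fin_cases i <;> fin_cases j <;>
      simp [dconj, sg, Matrix.mul_apply, Fin.sum_univ_two] <;> field_simp <;> ring
  rw [hmat]
  refine ⟨σ * σ', by rcases hσ with rfl | rfl <;> rcases hσ' with rfl | rfl <;> simp, ?_, ?_, ?_, ?_⟩
  · have : σ * σ' * ((σ * σ') • !![p * p' + q * (r' / τ), p * (τ * q') + q * t';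
        r * p' + t * (r' / τ), r * (τ * q') + t * t'] : Matrix (Fin 2) (Fin 2) ℝ) 0 0 =
        p * p' + q * (r' / τ) := by
      simp; linear_combination (p * p' + q * (r' / τ)) * hs
    rw [this]; positivity
  · have : σ * σ' * ((σ * σ') • !![p * p' + q * (r' / τ), p * (τ * q') + q * t';
        r * p' + t * (r' / τ), r * (τ * q') + t * t'] : Matrix (Fin 2) (Fin 2) ℝ) 0 1 =
        p * (τ * q') + q * t' := by
      simp; linear_combination (p * (τ * q') + q * t') * hs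
    rw [this]; positivity
  · have : σ * σ' * ((σ * σ') • !![p * p' + q * (r' / τ), p * (τ * q') + q * t';
        r * p' + t * (r' / τ), r * (τ * q') + t * t'] : Matrix (Fin 2) (Fin 2) ℝ) 1 0 =
        r * p' + t * (r' / τ) := by
      simp; linear_combination (r * p' + t * (r' / τ)) * hs
    rw [this]; positivity
  · have : σ * σ' * ((σ * σ') • !![p * p' + q * (r' / τ), p * (τ * q') + q * t';
        r * p' + t * (r' / τ), r * (τ * q') + t * t'] : Matrix (Fin 2) (Fin 2) ℝ) 1 1 =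
        r * (τ * q') + t * t' := by
      simp; linear_combination (r * (τ * q') + t * t') * hs
    rw [this]
    have : 0 < t * t' := by positivity
    nlinarith

theorem alt_growth (w : SurfGrp) (h : Alt SS ZZ w) :
    ∃ C : ℝ, 0 < C ∧ ∀ (τ : ℝ) (hτ : 1 ≤ τ),
      PosB (C * τ) (mt (bend τ (by linarith : 0 < τ).ne' w)) := by
  induction h with
  | base g h hg hh => exact pair_growth g h hg hh
  | step g h w hg hh _ ih =>
    obtain ⟨C, hC, h1⟩ := pair_growth g h hg hh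
    obtain ⟨C', hC', h2⟩ := ih
    refine ⟨C * C', by positivity, ?_⟩
    intro τ hτ
    have hτ0 : 0 < τ := by linarith
    rw [map_mul, Aff.mt_mul]
    obtain ⟨σ, hσ, k1, k2, k3, k4⟩ := PosB_mul (by positivity) (by positivity) (h1 τ hτ) (h2 τ hτ)
    refine ⟨σ, hσ, k1, k2, k3, le_trans ?_ k4⟩
    have : C * C' * τ * 1 ≤ C * C' * τ * τ := by
      apply mul_le_mul_of_nonneg_left hτ (by positivity)
    nlinarith

/-- An element whose bent traces are constant is conjugate into a handle group. -/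
theorem conj_mem_of_const (w : SurfGrp) (c : ℝ)
    (h : ∀ (τ : ℝ) (hτ : τ ≠ 0), (mt (bend τ hτ w)).trace = c) :
    ∃ k : SurfGrp, k * w * k⁻¹ ∈ SA ∨ k * w * k⁻¹ ∈ SB := by
  obtain ⟨k, hk⟩ := conj_normal_form ZZ_le (w := w) (by rw [closure_SS]; trivial)
  rcases hk with hk | hk | hk
  · exact ⟨k, Or.inl hk⟩
  · exact ⟨k, Or.inr hk⟩
  · exfalso
    obtain ⟨C, hC, hgrow⟩ := alt_growth _ hk
    set τ : ℝ := max 1 ((|c| + 1) / C) with hτ
    have hτ1 : 1 ≤ τ := le_max_left _ _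
    have hτ2 : (|c| + 1) / C ≤ τ := le_max_right _ _
    have hτ0 : 0 < τ := by linarith
    obtain ⟨σ, hσ, h1, h2, h3, h4⟩ := hgrow τ hτ1
    have htr : (mt (bend τ hτ0.ne' (k * w * k⁻¹))).trace = c := by
      rw [map_mul, map_mul, map_inv, trace_conj2, h]
    rw [Matrix.trace_fin_two] at htr
    have h5 : |c| + 1 ≤ C * τ := by
      rw [div_le_iff₀ hC] at hτ2; linarith
    have h6 : σ * c = σ * mt (bend τ hτ0.ne' (k * w * k⁻¹)) 0 0 +
        σ * mt (bend τ hτ0.ne' (k * w * k⁻¹)) 1 1 := by rw [← htr]; ring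
    have h7 : σ * c ≤ |c| := by
      rcases hσ with rfl | rfl
      · rw [one_mul]; exact le_abs_self c
      · rw [neg_one_mul]; exact neg_le_abs c
    linarith

end Pool.Agent.MP_dd334f_gt
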