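import Mathlib

namespace Pool.Agent.MP_dd334f_gt

/-! ### The surface group and its simple elements -/

/-- The relator `a b a⁻¹ b⁻¹ c d c⁻¹ d⁻¹` in the free group on
`a, b, c, d = of 0, of 1, of 2, of 3`. -/
def relator : FreeGroup (Fin 4) :=
  FreeGroup.of 0 * FreeGroup.of 1 * (FreeGroup.of 0)⁻¹ * (FreeGroup.of 1)⁻¹ *
    (FreeGroup.of 2 * FreeGroup.of 3 * (FreeGroup.of 2)⁻¹ * (FreeGroup.of 3)⁻¹)

/-- The fundamental group `⟨a, b, c, d | [a,b][c,d] = 1⟩` of the closed orientable surface of
genus two. -/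
abbrev SurfGrp : Type := PresentedGroup ({relator} : Set (FreeGroup (Fin 4)))

/-- The generator `a`. -/
def gA : SurfGrp := PresentedGroup.of 0
/-- The generator `b`. -/
def gB : SurfGrp := PresentedGroup.of 1
/-- The generator `c`. -/
def gC : SurfGrp := PresentedGroup.of 2
/-- The generator `d`. -/
def gD : SurfGrp := PresentedGroup.of 3

/-- The elements represented by simple closed curves: the orbit of `1`, of the nonseparating
curve `a` and of the separating curve `a b a⁻¹ b⁻¹` under the automorphism group of `π`. -/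
def IsSimple (γ : SurfGrp) : Prop :=
  ∃ φ : MulAut SurfGrp, φ γ = 1 ∨ φ γ = gA ∨ φ γ = gA * gB * gA⁻¹ * gB⁻¹

end Pool.Agent.MP_dd334f_gt
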