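import Mathlib

open Matrix
open scoped MatrixGroups

namespace Pool.Agent.MP_dd334f_gt

/-- The third symmetric power of a `2 × 2` matrix: if `h (x, y) = (x', y')` then `sym3 h` sends
`(x³, x²y, xy², y³)` to `(x'³, x'²y', x'y'², y'³)`. -/
def sym3 (h : Matrix (Fin 2) (Fin 2) ℝ) : Matrix (Fin 4) (Fin 4) ℝ :=
  !![h 0 0 ^ 3, 3 * h 0 0 ^ 2 * h 0 1, 3 * h 0 0 * h 0 1 ^ 2, h 0 1 ^ 3;
     h 0 0 ^ 2 * h 1 0, h 0 0 ^ 2 * h 1 1 + 2 * h 0 0 * h 0 1 * h 1 0,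
       2 * h 0 0 * h 0 1 * h 1 1 + h 0 1 ^ 2 * h 1 0, h 0 1 ^ 2 * h 1 1;
     h 0 0 * h 1 0 ^ 2, 2 * h 0 0 * h 1 0 * h 1 1 + h 0 1 * h 1 0 ^ 2,
       h 0 0 * h 1 1 ^ 2 + 2 * h 0 1 * h 1 0 * h 1 1, h 0 1 * h 1 1 ^ 2;
     h 1 0 ^ 3, 3 * h 1 0 ^ 2 * h 1 1, 3 * h 1 0 * h 1 1 ^ 2, h 1 1 ^ 3]

theorem sym3_mul (g h : Matrix (Fin 2) (Fin 2) ℝ) : sym3 (g * h) = sym3 g * sym3 h := by
  ext i j
  fin_cases i <;> fin_cases j <;>
    simp [sym3, Matrix.mul_apply, Fin.sum_univ_succ] <;> ring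

theorem sym3_one : sym3 1 = 1 := by
  ext i j
  fin_cases i <;> fin_cases j <;> simp [sym3]

theorem det_sym3 (h : Matrix (Fin 2) (Fin 2) ℝ) : (sym3 h).det = h.det ^ 6 := by
  simp [sym3, Matrix.det_succ_row_zero, Fin.sum_univ_succ, Fin.succAbove]
  ring

theorem sym3_smul (t : ℝ) (h : Matrix (Fin 2) (Fin 2) ℝ) : sym3 (t • h) = t ^ 3 • sym3 h := by
  ext i j
  fin_cases i <;> fin_cases j <;> simp [sym3] <;> ring

/-- The third symmetric power of an element of `SL(2, ℝ)`. -/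
def sym3SL (h : SL(2, ℝ)) : SL(4, ℝ) := ⟨sym3 h, by rw [det_sym3, h.2, one_pow]⟩

theorem sym3SL_one : sym3SL 1 = 1 := Subtype.ext sym3_one

theorem sym3SL_mul (g h : SL(2, ℝ)) : sym3SL (g * h) = sym3SL g * sym3SL h :=
  Subtype.ext (sym3_mul _ _)

/-- The irreducible representation `SL(2, ℝ) → SL(4, ℝ)`. -/
def irrSL : SL(2, ℝ) →* SL(4, ℝ) where
  toFun := sym3SL
  map_one' := sym3SL_one
  map_mul' := sym3SL_mul

theorem irrSL_center : Subgroup.center SL(2, ℝ) ≤ (Subgroup.center SL(4, ℝ)).comap irrSL := by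
  intro g hg
  obtain ⟨r, hr1, hr⟩ := Matrix.SpecialLinearGroup.mem_center_iff.mp hg
  rw [Subgroup.mem_comap, Matrix.SpecialLinearGroup.mem_center_iff]
  refine ⟨r ^ 3, ?_, ?_⟩
  · simp only [Fintype.card_fin] at hr1 ⊢
    calc (r ^ 3) ^ 4 = (r ^ 2) ^ 6 := by ring
      _ = 1 := by rw [hr1, one_pow]
  · show _ = sym3 g
    rw [← hr]
    ext i j
    fin_cases i <;> fin_cases j <;> simp [sym3]
    all_goals ring

/-- The irreducible representation `ι₄ : PSL(2, ℝ) → PSL(4, ℝ)`. -/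
def irrPSL : PSL(2, ℝ) →* PSL(4, ℝ) :=
  QuotientGroup.map _ _ irrSL irrSL_center

end Pool.Agent.MP_dd334f_gt
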