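import Pool.Agent.Lib.MP_dd334f_gt.StmtL
import Pool.Agent.Lib.MP_dd334f_gt.Sym3
import Pool.Agent.Lib.MP_dd334f_gt.Group

/-!
# Definitions used in the statement: the cotangent space, the Hitchin component, spanning
-/

open Matrix
open scoped MatrixGroups

namespace Pool.Agent.MP_dd334f_gt.Stmt

/-! ### Representations, cocycles and coboundaries -/

/-- The set of representations `π → PSL(n, ℝ)`. -/
def Rep (n : ℕ) : Type := SurfGrp →* PSL(n, ℝ)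

/-- The value `ρ(γ)`. -/
def Rep.val {n : ℕ} (ρ : Rep n) (γ : SurfGrp) : PSL(n, ℝ) :=
  DFunLike.coe (F := SurfGrp →* PSL(n, ℝ)) ρ γ

/-- The space of all functions `π → sl(n, ℝ)`. -/
def Coch (n : ℕ) : Type := SurfGrp → sln n

/-- Pointwise addition. -/
noncomputable instance (n : ℕ) : AddCommGroup (Coch n) :=
  (Pi.addCommGroup : AddCommGroup (SurfGrp → sln n))

/-- Pointwise scalar multiplication. -/
noncomputable instance (n : ℕ) : Module ℝ (Coch n) :=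
  (Pi.module _ _ _ : Module ℝ (SurfGrp → sln n))

/-- The linear map `u ↦ u(γ)`. -/
def Coch.ev {n : ℕ} (γ : SurfGrp) : Coch n →ₗ[ℝ] sln n where
  toFun u := u γ
  map_add' _ _ := rfl
  map_smul' _ _ := rfl

/-- `u : π → sl(n, ℝ)` is a cocycle: `u(γδ) = u(γ) + Ad(ρ(γ)) u(δ)`, where `Ad(ρ(γ))` is
conjugation by any `g ∈ SL(n, ℝ)` with class `ρ(γ)`. -/
def IsCocycle {n : ℕ} (ρ : Rep n) (u : Coch n) : Prop :=
  ∀ (γ δ : SurfGrp) (g : SL(n, ℝ)), cls g = ρ.val γ →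
    (u (γ * δ) : Matrix (Fin n) (Fin n) ℝ) = (u γ : Matrix (Fin n) (Fin n) ℝ) +
      (g : Matrix (Fin n) (Fin n) ℝ) * (u δ : Matrix (Fin n) (Fin n) ℝ) *
        ((g⁻¹ : SL(n, ℝ)) : Matrix (Fin n) (Fin n) ℝ)

/-- `u : π → sl(n, ℝ)` is a coboundary: `u(γ) = w - Ad(ρ(γ)) w` for some `w ∈ sl(n, ℝ)`. -/
def IsCoboundary {n : ℕ} (ρ : Rep n) (u : Coch n) : Prop :=
  ∃ w : sln n, ∀ (γ : SurfGrp) (g : SL(n, ℝ)), cls g = ρ.val γ →
    (u γ : Matrix (Fin n) (Fin n) ℝ) = (w : Matrix (Fin n) (Fin n) ℝ) -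
      (g : Matrix (Fin n) (Fin n) ℝ) * (w : Matrix (Fin n) (Fin n) ℝ) *
        ((g⁻¹ : SL(n, ℝ)) : Matrix (Fin n) (Fin n) ℝ)

theorem coe_add_apply {n : ℕ} (u v : Coch n) (γ : SurfGrp) :
    ((u + v) γ : Matrix (Fin n) (Fin n) ℝ) = (u γ : Matrix (Fin n) (Fin n) ℝ) +
      (v γ : Matrix (Fin n) (Fin n) ℝ) := rfl

theorem coe_zero_apply {n : ℕ} (γ : SurfGrp) :
    ((0 : Coch n) γ : Matrix (Fin n) (Fin n) ℝ) = 0 := rfl

theorem coe_smul_apply {n : ℕ} (t : ℝ) (u : Coch n) (γ : SurfGrp) :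
    ((t • u) γ : Matrix (Fin n) (Fin n) ℝ) = t • (u γ : Matrix (Fin n) (Fin n) ℝ) := rfl

theorem IsCocycle.add {n : ℕ} (ρ : Rep n) {u v : Coch n} (hu : IsCocycle ρ u)
    (hv : IsCocycle ρ v) : IsCocycle ρ (u + v) := by
  intro γ δ g hg
  rw [coe_add_apply, coe_add_apply, coe_add_apply, hu γ δ g hg, hv γ δ g hg, mul_add, add_mul]
  abel

theorem IsCocycle.zero {n : ℕ} (ρ : Rep n) : IsCocycle ρ (0 : Coch n) := by
  intro γ δ g hg
  rw [coe_zero_apply, coe_zero_apply, coe_zero_apply, mul_zero, zero_mul, add_zero]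

theorem IsCocycle.smul {n : ℕ} (ρ : Rep n) (t : ℝ) {u : Coch n} (hu : IsCocycle ρ u) :
    IsCocycle ρ (t • u) := by
  intro γ δ g hg
  rw [coe_smul_apply, coe_smul_apply, coe_smul_apply, hu γ δ g hg, smul_add, Matrix.mul_smul,
    Matrix.smul_mul]

theorem IsCoboundary.add {n : ℕ} (ρ : Rep n) {u v : Coch n} (hu : IsCoboundary ρ u)
    (hv : IsCoboundary ρ v) : IsCoboundary ρ (u + v) := by
  obtain ⟨w, hw⟩ := hu
  obtain ⟨w', hw'⟩ := hv
  refine ⟨w + w', fun γ g hg => ?_⟩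
  rw [coe_add_apply, hw γ g hg, hw' γ g hg, Submodule.coe_add, mul_add, add_mul]
  abel

theorem IsCoboundary.zero {n : ℕ} (ρ : Rep n) : IsCoboundary ρ (0 : Coch n) :=
  ⟨0, fun γ g hg => by rw [coe_zero_apply]; simp⟩

theorem IsCoboundary.smul {n : ℕ} (ρ : Rep n) (t : ℝ) {u : Coch n}
    (hu : IsCoboundary ρ u) : IsCoboundary ρ (t • u) := by
  obtain ⟨w, hw⟩ := hu
  refine ⟨t • w, fun γ g hg => ?_⟩
  rw [coe_smul_apply, hw γ g hg, smul_sub, Submodule.coe_smul, Matrix.mul_smul, Matrix.smul_mul]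

/-- The space `Z¹(π, sl(n, ℝ)_{Ad ρ})` of cocycles. -/
def Z1 {n : ℕ} (ρ : Rep n) : Submodule ℝ (Coch n) where
  carrier := {u | IsCocycle ρ u}
  add_mem' := IsCocycle.add ρ
  zero_mem' := IsCocycle.zero ρ
  smul_mem' := IsCocycle.smul ρ

/-- The space `B¹(π, sl(n, ℝ)_{Ad ρ})` of coboundaries. -/
def B1 {n : ℕ} (ρ : Rep n) : Submodule ℝ (Coch n) where
  carrier := {u | IsCoboundary ρ u}
  add_mem' := IsCoboundary.add ρ
  zero_mem' := IsCoboundary.zero ρ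
  smul_mem' := IsCoboundary.smul ρ

/-- The cohomology `H¹(π, sl(n, ℝ)_{Ad ρ}) = Z¹ / B¹`, the tangent space at `[ρ]`. -/
def H1 {n : ℕ} (ρ : Rep n) : Type := Z1 ρ ⧸ (B1 ρ).submoduleOf (Z1 ρ)

/-- The addition of the quotient. -/
noncomputable instance {n : ℕ} (ρ : Rep n) : AddCommGroup (H1 ρ) :=
  Submodule.Quotient.addCommGroup ((B1 ρ).submoduleOf (Z1 ρ))

/-- The scalar multiplication of the quotient. -/
noncomputable instance {n : ℕ} (ρ : Rep n) : Module ℝ (H1 ρ) :=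
  Submodule.Quotient.module ((B1 ρ).submoduleOf (Z1 ρ))

/-- The linear form `u ↦ D_{ρ(γ)} f (u(γ))` on cocycles. -/
noncomputable def cocycleForm {n : ℕ} (f : ClassFn n) (ρ : Rep n) (γ : SurfGrp) : Z1 ρ →ₗ[ℝ] ℝ :=
  (f.D (ρ.val γ)).toLinearMap ∘ₗ Coch.ev γ ∘ₗ (Z1 ρ).subtype

theorem cocycleForm_vanish {n : ℕ} (f : ClassFn n) (ρ : Rep n) (γ : SurfGrp) :
    (B1 ρ).submoduleOf (Z1 ρ) ≤ LinearMap.ker (cocycleForm f ρ γ) := by
  rintro u ⟨w, hw⟩
  obtain ⟨g, hg⟩ := QuotientGroup.mk_surjective (ρ.val γ)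
  have h1 : ((u : Coch n) γ : sln n) = w - adj g w := Subtype.ext (hw γ g hg)
  rw [LinearMap.mem_ker]
  show f.D (ρ.val γ) ((u : Coch n) γ) = 0
  rw [h1, map_sub, ← hg]
  show f.D (cls g) w - f.D (cls g) (adj g w) = 0
  rw [f.D_self, sub_self]

/-- The differential of `f_γ` at `[ρ]`, as a linear form on the tangent space. -/
noncomputable def differential {n : ℕ} (f : ClassFn n) (ρ : Rep n) (γ : SurfGrp) :
    Module.Dual ℝ (H1 ρ) :=
  ((B1 ρ).submoduleOf (Z1 ρ)).liftQ (cocycleForm f ρ γ) (cocycleForm_vanish f ρ γ)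

/-- The differentials `d f_γ` at `[ρ]`, for `f ∈ F` and `γ` simple, generate the cotangent space
at `[ρ]`. -/
def SpansAt {n : ℕ} (F : Set (ClassFn n)) (ρ : Rep n) : Prop :=
  Submodule.span ℝ {ℓ : Module.Dual ℝ (H1 ρ) |
    ∃ f ∈ F, ∃ γ : SurfGrp, IsSimple γ ∧ ℓ = differential f ρ γ} = ⊤

/-! ### The Hitchin component in `PSL(4, ℝ)` -/

/-- Conjugacy of representations. -/
def Conj {n : ℕ} (ρ σ : Rep n) : Prop := ∃ h : PSL(n, ℝ), ∀ γ, σ.val γ = h * ρ.val γ * h⁻¹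

theorem conj_equivalence (n : ℕ) : Equivalence (Conj (n := n)) where
  refl ρ := ⟨1, fun γ => by simp⟩
  symm := by
    rintro ρ σ ⟨h, hh⟩
    exact ⟨h⁻¹, fun γ => by rw [hh γ]; group⟩
  trans := by
    rintro ρ σ τ ⟨h, hh⟩ ⟨k, hk⟩
    exact ⟨k * h, fun γ => by rw [hk γ, hh γ]; group⟩

/-- Conjugacy of representations, as a setoid. -/
def conjSetoid (n : ℕ) : Setoid (Rep n) := ⟨Conj, conj_equivalence n⟩

/-- The topology of pointwise convergence on the set of representations. -/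
instance (n : ℕ) : TopologicalSpace (Rep n) := TopologicalSpace.induced Rep.val inferInstance

/-- `ι₄ ∘ ρ₀`, where `ι₄ : PSL(2, ℝ) → PSL(4, ℝ)` is the irreducible representation. -/
def Rep.iota (ρ₀ : Rep 2) : Rep 4 := MonoidHom.comp (M := SurfGrp) irrPSL ρ₀

/-- `ρ₀ : π → PSL(2, ℝ)` is discrete and faithful. -/
structure IsDiscreteFaithful (ρ₀ : Rep 2) : Prop where
  injective : Function.Injective ρ₀.val
  discrete : DiscreteTopology (Set.range ρ₀.val)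

/-- `ρ₀ : π → PSL(2, ℝ)` lifts to a representation in `SL(2, ℝ)`. -/
def LiftsToSL2 (ρ₀ : Rep 2) : Prop :=
  ∃ ρt : SurfGrp →* SL(2, ℝ), ∀ γ, ρ₀.val γ = cls (ρt γ)

/-- The representations whose class lies in the Hitchin component, the connected component of
`Hom(π, PSL(4, ℝ)) / PSL(4, ℝ)` containing the class of `ι₄ ∘ ρ₀`. -/
def HitchinRep (ρ₀ : Rep 2) (ρ : Rep 4) : Prop :=
  Quotient.mk (conjSetoid 4) ρ ∈ connectedComponent (Quotient.mk (conjSetoid 4) ρ₀.iota)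

/-- The spanning property of the family `F` on the Hitchin component of `[ι₄ ∘ ρ₀]`. -/
def HasSpanningProperty (F : Set (ClassFn 4)) (ρ₀ : Rep 2) : Prop :=
  ∀ ρ : Rep 4, HitchinRep ρ₀ ρ → SpansAt F ρ

end Pool.Agent.MP_dd334f_gt.Stmt
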