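import Pool.Agent.Lib.MP_dd334f_gt.Good
import Pool.Agent.Lib.MP_dd334f_gt.StmtB

open Matrix
open scoped MatrixGroups

namespace Pool.Agent.MP_dd334f_gt

/-! ### Transfer to the definitions of the statement -/

section
attribute [local instance] Matrix.normedAddCommGroup Matrix.normedSpace
attribute [local instance 100] LieRing.ofAssociativeRing
attribute [local instance] slNorm slNormedSpace slTopAddGroup

/-- The identity `sl n → sln n`. -/
def toSln (n : ℕ) : sl n →ₗ[ℝ] Stmt.sln n where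
  toFun X := ⟨(X : Matrix (Fin n) (Fin n) ℝ), trace_sl X⟩
  map_add' _ _ := rfl
  map_smul' _ _ := rfl

theorem coe_toSln {n : ℕ} (X : sl n) :
    ((toSln n X : Stmt.sln n) : Matrix (Fin n) (Fin n) ℝ) = (X : Matrix (Fin n) (Fin n) ℝ) := rfl

theorem hasFDerivAt_old {n : ℕ} (f : Stmt.ClassFn n) (g : PSL(n, ℝ)) :
    HasFDerivAt (fun X : sl n => f.toFun (QuotientGroup.mk (expSL X) * g))
      ((f.D g).comp (LinearMap.toContinuousLinearMap (toSln n))) 0 := by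
  have hF := (f.diff g).hasFDerivAt
  have hA : HasFDerivAt (fun X : sl n => toSln n X)
      (LinearMap.toContinuousLinearMap (toSln n)) 0 :=
    (LinearMap.toContinuousLinearMap (toSln n)).hasFDerivAt
  have hF' : HasFDerivAt (fun X : Stmt.sln n => f.toFun (Stmt.cls (Stmt.expo X) * g))
      (f.D g) (toSln n 0) := by
    rw [map_zero]; exact hF
  exact hF'.comp (0 : sl n) hA

/-- A class function of the statement, in the terms of the proof. -/
def toOld {n : ℕ} (f : Stmt.ClassFn n) : DiffClassFn n where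
  toFun := f.toFun
  conj_inv := f.conj_inv
  diff g := (hasFDerivAt_old f g).differentiableAt

theorem deriv_toOld {n : ℕ} (f : Stmt.ClassFn n) (g : PSL(n, ℝ)) (X : sl n) :
    (toOld f).deriv g X = f.D g (toSln n X) := by
  have h := (hasFDerivAt_old f g).fderiv
  have h2 : (toOld f).deriv g = (f.D g).comp (LinearMap.toContinuousLinearMap (toSln n)) := h
  rw [h2]
  rfl

end

theorem val_iota (ρ₀ : Stmt.Rep 2) (ρt : SurfGrp →* SL(2, ℝ))
    (h : ∀ γ, ρ₀.val γ = Stmt.cls (ρt γ)) (γ : SurfGrp) : ρ₀.iota.val γ = fuchs ρt γ := by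
  show irrPSL (ρ₀.val γ) = irrPSL (proj2 ρt γ)
  rw [h γ]
  rfl

theorem stmt_not_spansAt (ρ₀ : Stmt.Rep 2) (hinj : Function.Injective ρ₀.val)
    (hl : Stmt.LiftsToSL2 ρ₀) (F : Set (Stmt.ClassFn 4)) : ¬ Stmt.SpansAt F ρ₀.iota := by
  obtain ⟨ρt, hρt⟩ := hl
  have hval := val_iota ρ₀ ρt hρt
  have hinj' : Function.Injective (proj2 ρt) := by
    intro γ δ h
    apply hinj
    rw [hρt, hρt]
    exact h
  obtain ⟨U, hU1, hU2⟩ := exists_killed ρt hinj'
  set u : Stmt.Coch 4 := fun γ => toSln 4 ((U : SurfGrp → sl 4) γ) with hu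
  have huγ : ∀ γ, ((u γ : Stmt.sln 4) : Matrix (Fin 4) (Fin 4) ℝ) =
      (((U : SurfGrp → sl 4) γ : sl 4) : Matrix (Fin 4) (Fin 4) ℝ) := fun γ => rfl
  have hcoc : Stmt.IsCocycle ρ₀.iota u := by
    intro γ δ g hg
    have hg' : fuchs ρt γ = (QuotientGroup.mk g : PSL(4, ℝ)) := by rw [← hval, ← hg]; rfl
    rw [huγ, huγ, huγ, Z1_mul (fuchs ρt) U γ δ, hg', Ad_mk]
    rfl
  have hncob : ¬ Stmt.IsCoboundary ρ₀.iota u := by
    rintro ⟨w, hw⟩
    apply hU1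
    refine ⟨⟨(w : Matrix (Fin 4) (Fin 4) ℝ), w.2⟩, ?_⟩
    apply Subtype.ext
    funext γ
    apply Subtype.ext
    obtain ⟨g, hg⟩ := QuotientGroup.mk_surjective (fuchs ρt γ)
    have h1 := hw γ g (by rw [hval]; exact hg)
    rw [huγ] at h1
    rw [h1]
    show ((_ - Ad (fuchs ρt γ) _ : sl 4) : Matrix (Fin 4) (Fin 4) ℝ) = _
    rw [← hg, Ad_mk]
    rfl
  let z : Stmt.Z1 ρ₀.iota := ⟨u, hcoc⟩
  have hkill : ∀ (f : Stmt.ClassFn 4) (γ : SurfGrp), IsSimple γ →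
      Stmt.cocycleForm f ρ₀.iota γ z = 0 := by
    intro f γ hγ
    have h1 := hU2 (toOld f) γ (good_of_simple γ hγ)
    rw [preDifferential_apply, deriv_toOld] at h1
    show f.D (ρ₀.iota.val γ) (u γ) = 0
    rw [hval]
    exact h1
  intro hspan
  have hne : (Submodule.Quotient.mk z :
      Stmt.Z1 ρ₀.iota ⧸ (Stmt.B1 ρ₀.iota).submoduleOf (Stmt.Z1 ρ₀.iota)) ≠ 0 := by
    intro h
    exact hncob ((Submodule.Quotient.mk_eq_zero _).mp h)
  have hne' : ((Submodule.Quotient.mk z :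
      Stmt.Z1 ρ₀.iota ⧸ (Stmt.B1 ρ₀.iota).submoduleOf (Stmt.Z1 ρ₀.iota)) : Stmt.H1 ρ₀.iota) ≠ 0 :=
    hne
  obtain ⟨ℓ, hℓ⟩ := Module.Projective.exists_dual_ne_zero ℝ hne'
  apply hℓ
  have hle : Submodule.span ℝ {ℓ : Module.Dual ℝ (Stmt.H1 ρ₀.iota) |
      ∃ f ∈ F, ∃ γ : SurfGrp, IsSimple γ ∧ ℓ = Stmt.differential f ρ₀.iota γ} ≤
      LinearMap.ker (Module.Dual.eval ℝ (Stmt.H1 ρ₀.iota) ((Submodule.Quotient.mk z :
      Stmt.Z1 ρ₀.iota ⧸ (Stmt.B1 ρ₀.iota).submoduleOf (Stmt.Z1 ρ₀.iota)) : Stmt.H1 ρ₀.iota)) := by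
    rw [Submodule.span_le]
    rintro _ ⟨f, -, γ, hγ, rfl⟩
    exact hkill f γ hγ
  rw [Stmt.SpansAt] at hspan
  rw [hspan] at hle
  exact hle (Submodule.mem_top (x := ℓ))

/-- The explicit discrete faithful representation. -/
theorem stmt_exists : ∃ ρ₀ : Stmt.Rep 2, Stmt.IsDiscreteFaithful ρ₀ ∧ Stmt.LiftsToSL2 ρ₀ := by
  refine ⟨proj2 rhoS, ⟨rhoS_discreteFaithful.injective, ?_⟩, rhoS, fun γ => rfl⟩
  exact rhoS_discreteFaithful.discrete

end Pool.Agent.MP_dd334f_gt
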