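import Pool.Agent.Lib.MP_dd334f_gt.Words
import Pool.Agent.Lib.MP_dd334f_gt.Amalg

open Matrix
open scoped MatrixGroups

namespace Pool.Agent.MP_dd334f_gt

/-! ### Sign classes of matrices -/

/-- The sign attached to a Boolean. -/
def sg (b : Bool) : ℝ := if b then 1 else -1

theorem sg_true : sg true = 1 := rfl
theorem sg_false : sg false = -1 := rfl

/-- Sign patterns, indexed by the types of the first and last letters. -/
def Cl (s e : Bool) (M : Matrix (Fin 2) (Fin 2) ℝ) : Prop :=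
  ∃ σ p q r t : ℝ, (σ = 1 ∨ σ = -1) ∧ 0 < p ∧ 0 < q ∧ 0 < r ∧ 0 < t ∧
    M = σ • !![p, sg (!e) * q; sg s * r, sg s * sg (!e) * t]

theorem Cl_mul {s e e' : Bool} {M N : Matrix (Fin 2) (Fin 2) ℝ} (hM : Cl s e M)
    (hN : Cl (!e) e' N) : Cl s e' (M * N) := by
  obtain ⟨σ, p, q, r, t, hσ, hp, hq, hr, ht, rfl⟩ := hM
  obtain ⟨σ', p', q', r', t', hσ', hp', hq', hr', ht', rfl⟩ := hN
  refine ⟨σ * σ', p * p' + q * r', p * q' + q * t', r * p' + t * r', r * q' + t * t', ?_,
    by positivity, by positivity, by positivity, by positivity, ?_⟩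
  · rcases hσ with rfl | rfl <;> rcases hσ' with rfl | rfl <;> simp
  · rw [Matrix.smul_mul, Matrix.mul_smul, smul_smul]
    congr 1
    ext i j
    cases s <;> cases e <;> cases e' <;> fin_cases i <;> fin_cases j <;>
      simp [sg, Matrix.mul_apply, Fin.sum_univ_two] <;> ring

/-- The geometric criterion for the pattern of a letter. -/
theorem Cl_of_geom (M : Matrix (Fin 2) (Fin 2) ℝ)
    (h : ∀ v : Fin 2 → ℝ, v ≠ 0 → QJ 0 v ≤ 0 → 0 < QJ 0 (M.mulVec v)) : Cl true true M := by
  have key : ∀ x y : ℝ, ¬ (x = 0 ∧ y = 0) → x * y ≤ 0 →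
      0 < (M 0 0 * x + M 0 1 * y) * (M 1 0 * x + M 1 1 * y) := by
    intro x y hxy hxy2
    have h1 := h ![x, y] (by
      intro h0
      exact hxy ⟨congrFun h0 0, congrFun h0 1⟩) (by rw [QJ_0]; simpa using hxy2)
    rw [QJ_0] at h1
    simpa [Matrix.mulVec, dotProduct, Fin.sum_univ_two] using h1
  have k1 := key 1 0 (by norm_num) (by norm_num)
  have k2 := key 0 1 (by norm_num) (by norm_num)
  simp only [mul_one, mul_zero, add_zero, zero_add] at k1 k2
  have k3 : M 0 0 * M 0 1 < 0 := by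
    by_contra hcon
    push Not at hcon
    have h00 : M 0 0 ≠ 0 := by intro h0; rw [h0] at k1; simp at k1
    have k4 := key (M 0 1) (-(M 0 0)) (by
      rintro ⟨-, h0⟩
      exact h00 (by linarith)) (by nlinarith)
    have : M 0 0 * M 0 1 + M 0 1 * -(M 0 0) = 0 := by ring
    rw [this, zero_mul] at k4
    exact lt_irrefl _ k4
  rcases lt_trichotomy (M 0 0) 0 with h0 | h0 | h0
  · have h01 : 0 < M 0 1 := by
      by_contra hc; push Not at hc; nlinarith
    have h10 : M 1 0 < 0 := by
      by_contra hc; push Not at hc; nlinarith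
    have h11 : 0 < M 1 1 := by
      by_contra hc; push Not at hc; nlinarith
    refine ⟨-1, -(M 0 0), M 0 1, -(M 1 0), M 1 1, Or.inr rfl, by linarith, h01, by linarith, h11, ?_⟩
    ext i j
    fin_cases i <;> fin_cases j <;> simp [sg]
  · rw [h0] at k1; simp at k1
  · have h01 : M 0 1 < 0 := by
      by_contra hc; push Not at hc; nlinarith
    have h10 : 0 < M 1 0 := by
      by_contra hc; push Not at hc; nlinarith
    have h11 : M 1 1 < 0 := by
      by_contra hc; push Not at hc; nlinarith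
    refine ⟨1, M 0 0, -(M 0 1), M 1 0, -(M 1 1), Or.inl rfl, h0, by linarith, h10, by linarith, ?_⟩
    ext i j
    fin_cases i <;> fin_cases j <;> simp [sg]

/-! ### The swap automorphism and the second handle -/

theorem swap_relator :
    ∀ r ∈ ({relator} : Set (FreeGroup (Fin 4))), FreeGroup.lift ![gC, gD, gA, gB] r = 1 := by
  intro r hr
  rw [Set.mem_singleton_iff] at hr
  subst hr
  simp only [relator, map_mul, map_inv, FreeGroup.lift_apply_of]
  show gC * gD * gC⁻¹ * gD⁻¹ * (gA * gB * gA⁻¹ * gB⁻¹) = 1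
  have h := surf_relation
  have h2 : gA * gB * gA⁻¹ * gB⁻¹ = (gC * gD * gC⁻¹ * gD⁻¹)⁻¹ := eq_inv_of_mul_eq_one_left h
  rw [h2, mul_inv_cancel]

/-- The automorphism exchanging the two handles. -/
def swapHom : SurfGrp →* SurfGrp := PresentedGroup.toGroup swap_relator

theorem swap_A : swapHom gA = gC := PresentedGroup.toGroup.of _
theorem swap_B : swapHom gB = gD := PresentedGroup.toGroup.of _
theorem swap_C : swapHom gC = gA := PresentedGroup.toGroup.of _
theorem swap_D : swapHom gD = gB := PresentedGroup.toGroup.of _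

theorem hom_ext_gen {G : Type*} [Group G] {φ ψ : SurfGrp →* G} (hA : φ gA = ψ gA)
    (hB : φ gB = ψ gB) (hC : φ gC = ψ gC) (hD : φ gD = ψ gD) : φ = ψ := by
  apply PresentedGroup.ext
  intro i
  fin_cases i
  · exact hA
  · exact hB
  · exact hC
  · exact hD

theorem swap_swap (γ : SurfGrp) : swapHom (swapHom γ) = γ := by
  have : swapHom.comp swapHom = MonoidHom.id SurfGrp := by
    apply hom_ext_gen <;> simp [swap_A, swap_B, swap_C, swap_D]
  exact DFunLike.congr_fun this γ

theorem z_eq : gz = (gC * gD * gC⁻¹ * gD⁻¹)⁻¹ := eq_inv_of_mul_eq_one_left surf_relation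

theorem swap_z : swapHom gz = gz⁻¹ := by
  rw [z_eq, inv_inv, map_inv]
  simp only [map_mul, map_inv, swap_C, swap_D]
  show (gA * gB * gA⁻¹ * gB⁻¹)⁻¹ = _
  rw [show gA * gB * gA⁻¹ * gB⁻¹ = gz from rfl, z_eq, inv_inv]

/-- The subgroup generated by `c` and `d`. -/
def SB : Subgroup SurfGrp := Subgroup.closure {gC, gD}

theorem swap_mem_SA {β : SurfGrp} (h : β ∈ SB) : swapHom β ∈ SA := by
  have h1 : SB ≤ SA.comap swapHom := by
    rw [SB, Subgroup.closure_le]
    rintro x (rfl | rfl)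
    · show swapHom gC ∈ SA
      rw [swap_C]; exact Subgroup.subset_closure (by simp)
    · show swapHom gD ∈ SA
      rw [swap_D]; exact Subgroup.subset_closure (by simp)
  exact h1 h

theorem swap_mem_SB {β : SurfGrp} (h : β ∈ SA) : swapHom β ∈ SB := by
  have h1 : SA ≤ SB.comap swapHom := by
    rw [SA, Subgroup.closure_le]
    rintro x (rfl | rfl)
    · show swapHom gA ∈ SB
      rw [swap_A]; exact Subgroup.subset_closure (by simp)
    · show swapHom gB ∈ SB
      rw [swap_B]; exact Subgroup.subset_closure (by simp)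
  exact h1 h

/-- The rotation exchanging the two sides. -/
def mR : SL(2, ℝ) := ⟨!![0, 1; -1, 0], by norm_num [Matrix.det_fin_two]⟩

theorem rhoS_C : mt (rhoS gC) = !![3 / 2, 2; -5, -6] := by
  rw [rhoS, bend_C, coe_mC]; norm_num
theorem rhoS_D : mt (rhoS gD) = !![-4, -2; 5 / 2, 1] := by
  rw [rhoS, bend_D, coe_mD]; norm_num

theorem rhoS_swap (γ : SurfGrp) : rhoS (swapHom γ) = mR * rhoS γ * mR⁻¹ := by
  have hR : mt mR = !![0, 1; -1, 0] := rfl
  have hRi : mt mR⁻¹ = !![0, -1; 1, 0] := by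
    rw [mt, Matrix.SpecialLinearGroup.coe_inv]
    show adjugate (mt mR) = _
    rw [hR, Matrix.adjugate_fin_two]; simp
  have : rhoS.comp swapHom = (MulAut.conj mR).toMonoidHom.comp rhoS := by
    apply hom_ext_gen
    · apply Subtype.ext
      show mt (rhoS (swapHom gA)) = mt (mR * rhoS gA * mR⁻¹)
      rw [swap_A, rhoS_C, Aff.mt_mul, Aff.mt_mul, hR, hRi, rhoS_A, coe_mA]
      ext i j
      fin_cases i <;> fin_cases j <;> norm_num [Matrix.mul_apply, Fin.sum_univ_two]
    · apply Subtype.ext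
      show mt (rhoS (swapHom gB)) = mt (mR * rhoS gB * mR⁻¹)
      rw [swap_B, rhoS_D, Aff.mt_mul, Aff.mt_mul, hR, hRi, rhoS_B, coe_mB]
      ext i j
      fin_cases i <;> fin_cases j <;> norm_num [Matrix.mul_apply, Fin.sum_univ_two]
    · apply Subtype.ext
      show mt (rhoS (swapHom gC)) = mt (mR * rhoS gC * mR⁻¹)
      rw [swap_C, Aff.mt_mul, Aff.mt_mul, rhoS_C, hR, hRi, rhoS_A, coe_mA]
      ext i j
      fin_cases i <;> fin_cases j <;> norm_num [Matrix.mul_apply, Fin.sum_univ_two]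
    · apply Subtype.ext
      show mt (rhoS (swapHom gD)) = mt (mR * rhoS gD * mR⁻¹)
      rw [swap_D, Aff.mt_mul, Aff.mt_mul, rhoS_D, hR, hRi, rhoS_B, coe_mB]
      ext i j
      fin_cases i <;> fin_cases j <;> norm_num [Matrix.mul_apply, Fin.sum_univ_two]
  exact DFunLike.congr_fun this γ

end Pool.Agent.MP_dd334f_gt
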