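import Pool.Agent.Lib.MP_dd334f_gt.Inter

open Matrix
open scoped MatrixGroups

namespace Pool.Agent.MP_dd334f_gt

/-! ### The surface group is not metabelian -/

/-- A double commutator which is nontrivial in the surface group. -/
def gam0 : SurfGrp :=
  let h := gA * gB * gA⁻¹ * gB⁻¹
  let k := gA * gB⁻¹ * gA⁻¹ * gB
  h * k * h⁻¹ * k⁻¹

def permP : Equiv.Perm (Fin 5) := Equiv.swap 0 1 * Equiv.swap 1 2
def permQ : Equiv.Perm (Fin 5) := Equiv.swap 2 3 * Equiv.swap 3 4

def permVal : Fin 4 → Equiv.Perm (Fin 5) := ![permP, permQ, permQ, permP]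

theorem perm_relator :
    ∀ r ∈ ({relator} : Set (FreeGroup (Fin 4))), FreeGroup.lift permVal r = 1 := by
  intro r hr
  rw [Set.mem_singleton_iff] at hr
  subst hr
  simp only [relator, map_mul, map_inv, FreeGroup.lift_apply_of]
  show permP * permQ * permP⁻¹ * permQ⁻¹ * (permQ * permP * permQ⁻¹ * permP⁻¹) = 1
  group

def permHom : SurfGrp →* Equiv.Perm (Fin 5) := PresentedGroup.toGroup perm_relator

set_option maxRecDepth 100000 in
theorem gam0_ne_one : gam0 ≠ 1 := by
  intro h
  have h2 : permHom gam0 = 1 := by rw [h, map_one]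
  have hA : permHom gA = permP := PresentedGroup.toGroup.of _
  have hB : permHom gB = permQ := PresentedGroup.toGroup.of _
  simp only [gam0, map_mul, map_inv, hA, hB] at h2
  have h3 := congrArg (fun σ : Equiv.Perm (Fin 5) => σ 0) h2
  revert h3
  decide

/-- Two elements of `SL(2, ℝ)` fixing a common nonzero vector commute. -/
theorem commute_of_fix (h h' : SL(2, ℝ)) (v : Fin 2 → ℝ) (hv : v ≠ 0)
    (h1 : (mt h).mulVec v = v) (h2 : (mt h').mulVec v = v) : h * h' = h' * h := by
  have e1 := congrFun h1 0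
  have e2 := congrFun h1 1
  have e3 := congrFun h2 0
  have e4 := congrFun h2 1
  have hdet : (mt h) 0 0 * (mt h) 1 1 - (mt h) 0 1 * (mt h) 1 0 = 1 := by
    rw [← Matrix.det_fin_two]; exact h.2
  have hdet' : (mt h') 0 0 * (mt h') 1 1 - (mt h') 0 1 * (mt h') 1 0 = 1 := by
    rw [← Matrix.det_fin_two]; exact h'.2
  simp only [Matrix.mulVec, dotProduct, Fin.sum_univ_two] at e1 e2 e3 e4
  apply Subtype.ext
  rw [Matrix.SpecialLinearGroup.coe_mul, Matrix.SpecialLinearGroup.coe_mul]
  change mt h * mt h' = mt h' * mt h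
  generalize mt h = H at *
  generalize mt h' = H' at *
  by_cases hv0 : v 0 = 0
  · have hv1 : v 1 ≠ 0 := by
      intro h0
      apply hv
      funext i
      fin_cases i
      · exact hv0
      · exact h0
    rw [hv0] at e1 e2 e3 e4
    have a1 : H 0 1 = 0 := by
      have : H 0 1 * v 1 = 0 := by linarith
      exact (mul_eq_zero.mp this).resolve_right hv1
    have a2 : H 1 1 = 1 := by
      have : (H 1 1 - 1) * v 1 = 0 := by linarith
      have := (mul_eq_zero.mp this).resolve_right hv1
      linarith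
    have a3 : H' 0 1 = 0 := by
      have : H' 0 1 * v 1 = 0 := by linarith
      exact (mul_eq_zero.mp this).resolve_right hv1
    have a4 : H' 1 1 = 1 := by
      have : (H' 1 1 - 1) * v 1 = 0 := by linarith
      have := (mul_eq_zero.mp this).resolve_right hv1
      linarith
    have a5 : H 0 0 = 1 := by rw [a1, a2] at hdet; linarith
    have a6 : H' 0 0 = 1 := by rw [a3, a4] at hdet'; linarith
    ext i j
    fin_cases i <;> fin_cases j <;>
      simp [Matrix.mul_apply, Fin.sum_univ_succ, a1, a2, a3, a4, a5, a6] <;> ring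
  · set t := v 1 / v 0 with ht
    have hvt : v 1 = t * v 0 := by rw [ht]; field_simp
    rw [hvt] at e1 e2 e3 e4
    have a1 : H 0 0 = 1 - H 0 1 * t := by
      have : (H 0 0 - (1 - H 0 1 * t)) * v 0 = 0 := by linarith
      have := (mul_eq_zero.mp this).resolve_right hv0
      linarith
    have a2 : H 1 0 = t * (1 - H 1 1) := by
      have : (H 1 0 - t * (1 - H 1 1)) * v 0 = 0 := by linarith
      have := (mul_eq_zero.mp this).resolve_right hv0
      linarith
    have a3 : H' 0 0 = 1 - H' 0 1 * t := by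
      have : (H' 0 0 - (1 - H' 0 1 * t)) * v 0 = 0 := by linarith
      have := (mul_eq_zero.mp this).resolve_right hv0
      linarith
    have a4 : H' 1 0 = t * (1 - H' 1 1) := by
      have : (H' 1 0 - t * (1 - H' 1 1)) * v 0 = 0 := by linarith
      have := (mul_eq_zero.mp this).resolve_right hv0
      linarith
    have a5 : H 1 1 = 1 + H 0 1 * t := by
      rw [a1, a2] at hdet; linarith
    have a6 : H' 1 1 = 1 + H' 0 1 * t := by
      rw [a3, a4] at hdet'; linarith
    ext i j
    fin_cases i <;> fin_cases j <;>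
      simp [Matrix.mul_apply, Fin.sum_univ_succ, a1, a2, a3, a4, a5, a6] <;> ring

/-- A commutator of elements with a common eigenvector fixes it. -/
theorem comm_fix (g k : SL(2, ℝ)) (v : Fin 2 → ℝ) (hv : v ≠ 0) (lam mu : ℝ)
    (h1 : (mt g).mulVec v = lam • v) (h2 : (mt k).mulVec v = mu • v) :
    (mt (g * k * g⁻¹ * k⁻¹)).mulVec v = v := by
  have inv_fix : ∀ (g : SL(2, ℝ)) (lam : ℝ), (mt g).mulVec v = lam • v →
      lam ≠ 0 ∧ (mt g⁻¹).mulVec v = lam⁻¹ • v := by
    intro g lam hg
    have e : mt g⁻¹ * mt g = 1 := by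
      simp only [mt]
      rw [← Matrix.SpecialLinearGroup.coe_mul, inv_mul_cancel, Matrix.SpecialLinearGroup.coe_one]
    have h3 : v = lam • (mt g⁻¹).mulVec v := by
      calc v = (mt g⁻¹ * mt g).mulVec v := by rw [e, Matrix.one_mulVec]
        _ = (mt g⁻¹).mulVec ((mt g).mulVec v) := by rw [Matrix.mulVec_mulVec]
        _ = _ := by rw [hg, Matrix.mulVec_smul]
    have hl : lam ≠ 0 := by
      intro h0
      rw [h0, zero_smul] at h3
      exact hv h3
    refine ⟨hl, ?_⟩
    calc (mt g⁻¹).mulVec v = lam⁻¹ • (lam • (mt g⁻¹).mulVec v) := by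
          rw [smul_smul, inv_mul_cancel₀ hl, one_smul]
      _ = _ := by rw [← h3]
  obtain ⟨hl, h3⟩ := inv_fix g lam h1
  obtain ⟨hm, h4⟩ := inv_fix k mu h2
  simp only [mt, Matrix.SpecialLinearGroup.coe_mul] at *
  rw [← Matrix.mulVec_mulVec, h4, Matrix.mulVec_smul, ← Matrix.mulVec_mulVec, h3,
    Matrix.mulVec_smul, ← Matrix.mulVec_mulVec, h2, Matrix.mulVec_smul, h1, smul_smul, smul_smul,
    smul_smul]
  have : mu⁻¹ * (lam⁻¹ * (mu * lam)) = 1 := by field_simp
  rw [show mu⁻¹ * lam⁻¹ * mu * lam = mu⁻¹ * (lam⁻¹ * (mu * lam)) by ring, this, one_smul]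

/-- The image of a representation all of whose generator commutators are singular kills the
double commutator `gam0`. -/
theorem rho_gam0 (ρ : SurfGrp →* SL(2, ℝ))
    (hdeg : ∀ i j, (mt (ρ (xg i)) * mt (ρ (xg j)) - mt (ρ (xg j)) * mt (ρ (xg i))).det = 0) :
    ρ gam0 = 1 := by
  by_cases hab : ∀ i j, ρ (xg i) * ρ (xg j) = ρ (xg j) * ρ (xg i)
  · have hc : ∀ i (δ : SurfGrp), ρ (xg i) * ρ δ = ρ δ * ρ (xg i) := by
      intro i δ
      induction δ using xg_induction with
      | h1 => simp
      | hx j => exact hab i j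
      | hmul a b ha hb => rw [map_mul, ← mul_assoc, ha, mul_assoc, hb, mul_assoc]
      | hinv a ha =>
        rw [map_inv]
        exact (Commute.inv_right (show Commute (ρ (xg i)) (ρ a) from ha))
    have hc2 : ∀ γ δ : SurfGrp, ρ γ * ρ δ = ρ δ * ρ γ := by
      intro γ δ
      induction γ using xg_induction with
      | h1 => simp
      | hx j => exact hc j δ
      | hmul a b ha hb => rw [map_mul, mul_assoc, hb, ← mul_assoc, ha, mul_assoc]
      | hinv a ha =>
        rw [map_inv]
        exact (Commute.inv_left (show Commute (ρ a) (ρ δ) from ha))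
    have h1 : ρ gA * ρ gB * (ρ gA)⁻¹ * (ρ gB)⁻¹ = 1 := by
      rw [hc2 gA gB]; group
    simp only [gam0, map_mul, map_inv]
    rw [h1]; group
  · push Not at hab
    obtain ⟨i, j, hij⟩ := hab
    have hdet := hdeg i j
    have hint := inter_all ρ _ (fun k => inter_gen (X := fun i => ρ (xg i)) (rho_relation ρ) i j k)
    have htr : (mt (ρ (xg i)) * mt (ρ (xg j)) - mt (ρ (xg j)) * mt (ρ (xg i))).trace = 0 := by
      rw [Matrix.trace_sub, Matrix.trace_mul_comm, sub_self]
    have hN0 : mt (ρ (xg i)) * mt (ρ (xg j)) - mt (ρ (xg j)) * mt (ρ (xg i)) ≠ 0 := by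
      intro h0
      apply hij
      apply Subtype.ext
      rw [sub_eq_zero] at h0
      simpa [mt] using h0
    generalize mt (ρ (xg i)) * mt (ρ (xg j)) - mt (ρ (xg j)) * mt (ρ (xg i)) = N at *
    -- a nonzero column of `N`
    obtain ⟨c, hc⟩ : ∃ c : Fin 2, (fun r => N r c) ≠ 0 := by
      by_contra hcon
      push Not at hcon
      apply hN0
      ext r c
      exact congrFun (hcon c) r
    set v : Fin 2 → ℝ := fun r => N r c with hv
    have hcol : ∀ e : Fin 2, ∃ s : ℝ, (fun r => N r e) = s • v := by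
      intro e
      have hd : N 0 0 * N 1 1 - N 0 1 * N 1 0 = 0 := by rw [← Matrix.det_fin_two]; exact hdet
      have hce : N 0 c * N 1 e = N 1 c * N 0 e := by
        fin_cases c <;> fin_cases e <;> simp <;> linarith
      by_cases h0 : N 0 c = 0
      · have h1 : N 1 c ≠ 0 := by
          intro h1
          apply hc
          funext r
          fin_cases r
          · exact h0
          · exact h1
        refine ⟨N 1 e / N 1 c, ?_⟩
        rw [h0, zero_mul] at hce
        have h2 : N 0 e = 0 := (mul_eq_zero.mp hce.symm).resolve_left h1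
        funext r
        fin_cases r
        · simp [hv, h0, h2]
        · simp [hv]; field_simp
      · refine ⟨N 0 e / N 0 c, ?_⟩
        funext r
        fin_cases r
        · simp [hv]; field_simp
        · simp [hv]; field_simp; linarith
    have heig : ∀ γ : SurfGrp, ∃ lam : ℝ, (mt (ρ γ)).mulVec v = lam • v := by
      intro γ
      have h1 := hint (iotaHom γ)
      rw [iotaHom_iotaHom] at h1
      obtain ⟨s0, hs0⟩ := hcol 0
      obtain ⟨s1, hs1⟩ := hcol 1
      refine ⟨s0 * mt (ρ (iotaHom γ)) 0 c + s1 * mt (ρ (iotaHom γ)) 1 c, ?_⟩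
      funext r
      have h2 := congrFun (congrFun h1 r) c
      rw [Matrix.mul_apply, Matrix.mul_apply, Fin.sum_univ_two] at h2
      have e0 := congrFun hs0 r
      have e1 := congrFun hs1 r
      simp only [Pi.smul_apply, smul_eq_mul] at e0 e1
      rw [e0, e1] at h2
      simp only [Matrix.mulVec, dotProduct, Pi.smul_apply, smul_eq_mul]
      rw [show (∑ x, mt (ρ γ) r x * v x) = ∑ x, mt (ρ γ) r x * N x c from rfl, ← h2]
      ring
    have hfix : ∀ γ δ : SurfGrp, (mt (ρ (γ * δ * γ⁻¹ * δ⁻¹))).mulVec v = v := by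
      intro γ δ
      obtain ⟨l, hl⟩ := heig γ
      obtain ⟨m, hm⟩ := heig δ
      have := comm_fix (ρ γ) (ρ δ) v hc l m hl hm
      simpa only [map_mul, map_inv] using this
    have h1 := hfix gA gB
    have h2 := hfix gA gB⁻¹
    rw [inv_inv] at h2
    have h3 := commute_of_fix _ _ v hc h1 h2
    simp only [gam0]
    rw [map_mul, map_mul, map_mul, map_inv, map_inv, h3]
    group

/-- The hyperelliptic involution is realized by conjugation, for every representation with
injective projectivization. -/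
theorem exists_J (ρ : SurfGrp →* SL(2, ℝ))
    (hinj : Function.Injective (fun γ => (QuotientGroup.mk (ρ γ) : PSL(2, ℝ)))) :
    ∃ J : Matrix (Fin 2) (Fin 2) ℝ, J.trace = 0 ∧ J.det ≠ 0 ∧
      ∀ γ, J * mt (ρ γ) = mt (ρ (iotaHom γ)) * J := by
  by_contra hcon
  have hdeg : ∀ i j,
      (mt (ρ (xg i)) * mt (ρ (xg j)) - mt (ρ (xg j)) * mt (ρ (xg i))).det = 0 := by
    intro i j
    by_contra hne
    apply hcon
    refine ⟨_, ?_, hne, inter_all ρ _
      (fun k => inter_gen (X := fun i => ρ (xg i)) (rho_relation ρ) i j k)⟩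
    rw [Matrix.trace_sub, Matrix.trace_mul_comm, sub_self]
  have h1 := rho_gam0 ρ hdeg
  apply gam0_ne_one
  apply hinj
  simp only [h1, map_one]

/-- Normalized form of `exists_J`: the conjugating matrix has determinant `±1`. -/
theorem exists_J' (ρ : SurfGrp →* SL(2, ℝ))
    (hinj : Function.Injective (fun γ => (QuotientGroup.mk (ρ γ) : PSL(2, ℝ)))) :
    ∃ J : Matrix (Fin 2) (Fin 2) ℝ, J.trace = 0 ∧ J.det ^ 2 = 1 ∧
      ∀ γ, J * mt (ρ γ) = mt (ρ (iotaHom γ)) * J := by
  obtain ⟨J, h1, h2, h3⟩ := exists_J ρ hinj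
  have hpos : 0 < |J.det| := abs_pos.mpr h2
  set s : ℝ := (Real.sqrt |J.det|)⁻¹ with hs
  have hs2 : s ^ 2 = |J.det|⁻¹ := by
    rw [hs, inv_pow, Real.sq_sqrt hpos.le]
  refine ⟨s • J, ?_, ?_, ?_⟩
  · rw [Matrix.trace_smul, h1, smul_zero]
  · rw [Matrix.det_smul, Fintype.card_fin, hs2, mul_pow, ← sq_abs J.det, inv_pow]
    field_simp
  · intro γ
    rw [Matrix.smul_mul, Matrix.mul_smul, h3]

end Pool.Agent.MP_dd334f_gt
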