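import Pool.Agent.Lib.MP_dd334f_gt.Fix
import Pool.Agent.Lib.MP_dd334f_gt.ExistsJ

open Matrix
open scoped MatrixGroups

namespace Pool.Agent.MP_dd334f_gt

/-! ### The dimension count -/

/-- The affine value on `x₁x₂x₃x₄`. -/
def EE (X : Fin 4 → Matrix (Fin 2) (Fin 2) ℝ) : (Fin 4 → R7) →ₗ[ℝ] R7 where
  toFun u := u 0 + T (X 0) (u 1) + T (X 0 * X 1) (u 2) + T (X 0 * X 1 * X 2) (u 3)
  map_add' u v := by
    simp only [Pi.add_apply, map_add]; abel
  map_smul' t u := by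
    simp only [Pi.smul_apply, map_smul, smul_add, RingHom.id_apply]

theorem EE_apply (X : Fin 4 → Matrix (Fin 2) (Fin 2) ℝ) (u : Fin 4 → R7) :
    EE X u = u 0 + T (X 0) (u 1) + T (X 0 * X 1) (u 2) + T (X 0 * X 1 * X 2) (u 3) := rfl

/-- The coboundary map on generators. -/
def CC (X : Fin 4 → Matrix (Fin 2) (Fin 2) ℝ) : R7 →ₗ[ℝ] (Fin 4 → R7) :=
  LinearMap.pi fun i => LinearMap.id - T (X i)

theorem CC_apply (X : Fin 4 → Matrix (Fin 2) (Fin 2) ℝ) (w : R7) (i : Fin 4) :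
    CC X w i = w - T (X i) w := rfl

theorem dim_count (X : Fin 4 → Matrix (Fin 2) (Fin 2) ℝ) (c : Fin 4 → Matrix (Fin 2) (Fin 2) ℝ)
    (e : Matrix (Fin 2) (Fin 2) ℝ) (hc : ∀ i, (c i).trace = 0) (hcd : ∀ i, (c i).det ^ 2 = 1)
    (he : e.trace = 0) (hed : e.det ^ 2 = 1) :
    ∃ u : Fin 4 → R7, (∀ i, (c i).det • T (c i) (u i) = u i) ∧
      e.det • T e (EE X u) = EE X u ∧ ∀ w : R7, u ≠ CC X w := by
  choose φ hφ hφ2 using fun i => exists_fix (c i) (hc i) (hcd i)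
  obtain ⟨ψ, hψ, hψ2⟩ := exists_fix e he hed
  let Φ : (Fin 4 → Fin 3 → ℝ) →ₗ[ℝ] (Fin 4 → R7) :=
    LinearMap.pi fun i => (φ i) ∘ₗ (LinearMap.proj i)
  have hΦ : Function.Injective Φ := by
    intro x y h
    funext i
    exact hφ i (congrFun h i)
  let D : R7 →ₗ[ℝ] R7 := LinearMap.id - e.det • T e
  have hDker : 3 ≤ Module.finrank ℝ (LinearMap.ker D) := by
    have : ∀ x, ψ x ∈ LinearMap.ker D := by
      intro x
      rw [LinearMap.mem_ker]
      show ψ x - e.det • T e (ψ x) = 0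
      rw [hψ2, sub_self]
    have h2 := LinearMap.finrank_le_finrank_of_injective (f := ψ.codRestrict _ this)
      (fun x y h => hψ (congrArg Subtype.val h))
    simpa using h2
  have hDrange : Module.finrank ℝ (LinearMap.range D) ≤ 4 := by
    have := LinearMap.finrank_range_add_finrank_ker D
    simp only [Module.finrank_fintype_fun_eq_card, Fintype.card_fin] at this
    omega
  let L : (Fin 4 → Fin 3 → ℝ) →ₗ[ℝ] R7 := D ∘ₗ (EE X) ∘ₗ Φ
  have hLrange : Module.finrank ℝ (LinearMap.range L) ≤ 4 :=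
    le_trans (Submodule.finrank_mono (LinearMap.range_comp_le_range _ _)) hDrange
  have hLker : 8 ≤ Module.finrank ℝ (LinearMap.ker L) := by
    have := LinearMap.finrank_range_add_finrank_ker L
    have h12 : Module.finrank ℝ (Fin 4 → Fin 3 → ℝ) = 12 := by
      simp [Module.finrank_pi_fintype]
    omega
  have hCrange : Module.finrank ℝ (LinearMap.range (CC X)) ≤ 7 := by
    have := LinearMap.finrank_range_le (CC X)
    simpa using this
  obtain ⟨x, hxK, hxC⟩ : ∃ x ∈ LinearMap.ker L, Φ x ∉ LinearMap.range (CC X) := by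
    by_contra hcon
    push Not at hcon
    have h1 : ∀ x : LinearMap.ker L, (Φ ∘ₗ (LinearMap.ker L).subtype) x ∈ LinearMap.range (CC X) :=
      fun x => hcon x x.2
    have h2 := LinearMap.finrank_le_finrank_of_injective
      (f := (Φ ∘ₗ (LinearMap.ker L).subtype).codRestrict _ h1)
      (fun x y h => Subtype.ext (hΦ (congrArg Subtype.val h)))
    omega
  refine ⟨Φ x, fun i => hφ2 i _, ?_, fun w hw => hxC ⟨w, hw.symm⟩⟩
  have h1 : EE X (Φ x) - e.det • T e (EE X (Φ x)) = 0 := hxK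
  exact (sub_eq_zero.mp h1).symm

/-! ### The affine group and the cocycle -/

/-- Pairs (translation part, linear part). -/
structure Aff where
  /-- translation part -/
  v : R7
  /-- linear part -/
  g : SL(2, ℝ)

namespace Aff

@[ext]
theorem ext' {p q : Aff} (h1 : p.v = q.v) (h2 : p.g = q.g) : p = q := by
  cases p; cases q; simp_all

instance : Mul Aff := ⟨fun p q => ⟨p.v + T (mt p.g) q.v, p.g * q.g⟩⟩
instance : One Aff := ⟨⟨0, 1⟩⟩
instance : Inv Aff := ⟨fun p => ⟨-T (mt p.g⁻¹) p.v, p.g⁻¹⟩⟩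

theorem mul_def (p q : Aff) : p * q = ⟨p.v + T (mt p.g) q.v, p.g * q.g⟩ := rfl
theorem mul_v (p q : Aff) : (p * q).v = p.v + T (mt p.g) q.v := rfl
theorem mul_g (p q : Aff) : (p * q).g = p.g * q.g := rfl

theorem mt_one : mt 1 = 1 := Matrix.SpecialLinearGroup.coe_one
theorem mt_mul (g h : SL(2, ℝ)) : mt (g * h) = mt g * mt h := Matrix.SpecialLinearGroup.coe_mul _ _

instance : Group Aff := Group.ofLeftAxioms
  (by
    intro p q r
    apply Aff.ext'
    · simp only [mul_v, mul_g, mt_mul, map_add, T_mul]; abel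
    · simp only [mul_g, mul_assoc])
  (by
    intro p
    apply Aff.ext'
    · show (0 : R7) + T (mt 1) p.v = p.v
      rw [mt_one, T_one, zero_add]
    · show 1 * p.g = p.g
      rw [one_mul])
  (by
    intro p
    apply Aff.ext'
    · show -T (mt p.g⁻¹) p.v + T (mt p.g⁻¹) p.v = 0
      rw [neg_add_cancel]
    · show p.g⁻¹ * p.g = 1
      rw [inv_mul_cancel])

/-- The linear part as a homomorphism. -/
def gHom : Aff →* SL(2, ℝ) where
  toFun p := p.g
  map_one' := rfl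
  map_mul' _ _ := rfl

end Aff

open Aff

theorem mt_inv_mul (g : SL(2, ℝ)) : mt g⁻¹ * mt g = 1 := by
  rw [← mt_mul, inv_mul_cancel, mt_one]

theorem mt_mul_inv (g : SL(2, ℝ)) : mt g * mt g⁻¹ = 1 := by
  rw [← mt_mul, mul_inv_cancel, mt_one]

theorem det_mt (g : SL(2, ℝ)) : (mt g).det = 1 := g.2

/-- If a traceless `J` inverts `g` by conjugation, then `g J` is traceless. -/
theorem trace_mul_J (J : Matrix (Fin 2) (Fin 2) ℝ) (hJ : J.trace = 0) (g : SL(2, ℝ))
    (h : J * mt g = mt g⁻¹ * J) : (mt g * J).trace = 0 := by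
  have h1 := polar_CH J (mt g) hJ
  have h2 : J * mt g + mt g * J = (mt g).trace • J := by
    rw [h, mt_inv, Matrix.sub_mul, Matrix.smul_mul, Matrix.one_mul]; abel
  rw [h2, eq_comm, add_eq_left] at h1
  have h3 := congrFun (congrFun h1 0) 0
  simp only [Matrix.smul_apply, Matrix.one_apply_eq, smul_eq_mul, mul_one, Matrix.zero_apply] at h3
  rw [Matrix.trace_mul_comm]; exact h3

/-- Existence of an anti-invariant cocycle that is not a coboundary. -/
theorem exists_cocycle (ρ : SurfGrp →* SL(2, ℝ)) (J : Matrix (Fin 2) (Fin 2) ℝ)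
    (hJ : J.trace = 0) (hJd : J.det ^ 2 = 1)
    (hint : ∀ γ, J * mt (ρ γ) = mt (ρ (iotaHom γ)) * J) :
    ∃ u : SurfGrp → R7, (∀ γ δ, u (γ * δ) = u γ + T (mt (ρ γ)) (u δ)) ∧
      (∀ γ, u (iotaHom γ) = -(J.det • T J (u γ))) ∧
      ∀ w : R7, ∃ γ, u γ ≠ w - T (mt (ρ γ)) w := by
  have hJx : ∀ i, J * mt (ρ (xg i)) = mt (ρ (xg i))⁻¹ * J := by
    intro i
    have := hint (xg i)
    rwa [iotaHom_xg, map_inv] at this
  set p : SurfGrp := xg 0 * xg 1 * xg 2 * xg 3 with hp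
  have hip : iotaHom p = p⁻¹ := by
    rw [hp, map_mul, map_mul, map_mul, iotaHom_xg, iotaHom_xg, iotaHom_xg, iotaHom_xg, xg_relation]
    group
  have hJp : J * mt (ρ p) = mt (ρ p)⁻¹ * J := by
    have := hint p
    rwa [hip, map_inv] at this
  obtain ⟨u, hu1, hu2, hu3⟩ := dim_count (fun i => mt (ρ (xg i))) (fun i => mt (ρ (xg i)) * J)
    (mt (ρ p) * J)
    (fun i => trace_mul_J J hJ _ (hJx i)) (fun i => by rw [Matrix.det_mul, det_mt, one_mul, hJd])
    (trace_mul_J J hJ _ hJp) (by rw [Matrix.det_mul, det_mt, one_mul, hJd])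
  simp only [Matrix.det_mul, det_mt, one_mul] at hu1 hu2
  -- the key relation at each generator
  have hk : ∀ i, J.det • T J (u i) = T (mt (ρ (xg i))⁻¹) (u i) := by
    intro i
    calc J.det • T J (u i) = J.det • T (mt (ρ (xg i))⁻¹ * (mt (ρ (xg i)) * J)) (u i) := by
          rw [← Matrix.mul_assoc, mt_inv_mul, Matrix.one_mul]
      _ = T (mt (ρ (xg i))⁻¹) (J.det • T (mt (ρ (xg i)) * J) (u i)) := by
          rw [T_mul, map_smul]
      _ = _ := by rw [hu1]
  let ξ : Fin 4 → Aff := fun i => ⟨u i, ρ (xg i)⟩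
  have hE : EE (fun i => mt (ρ (xg i))) u =
      u 0 + T (mt (ρ (xg 0))) (u 1) + T (mt (ρ (xg 0)) * mt (ρ (xg 1))) (u 2) +
        T (mt (ρ (xg 0)) * mt (ρ (xg 1)) * mt (ρ (xg 2))) (u 3) := rfl
  have hrel : ξ 0 * ξ 1 * ξ 2 * ξ 3 = ξ 3 * ξ 2 * ξ 1 * ξ 0 := by
    apply Aff.ext'
    · simp only [mul_v, mul_g, mt_mul]
      show u 0 + T (mt (ρ (xg 0))) (u 1) + T (mt (ρ (xg 0)) * mt (ρ (xg 1))) (u 2) +
        T (mt (ρ (xg 0)) * mt (ρ (xg 1)) * mt (ρ (xg 2))) (u 3) =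
        u 3 + T (mt (ρ (xg 3))) (u 2) + T (mt (ρ (xg 3)) * mt (ρ (xg 2))) (u 1) +
        T (mt (ρ (xg 3)) * mt (ρ (xg 2)) * mt (ρ (xg 1))) (u 0)
      rw [← hE, ← hu2, hE]
      have hJ2 : ∀ g h : SL(2, ℝ), J * mt g = mt g⁻¹ * J → J * mt h = mt h⁻¹ * J →
          J * mt (g * h) = mt (g⁻¹ * h⁻¹) * J := by
        intro g h hg hh
        rw [mt_mul, mt_mul, ← Matrix.mul_assoc, hg, Matrix.mul_assoc, hh, Matrix.mul_assoc]
      have hJ3 : ∀ g h k : SL(2, ℝ), J * mt g = mt g⁻¹ * J → J * mt h = mt h⁻¹ * J →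
          J * mt k = mt k⁻¹ * J → J * mt (g * h * k) = mt (g⁻¹ * h⁻¹ * k⁻¹) * J := by
        intro g h k hg hh hk'
        rw [mt_mul (g * h), mt_mul (g⁻¹ * h⁻¹), ← Matrix.mul_assoc, hJ2 g h hg hh,
          Matrix.mul_assoc, hk', Matrix.mul_assoc]
      have key : ∀ (g g' : SL(2, ℝ)) (i : Fin 4), J * mt g = mt g' * J →
          J.det • T (mt (ρ p) * J) (T (mt g) (u i)) = T (mt (ρ p * g' * (ρ (xg i))⁻¹)) (u i) := by
        intro g g' i hgg
        calc J.det • T (mt (ρ p) * J) (T (mt g) (u i))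
            = J.det • T (mt (ρ p) * mt g' * J) (u i) := by
              rw [← T_mul, Matrix.mul_assoc, hgg, Matrix.mul_assoc]
          _ = T (mt (ρ p) * mt g') (J.det • T J (u i)) := by rw [T_mul, map_smul]
          _ = _ := by rw [hk, ← T_mul, mt_mul, mt_mul]
      have hpe : ρ p = ρ (xg 3) * ρ (xg 2) * ρ (xg 1) * ρ (xg 0) := by
        rw [hp, xg_relation]; simp only [map_mul]
      have t0 : J.det • T (mt (ρ p) * J) (u 0) =
          T (mt (ρ (xg 3)) * mt (ρ (xg 2)) * mt (ρ (xg 1))) (u 0) := by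
        have := key 1 1 0 (by rw [mt_one]; simp)
        rw [mt_one, T_one] at this
        rw [this, hpe, ← mt_mul, ← mt_mul]
        congr 3; group
      have t1 : J.det • T (mt (ρ p) * J) (T (mt (ρ (xg 0))) (u 1)) =
          T (mt (ρ (xg 3)) * mt (ρ (xg 2))) (u 1) := by
        rw [key _ _ 1 (hJx 0), hpe, ← mt_mul]
        congr 3; group
      have t2 : J.det • T (mt (ρ p) * J) (T (mt (ρ (xg 0)) * mt (ρ (xg 1))) (u 2)) =
          T (mt (ρ (xg 3))) (u 2) := by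
        rw [← mt_mul, key _ _ 2 (hJ2 _ _ (hJx 0) (hJx 1)), hpe]
        congr 3; group
      have t3 : J.det • T (mt (ρ p) * J) (T (mt (ρ (xg 0)) * mt (ρ (xg 1)) * mt (ρ (xg 2))) (u 3)) =
          u 3 := by
        rw [← mt_mul, ← mt_mul, key _ _ 3 (hJ3 _ _ _ (hJx 0) (hJx 1) (hJx 2)), hpe]
        have : ρ (xg 3) * ρ (xg 2) * ρ (xg 1) * ρ (xg 0) *
          ((ρ (xg 0))⁻¹ * (ρ (xg 1))⁻¹ * (ρ (xg 2))⁻¹) * (ρ (xg 3))⁻¹ = 1 := by group
        rw [this, mt_one, T_one]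
      rw [map_add, map_add, map_add, smul_add, smul_add, smul_add, t0, t1, t2, t3]
      abel
    · exact rho_relation ρ
  let σ : SurfGrp →* Aff := hexHom ξ hrel
  have hσg : ∀ γ, (σ γ).g = ρ γ := by
    intro γ
    have : gHom.comp σ = ρ := by
      apply hom_ext_xg
      intro i
      show (σ (xg i)).g = ρ (xg i)
      rw [hexHom_xg]
    exact DFunLike.congr_fun this γ
  have hσx : ∀ i, (σ (xg i)).v = u i := by
    intro i
    rw [hexHom_xg]
  have hcoc : ∀ γ δ, (σ (γ * δ)).v = (σ γ).v + T (mt (ρ γ)) (σ δ).v := by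
    intro γ δ
    rw [map_mul, mul_v, hσg]
  have hinv : ∀ γ, (σ γ⁻¹).v = -T (mt (ρ γ)⁻¹) (σ γ).v := by
    intro γ
    rw [map_inv]
    show -T (mt (σ γ).g⁻¹) (σ γ).v = _
    rw [hσg]
  have hanti : ∀ γ, (σ (iotaHom γ)).v = -(J.det • T J (σ γ).v) := by
    intro γ
    induction γ using xg_induction with
    | h1 =>
      rw [map_one, map_one]
      show (0 : R7) = -(J.det • T J (0 : R7))
      rw [map_zero, smul_zero, neg_zero]
    | hx i =>
      rw [iotaHom_xg, hinv, hσx, hk]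
    | hmul a b ha hb =>
      rw [map_mul, hcoc, ha, hb, hcoc, map_neg, map_smul, ← T_mul, ← hint, T_mul, map_add, smul_add,
        neg_add]
    | hinv a ha =>
      have h1 := hint a⁻¹
      rw [map_inv, map_inv, map_inv] at h1
      rw [map_inv, hinv, ha, hinv, map_neg, map_smul, ← T_mul, ← h1, T_mul, map_neg, smul_neg]
  refine ⟨fun γ => (σ γ).v, hcoc, hanti, ?_⟩
  · intro w
    by_contra hcon
    push Not at hcon
    apply hu3 w
    funext i
    rw [CC_apply, ← hcon (xg i), hσx]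

end Pool.Agent.MP_dd334f_gt
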