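import Pool.Agent.Lib.MP_dd334f_gt.DetExp
import Pool.Agent.Lib.MP_dd334f_gt.Sym3
import Pool.Agent.Lib.MP_dd334f_gt.Group

open Matrix
open scoped MatrixGroups

namespace Pool.Agent.MP_dd334f_gt

/-! ### The Lie algebra, the exponential chart and the adjoint action -/

/-- The Lie algebra `sl(n, ℝ)` of real trace-zero matrices. -/
abbrev sl (n : ℕ) := LieAlgebra.SpecialLinear.sl (Fin n) ℝ

theorem mem_sl {n : ℕ} {X : Matrix (Fin n) (Fin n) ℝ} : X ∈ sl n ↔ X.trace = 0 := Iff.rfl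

theorem trace_sl {n : ℕ} (X : sl n) : (X : Matrix (Fin n) (Fin n) ℝ).trace = 0 := mem_sl.mp X.2

/-- The exponential map `sl(n, ℝ) → SL(n, ℝ)`. -/
noncomputable def expSL {n : ℕ} (X : sl n) : SL(n, ℝ) :=
  ⟨NormedSpace.exp (X : Matrix (Fin n) (Fin n) ℝ), det_exp_of_trace_eq_zero _ (trace_sl X)⟩

theorem trace_conj {n : ℕ} (g : SL(n, ℝ)) (X : Matrix (Fin n) (Fin n) ℝ) :
    ((g : Matrix (Fin n) (Fin n) ℝ) * X * ((g⁻¹ : SL(n, ℝ)) : Matrix (Fin n) (Fin n) ℝ)).trace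
      = X.trace := by
  rw [Matrix.trace_mul_comm, ← mul_assoc, ← Matrix.SpecialLinearGroup.coe_mul, inv_mul_cancel,
    Matrix.SpecialLinearGroup.coe_one, one_mul]

/-- The adjoint action `X ↦ g X g⁻¹` of `SL(n, ℝ)` on `sl(n, ℝ)`. -/
def adSL {n : ℕ} : SL(n, ℝ) →* Module.End ℝ (sl n) where
  toFun g :=
    { toFun := fun X => ⟨(g : Matrix (Fin n) (Fin n) ℝ) * X *
        ((g⁻¹ : SL(n, ℝ)) : Matrix (Fin n) (Fin n) ℝ), by
          rw [mem_sl, trace_conj]; exact X.2⟩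
      map_add' := fun X Y => by
        apply Subtype.ext
        simp [mul_add, add_mul]
      map_smul' := fun t X => by
        apply Subtype.ext
        simp }
  map_one' := by
    ext1 X
    apply Subtype.ext
    simp
  map_mul' g h := by
    ext1 X
    apply Subtype.ext
    simp [mul_assoc]

theorem coe_adSL {n : ℕ} (g : SL(n, ℝ)) (X : sl n) :
    ((adSL g X : sl n) : Matrix (Fin n) (Fin n) ℝ) =
      (g : Matrix (Fin n) (Fin n) ℝ) * X * ((g⁻¹ : SL(n, ℝ)) : Matrix (Fin n) (Fin n) ℝ) := rfl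

theorem adSL_center {n : ℕ} (g : SL(n, ℝ)) (hg : g ∈ Subgroup.center SL(n, ℝ)) :
    adSL g = 1 := by
  obtain ⟨r, -, hr⟩ := Matrix.SpecialLinearGroup.mem_center_iff.mp hg
  refine LinearMap.ext fun X => Subtype.ext ?_
  have h1 : (g : Matrix (Fin n) (Fin n) ℝ) * (X : Matrix (Fin n) (Fin n) ℝ)
      = (X : Matrix (Fin n) (Fin n) ℝ) * g := by
    rw [← hr]
    exact (Matrix.scalar_commute r (Commute.all r) _).eq
  have h2 : (g : Matrix (Fin n) (Fin n) ℝ) * ((g⁻¹ : SL(n, ℝ)) : Matrix (Fin n) (Fin n) ℝ) = 1 := by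
    rw [← Matrix.SpecialLinearGroup.coe_mul, mul_inv_cancel, Matrix.SpecialLinearGroup.coe_one]
  rw [coe_adSL, h1, mul_assoc, h2, mul_one]
  rfl

/-- The adjoint action of `PSL(n, ℝ)` on `sl(n, ℝ)`. -/
def Ad {n : ℕ} : PSL(n, ℝ) →* Module.End ℝ (sl n) :=
  QuotientGroup.lift (Subgroup.center SL(n, ℝ)) adSL adSL_center

theorem Ad_mk {n : ℕ} (g : SL(n, ℝ)) : Ad (QuotientGroup.mk g : PSL(n, ℝ)) = adSL g := rfl

/-! ### Differentiable class functions -/

/-- A differentiable class function on `PSL(n, ℝ)`: a function invariant under conjugation and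
differentiable at every `g` in the exponential chart `X ↦ exp(X) g`, `X ∈ sl(n, ℝ)`. -/
structure DiffClassFn (n : ℕ) where
  /-- the underlying function -/
  toFun : PSL(n, ℝ) → ℝ
  conj_inv : ∀ g h : PSL(n, ℝ), toFun (h * g * h⁻¹) = toFun g
  diff : ∀ g : PSL(n, ℝ),
    DifferentiableAt ℝ (fun X : sl n => toFun (QuotientGroup.mk (expSL X) * g)) 0

/-- The derivative of `f` at `g`, as a linear form on `sl(n, ℝ)`: the derivative at `X = 0` of
`X ↦ f (exp(X) g)`. -/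
noncomputable def DiffClassFn.deriv {n : ℕ} (f : DiffClassFn n) (g : PSL(n, ℝ)) : sl n →L[ℝ] ℝ :=
  fderiv ℝ (fun X : sl n => f.toFun (QuotientGroup.mk (expSL X) * g)) 0

theorem expSL_adSL {n : ℕ} (h : SL(n, ℝ)) (X : sl n) :
    expSL (adSL h X) = h * expSL X * h⁻¹ := by
  apply Subtype.ext
  have hu1 : (h : Matrix (Fin n) (Fin n) ℝ) * ((h⁻¹ : SL(n, ℝ)) : Matrix (Fin n) (Fin n) ℝ) = 1 := by
    rw [← Matrix.SpecialLinearGroup.coe_mul, mul_inv_cancel, Matrix.SpecialLinearGroup.coe_one]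
  have hu2 : ((h⁻¹ : SL(n, ℝ)) : Matrix (Fin n) (Fin n) ℝ) * (h : Matrix (Fin n) (Fin n) ℝ) = 1 := by
    rw [← Matrix.SpecialLinearGroup.coe_mul, inv_mul_cancel, Matrix.SpecialLinearGroup.coe_one]
  have := Matrix.exp_units_conj (⟨(h : Matrix (Fin n) (Fin n) ℝ),
    ((h⁻¹ : SL(n, ℝ)) : Matrix (Fin n) (Fin n) ℝ), hu1, hu2⟩ : (Matrix (Fin n) (Fin n) ℝ)ˣ)
    (X : Matrix (Fin n) (Fin n) ℝ)
  rw [Matrix.SpecialLinearGroup.coe_mul, Matrix.SpecialLinearGroup.coe_mul]
  exact this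

/-- The class function property in the exponential chart. -/
theorem DiffClassFn.chart_conj {n : ℕ} (f : DiffClassFn n) (g h : PSL(n, ℝ)) (X : sl n) :
    f.toFun (QuotientGroup.mk (expSL (Ad h X)) * (h * g * h⁻¹)) =
      f.toFun (QuotientGroup.mk (expSL X) * g) := by
  obtain ⟨h, rfl⟩ := QuotientGroup.mk_surjective h
  rw [Ad_mk, expSL_adSL, QuotientGroup.mk_mul, QuotientGroup.mk_mul, QuotientGroup.mk_inv,
    ← f.conj_inv (QuotientGroup.mk (expSL X) * g) (QuotientGroup.mk h)]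
  congr 1
  group

section
attribute [local instance] Matrix.normedAddCommGroup Matrix.normedSpace
attribute [local instance 100] LieRing.ofAssociativeRing

/-- Auxiliary norm on `sl(n, ℝ)`, used only in proofs. -/
@[instance_reducible]
noncomputable def slNorm (n : ℕ) : NormedAddCommGroup (sl n) :=
  inferInstanceAs (NormedAddCommGroup (sl n).toSubmodule)

attribute [local instance] slNorm

/-- Auxiliary normed space structure on `sl(n, ℝ)`, used only in proofs. -/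
@[instance_reducible]
noncomputable def slNormedSpace (n : ℕ) : NormedSpace ℝ (sl n) :=
  inferInstanceAs (NormedSpace ℝ (sl n).toSubmodule)

attribute [local instance] slNormedSpace

theorem slTopAddGroup (n : ℕ) : IsTopologicalAddGroup (sl n) :=
  inferInstanceAs (IsTopologicalAddGroup (sl n).toSubmodule)

attribute [local instance] slTopAddGroup

theorem DiffClassFn.deriv_conj {n : ℕ} (f : DiffClassFn n) (g h : PSL(n, ℝ)) (X : sl n) :
    f.deriv (h * g * h⁻¹) (Ad h X) = f.deriv g X := by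
  have hG := (f.diff (h * g * h⁻¹)).hasFDerivAt
  have hF := (f.diff g).hasFDerivAt
  have hA : HasFDerivAt (fun X : sl n => Ad h X) (LinearMap.toContinuousLinearMap (Ad h)) 0 :=
    (LinearMap.toContinuousLinearMap (Ad h)).hasFDerivAt
  have hG' : HasFDerivAt (fun X : sl n => f.toFun (QuotientGroup.mk (expSL X) * (h * g * h⁻¹)))
      (f.deriv (h * g * h⁻¹)) (Ad h 0) := by
    rw [map_zero]; exact hG
  have hcomp := hG'.comp (0 : sl n) hA
  have heq : (fun X : sl n => f.toFun (QuotientGroup.mk (expSL X) * (h * g * h⁻¹))) ∘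
      (fun X : sl n => Ad h X) = fun X : sl n => f.toFun (QuotientGroup.mk (expSL X) * g) := by
    funext X
    exact f.chart_conj g h X
  rw [heq] at hcomp
  have := hcomp.unique hF
  have h2 := congrArg (fun L : sl n →L[ℝ] ℝ => L X) this
  exact h2

end

theorem DiffClassFn.deriv_Ad_self {n : ℕ} (f : DiffClassFn n) (g : PSL(n, ℝ)) (X : sl n) :
    f.deriv g (Ad g X) = f.deriv g X := by
  have := f.deriv_conj g g X
  rwa [mul_inv_cancel_right] at this

/-! ### Cocycles and the cotangent space -/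

/-- The cocycles `Z¹(π, sl(n, ℝ)_{Ad ρ})`. -/
def Z1 {n : ℕ} (ρ : SurfGrp →* PSL(n, ℝ)) : Submodule ℝ (SurfGrp → sl n) where
  carrier := {u | ∀ γ δ, u (γ * δ) = u γ + Ad (ρ γ) (u δ)}
  add_mem' := by
    intro u v hu hv γ δ
    simp only [Pi.add_apply, hu γ δ, hv γ δ, map_add]
    abel
  zero_mem' := by
    intro γ δ
    simp
  smul_mem' := by
    intro t u hu γ δ
    simp only [Pi.smul_apply, hu γ δ, map_smul, smul_add]

/-- The coboundary map `w ↦ (γ ↦ w - Ad(ρ γ) w)`. -/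
def coboundary {n : ℕ} (ρ : SurfGrp →* PSL(n, ℝ)) : sl n →ₗ[ℝ] Z1 ρ where
  toFun w := ⟨fun γ => w - Ad (ρ γ) w, by
    intro γ δ
    simp only [map_mul, map_sub, Module.End.mul_apply]
    abel⟩
  map_add' := by
    intro v w
    apply Subtype.ext
    funext γ
    simp only [map_add, Submodule.coe_add, Pi.add_apply]
    abel
  map_smul' := by
    intro t w
    apply Subtype.ext
    funext γ
    simp [smul_sub]

/-- The coboundaries `B¹(π, sl(n, ℝ)_{Ad ρ})`. -/
def B1 {n : ℕ} (ρ : SurfGrp →* PSL(n, ℝ)) : Submodule ℝ (Z1 ρ) := LinearMap.range (coboundary ρ)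

/-- The first cohomology `H¹(π, sl(n, ℝ)_{Ad ρ}) = Z¹ / B¹`, the tangent space at `[ρ]` of the
character variety (and, at a Hitchin point, of the Hitchin component). -/
abbrev H1 {n : ℕ} (ρ : SurfGrp →* PSL(n, ℝ)) : Type := Z1 ρ ⧸ B1 ρ

/-- The linear form `u ↦ D_{ρ(γ)} f (u(γ))` on cocycles: the derivative at `t = 0` of
`f (ρ_t(γ))` when `ρ_t(γ) = exp(t u(γ) + o(t)) ρ(γ)`. -/
noncomputable def preDifferential {n : ℕ} (f : DiffClassFn n) (ρ : SurfGrp →* PSL(n, ℝ))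
    (γ : SurfGrp) : Z1 ρ →ₗ[ℝ] ℝ :=
  (f.deriv (ρ γ)).toLinearMap ∘ₗ (LinearMap.proj γ) ∘ₗ (Z1 ρ).subtype

theorem preDifferential_apply {n : ℕ} (f : DiffClassFn n) (ρ : SurfGrp →* PSL(n, ℝ))
    (γ : SurfGrp) (u : Z1 ρ) :
    preDifferential f ρ γ u = f.deriv (ρ γ) ((u : SurfGrp → sl n) γ) := rfl

theorem B1_le_ker {n : ℕ} (f : DiffClassFn n) (ρ : SurfGrp →* PSL(n, ℝ)) (γ : SurfGrp) :
    B1 ρ ≤ LinearMap.ker (preDifferential f ρ γ) := by
  rintro _ ⟨w, rfl⟩
  rw [LinearMap.mem_ker, preDifferential_apply]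
  show f.deriv (ρ γ) (w - Ad (ρ γ) w) = 0
  rw [map_sub, f.deriv_Ad_self, sub_self]

/-- The differential of `f_γ : [ρ] ↦ f (ρ(γ))` at `[ρ]`, an element of the cotangent space
`H¹(π, sl(n, ℝ)_{Ad ρ})^*`. -/
noncomputable def differential {n : ℕ} (f : DiffClassFn n) (ρ : SurfGrp →* PSL(n, ℝ))
    (γ : SurfGrp) : Module.Dual ℝ (H1 ρ) :=
  (B1 ρ).liftQ (preDifferential f ρ γ) (B1_le_ker f ρ γ)

/-! ### The character variety and the Hitchin component -/

/-- Two representations are equivalent when they are conjugate by an element of `PSL(n, ℝ)`. -/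
def conjSetoid (n : ℕ) : Setoid (SurfGrp →* PSL(n, ℝ)) where
  r ρ σ := ∃ h : PSL(n, ℝ), ∀ γ, σ γ = h * ρ γ * h⁻¹
  iseqv :=
    { refl := fun ρ => ⟨1, fun γ => by simp⟩
      symm := by
        rintro ρ σ ⟨h, hh⟩
        exact ⟨h⁻¹, fun γ => by rw [hh γ]; group⟩
      trans := by
        rintro ρ σ τ ⟨h, hh⟩ ⟨k, hk⟩
        exact ⟨k * h, fun γ => by rw [hk γ, hh γ]; group⟩ }

/-- The topology of pointwise convergence on `Hom(π, PSL(n, ℝ))`. -/
@[reducible]
def homTopology (n : ℕ) : TopologicalSpace (SurfGrp →* PSL(n, ℝ)) :=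
  TopologicalSpace.induced (fun ρ : SurfGrp →* PSL(n, ℝ) => (ρ : SurfGrp → PSL(n, ℝ)))
    inferInstance

/-- The quotient space `Hom(π, PSL(n, ℝ)) / PSL(n, ℝ)`. -/
def CharSpace (n : ℕ) : Type := Quotient (conjSetoid n)

/-- The quotient topology on `Hom(π, PSL(n, ℝ)) / PSL(n, ℝ)`. -/
instance (n : ℕ) : TopologicalSpace (CharSpace n) :=
  (homTopology n).coinduced (Quotient.mk (conjSetoid n))

/-- The class `[ρ]` of a representation. -/
def repClass {n : ℕ} (ρ : SurfGrp →* PSL(n, ℝ)) : CharSpace n := Quotient.mk (conjSetoid n) ρ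

/-- The composition of `ρt : π → SL(2, ℝ)` with the quotient map `SL(2, ℝ) → PSL(2, ℝ)`. -/
def proj2 (ρt : SurfGrp →* SL(2, ℝ)) : SurfGrp →* PSL(2, ℝ) :=
  (QuotientGroup.mk' (Subgroup.center SL(2, ℝ))).comp ρt

/-- `ρ₀ : π → PSL(2, ℝ)` is discrete and faithful. -/
structure IsDiscreteFaithful (ρ₀ : SurfGrp →* PSL(2, ℝ)) : Prop where
  injective : Function.Injective ρ₀
  discrete : DiscreteTopology ρ₀.range

/-- The Hitchin component: the connected component of `Hom(π, PSL(4, ℝ)) / PSL(4, ℝ)` containing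
the class of `ι₄ ∘ ρ₀`. -/
def hitchinComponent (ρ₀ : SurfGrp →* PSL(2, ℝ)) : Set (CharSpace 4) :=
  connectedComponent (repClass (irrPSL.comp ρ₀))

/-- The differentials `d f_γ` at `[ρ]`, for `f ∈ F` and `γ` simple, generate the cotangent space
`H¹(π, sl(n, ℝ)_{Ad ρ})^*` as a vector space. -/
def SpansAt {n : ℕ} (F : Set (DiffClassFn n)) (ρ : SurfGrp →* PSL(n, ℝ)) : Prop :=
  Submodule.span ℝ {ℓ : Module.Dual ℝ (H1 ρ) |
    ∃ f ∈ F, ∃ γ : SurfGrp, IsSimple γ ∧ ℓ = differential f ρ γ} = ⊤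

/-- The spanning property of the family `F` on the Hitchin component of `ι₄ ∘ ρ₀`. -/
def HasSpanningProperty (F : Set (DiffClassFn 4)) (ρ₀ : SurfGrp →* PSL(2, ℝ)) : Prop :=
  ∀ ρ : SurfGrp →* PSL(4, ℝ), repClass ρ ∈ hitchinComponent ρ₀ → SpansAt F ρ

end Pool.Agent.MP_dd334f_gt
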