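import Mathlib

open Matrix NormedSpace

namespace Pool.Agent.MP_dd334f_gt

section
variable {n : ℕ}

attribute [local instance] Matrix.linftyOpNormedRing Matrix.linftyOpNormedAlgebra

theorem differentiable_det : Differentiable ℝ (fun M : Matrix (Fin n) (Fin n) ℝ => M.det) := by
  simp only [Matrix.det_apply]
  have h : ∀ i j : Fin n, Differentiable ℝ (fun M : Matrix (Fin n) (Fin n) ℝ => M i j) := by
    intro i j
    exact (LinearMap.toContinuousLinearMap (Matrix.entryLinearMap ℝ ℝ i j)).differentiable
  fun_prop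

theorem hasDerivAt_det_exp (X : Matrix (Fin n) (Fin n) ℝ) :
    HasDerivAt (fun t : ℝ => (exp (t • X)).det) X.trace 0 := by
  have hd := (differentiable_det (n := n) 1).hasFDerivAt
  set L := fderiv ℝ (fun M : Matrix (Fin n) (Fin n) ℝ => M.det) 1 with hL
  -- the derivative along the line
  have h1 : HasDerivAt (fun t : ℝ => (1 + t • X).det) (L X) 0 := by
    have hline : HasDerivAt (fun t : ℝ => (1 : Matrix (Fin n) (Fin n) ℝ) + t • X) X 0 := by
      have := ((hasDerivAt_id (0 : ℝ)).smul_const X).const_add (1 : Matrix (Fin n) (Fin n) ℝ)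
      rw [one_smul] at this
      exact this
    have hd' : HasFDerivAt (fun M : Matrix (Fin n) (Fin n) ℝ => M.det) L
        ((1 : Matrix (Fin n) (Fin n) ℝ) + (0 : ℝ) • X) := by
      rw [zero_smul, add_zero]; exact hd
    exact hd'.comp_hasDerivAt (0 : ℝ) hline
  have h2 : HasDerivAt (fun t : ℝ => (1 + t • X).det) X.trace 0 := by
    set p := ((1 + (Polynomial.X : Polynomial ℝ) • X.map Polynomial.C).det).divX.divX with hp0
    have hfun : (fun t : ℝ => (1 + t • X).det) = fun t : ℝ => 1 + X.trace * t + p.eval t * t ^ 2 := by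
      funext t
      exact Matrix.det_one_add_smul t X
    rw [hfun]
    have hp : HasDerivAt (fun t : ℝ => p.eval t) (p.derivative.eval 0) 0 := p.hasDerivAt 0
    have := (((hasDerivAt_id (0 : ℝ)).const_mul X.trace).const_add 1).add
      (hp.mul ((hasDerivAt_id (0 : ℝ)).pow 2))
    have hval : X.trace * 1 +
        (Polynomial.eval 0 (Polynomial.derivative p) * ((id : ℝ → ℝ) ^ 2) 0 +
          Polynomial.eval 0 p * (((2 : ℕ) : ℝ) * id (0 : ℝ) ^ (2 - 1) * 1)) = X.trace := by
      simp
    rw [hval] at this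
    exact this
  have hLX : L X = X.trace := h1.unique h2
  have h3 := hasDerivAt_exp_smul_const (𝕂 := ℝ) X (0 : ℝ)
  rw [zero_smul, exp_zero, one_mul] at h3
  have hd'' : HasFDerivAt (fun M : Matrix (Fin n) (Fin n) ℝ => M.det) L
      (exp ((0 : ℝ) • X)) := by rw [zero_smul, exp_zero]; exact hd
  have h4 : HasDerivAt (fun t : ℝ => (exp (t • X)).det) (L X) 0 := 
    hd''.comp_hasDerivAt (0 : ℝ) h3
  rw [← hLX]
  exact h4

end

theorem det_exp_smul_of_trace_eq_zero {n : ℕ} (X : Matrix (Fin n) (Fin n) ℝ)
    (hX : X.trace = 0) (t : ℝ) : (exp (t • X)).det = 1 := by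
  set φ : ℝ → ℝ := fun t => (exp (t • X)).det with hφ
  have hadd : ∀ s t : ℝ, φ (s + t) = φ s * φ t := by
    intro s t
    simp only [hφ, add_smul]
    rw [Matrix.exp_add_of_commute _ _ (Commute.smul_left (Commute.smul_right (Commute.refl X) t) s),
      Matrix.det_mul]
  have h0 : φ 0 = 1 := by simp [hφ]
  have hder : ∀ s : ℝ, HasDerivAt φ 0 s := by
    intro s
    have h1 : HasDerivAt φ 0 0 := by
      have := hasDerivAt_det_exp X
      rwa [hX] at this
    have h2 : HasDerivAt (fun u : ℝ => φ (u - s)) 0 s := by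
      have h1' : HasDerivAt φ 0 (s - s) := by simpa using h1
      simpa using h1'.comp_sub_const s s
    have h3 : HasDerivAt (fun u : ℝ => φ s * φ (u - s)) (φ s * 0) s := h2.const_mul _
    have h4 : (fun u : ℝ => φ s * φ (u - s)) = φ := by
      funext u
      rw [← hadd]; congr 1; ring
    rw [h4] at h3
    simpa using h3
  have hconst := is_const_of_deriv_eq_zero (f := φ) (fun s => (hder s).differentiableAt)
    (fun s => (hder s).deriv) t 0
  rw [h0] at hconst
  exact hconst

/-- The exponential of a trace-zero real matrix has determinant one. -/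
theorem det_exp_of_trace_eq_zero {n : ℕ} (X : Matrix (Fin n) (Fin n) ℝ)
    (hX : X.trace = 0) : (exp X).det = 1 := by
  simpa using det_exp_smul_of_trace_eq_zero X hX 1

end Pool.Agent.MP_dd334f_gt
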