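import Pool.Agent.Lib.MP_dd334f_gt.Letters

open Matrix
open scoped MatrixGroups

namespace Pool.Agent.MP_dd334f_gt

theorem det_entries (g : SL(2, ℝ)) : mt g 0 0 * mt g 1 1 - mt g 0 1 * mt g 1 0 = 1 := by
  rw [← Matrix.det_fin_two]; exact g.2

theorem mt_inv_entries (g : SL(2, ℝ)) :
    mt g⁻¹ = !![mt g 1 1, -(mt g 0 1); -(mt g 1 0), mt g 0 0] := by
  rw [mt, Matrix.SpecialLinearGroup.coe_inv]
  exact Matrix.adjugate_fin_two _

theorem kk_mem (m : Fin 4) : kk m ∈ SA := by
  fin_cases m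
  · exact SA.one_mem
  · exact SA.inv_mem gA_mem
  · exact SA.mul_mem (SA.inv_mem gB_mem) (SA.inv_mem gA_mem)
  · exact SA.mul_mem (SA.mul_mem gA_mem (SA.inv_mem gB_mem)) (SA.inv_mem gA_mem)

theorem rhoS_kk2 : mt (rhoS (kk 2)) = !![-1, 5; -1, 4] := by
  show mt (rhoS (gB⁻¹ * gA⁻¹)) = _
  have hA : mt (rhoS gA⁻¹) = !![3 / 2, -5; 2, -6] := lm_2
  have hB : mt (rhoS gB⁻¹) = !![-4, 5 / 2; -2, 1] := lm_3
  rw [map_mul, Aff.mt_mul, hA, hB]
  ext i j
  fin_cases i <;> fin_cases j <;> norm_num [Matrix.mul_apply, Fin.sum_univ_two]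

/-- Lower bound for the letters: the collar estimate. -/
theorem lettA_bound (α : SurfGrp) (h : α ∈ SA) (hz : α ∉ ZZ) :
    mt (rhoS α) 0 0 * mt (rhoS α) 1 1 ≤ -1 / 15 := by
  obtain ⟨σ, p, q, r, t, hσ, hp, hq, hr, ht, hM⟩ := lettA α h hz
  have hσ2 : σ ^ 2 = 1 := by rcases hσ with rfl | rfl <;> norm_num
  have h00 : mt (rhoS α) 0 0 = σ * p := by rw [hM]; simp
  have h01 : mt (rhoS α) 0 1 = -(σ * q) := by rw [hM]; simp [sg]
  have h10 : mt (rhoS α) 1 0 = σ * r := by rw [hM]; simp [sg]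
  have h11 : mt (rhoS α) 1 1 = -(σ * t) := by rw [hM]; simp [sg]
  have hdet := det_entries (rhoS α)
  rw [h00, h01, h10, h11] at hdet
  have hdet2 : q * r - p * t = 1 := by
    have : (q * r - p * t) * σ ^ 2 = 1 := by linear_combination hdet
    rwa [hσ2, mul_one] at this
  rw [h00, h11]
  have hgoal : σ * p * -(σ * t) = -(p * t) := by
    linear_combination (-(p * t)) * hσ2
  rw [hgoal]
  by_contra hcon
  push Not at hcon
  have hpt : p * t < 1 / 15 := by linarith
  have h16 : 16 * (p * t) < q * r := by linarith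
  obtain ⟨n, hn1, hn2⟩ := exists_mem_Ioc_zpow (div_pos hp hr) (by norm_num : (1 : ℝ) < 16)
  set y : ℝ := 16 ^ (n + 1) with hy
  have hy1 : p ≤ y * r := by rwa [div_le_iff₀ hr] at hn2
  have hy2 : y * t < q := by
    have h1 : (16 : ℝ) ^ n * r < p := by rwa [lt_div_iff₀ hr] at hn1
    have h2 : y = 16 ^ n * 16 := by rw [hy, zpow_add_one₀ (by norm_num)]
    have h3 : y * t * r < q * r := by
      calc y * t * r = 16 * (16 ^ n * r * t) := by rw [h2]; ring
        _ ≤ 16 * (p * t) := by
          apply mul_le_mul_of_nonneg_left _ (by norm_num)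
          exact mul_le_mul_of_nonneg_right h1.le ht.le
        _ < q * r := h16
    exact lt_of_mul_lt_mul_right h3 hr.le
  -- the vector `w`
  set k : ℤ := n + 1 with hk
  set c : ℝ := (-4) ^ k with hc
  have hc0 : c ≠ 0 := zpow_ne_zero _ (by norm_num)
  set β : SurfGrp := α⁻¹ * gz ^ k * kk 2 with hβ
  have hβmem : β ∈ SA :=
    SA.mul_mem (SA.mul_mem (SA.inv_mem h) (SA.zpow_mem gz_mem_SA k)) (kk_mem 2)
  have hv' : (mt (rhoS (kk 2))).mulVec ![-1, 0] = ![1, 1] := by
    rw [rhoS_kk2, mv2]; simp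
  have hzk : (mt (rhoS (gz ^ k))).mulVec ![1, 1] = ![(-4) ^ k, (-1 / 4) ^ k] := by
    rw [rhoS_zpow, mv2]; simp
  have hβv : (mt (rhoS β)).mulVec ![-1, 0] =
      ![σ * (-t * (-4) ^ k + q * (-1 / 4) ^ k), σ * (-r * (-4) ^ k + p * (-1 / 4) ^ k)] := by
    rw [hβ, map_mul, map_mul, Aff.mt_mul, Aff.mt_mul, ← Matrix.mulVec_mulVec, hv',
      ← Matrix.mulVec_mulVec, hzk, map_inv, mt_inv_entries, h00, h01, h10, h11, mv2]
    funext i
    fin_cases i <;> simp <;> ring
  have hyc : y = c * c := by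
    rw [hy, hc, ← mul_zpow]; norm_num
  have hcinv : (-1 / 4 : ℝ) ^ k * c = 1 := by
    rw [hc, ← mul_zpow]; norm_num
  have hJ : QJ 0 ((mt (rhoS β)).mulVec ![-1, 0]) ≤ 0 := by
    rw [hβv, QJ_0]
    show σ * (-t * (-4) ^ k + q * (-1 / 4) ^ k) * (σ * (-r * (-4) ^ k + p * (-1 / 4) ^ k)) ≤ 0
    have e1 : c * (-t * (-4) ^ k + q * (-1 / 4) ^ k) = q - y * t := by
      rw [hyc, ← hc]
      linear_combination q * hcinv
    have e2 : c * (-r * (-4) ^ k + p * (-1 / 4) ^ k) = p - y * r := by
      rw [hyc, ← hc]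
      linear_combination p * hcinv
    have e3 : c ^ 2 * (σ * (-t * (-4) ^ k + q * (-1 / 4) ^ k) *
        (σ * (-r * (-4) ^ k + p * (-1 / 4) ^ k))) = (q - y * t) * (p - y * r) := by
      rw [← e1, ← e2]
      linear_combination (c * (-t * (-4) ^ k + q * (-1 / 4) ^ k) *
        (c * (-r * (-4) ^ k + p * (-1 / 4) ^ k))) * hσ2
    have e4 : (q - y * t) * (p - y * r) ≤ 0 :=
      mul_nonpos_of_nonneg_of_nonpos (by linarith) (by linarith)
    have e5 : 0 < c ^ 2 := by positivity
    by_contra hpos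
    push Not at hpos
    have := mul_pos e5 hpos
    linarith
  rcases SA_dichotomy β hβmem with ⟨j, hj⟩ | hg
  · have hα : α = gz ^ k * kk 2 * (gz ^ j)⁻¹ := by
      rw [← hj, hβ]; group
    have h00' : mt (rhoS α) 0 0 * mt (rhoS α) 1 1 = -4 := by
      have f1 : ((-4 : ℝ)) ^ k * (-1 / 4) ^ k = 1 := by rw [← mul_zpow]; norm_num
      have f2 : ((-4 : ℝ)) ^ j * (-1 / 4) ^ j = 1 := by rw [← mul_zpow]; norm_num
      rw [hα, map_mul, map_mul, map_inv, Aff.mt_mul, Aff.mt_mul, mt_inv_entries (rhoS (gz ^ j)),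
        rhoS_zpow, rhoS_zpow, rhoS_kk2]
      generalize ((-4 : ℝ)) ^ k = a1 at *
      generalize ((-1 / 4 : ℝ)) ^ k = d1 at *
      generalize ((-4 : ℝ)) ^ j = a2 at *
      generalize ((-1 / 4 : ℝ)) ^ j = d2 at *
      simp [Matrix.mul_apply, Fin.sum_univ_two]
      linear_combination (4 * a2 * d2) * f1 + 4 * f2
    rw [h00, h11, hgoal] at h00'
    linarith
  · have := hg ![-1, 0] (by
      intro h0
      have := congrFun h0 0
      simp at this) (by rw [QJ_0]; simp)
    linarith

theorem letterBound (b : Bool) (g : SurfGrp) (h : Lett SS ZZ b g) :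
    mt (rhoS g) 0 0 * mt (rhoS g) 1 1 ≤ -1 / 15 := by
  cases b
  · have h1 := lettA_bound (swapHom g) (swap_mem_SA h.1) (fun hc => h.2 (swap_mem_ZZ hc))
    rw [rhoS_swap_coe] at h1
    simpa [mul_comm] using h1
  · exact lettA_bound g h.1 h.2

theorem Cl_diag_neg {b : Bool} {M : Matrix (Fin 2) (Fin 2) ℝ} (h : Cl b b M) :
    M 0 0 * M 1 1 < 0 := by
  obtain ⟨σ, p, q, r, t, hσ, hp, hq, hr, ht, rfl⟩ := h
  have := mul_pos hp ht
  rcases hσ with rfl | rfl <;> cases b <;> simp [sg] <;> linarith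

/-- The trichotomy used for discreteness. -/
theorem red_bound (b e : Bool) (w : SurfGrp) (h : Red SS ZZ b e w) :
    mt (rhoS w) 0 0 * mt (rhoS w) 1 1 < 0 ∨ 16 / 15 ≤ mt (rhoS w) 0 0 * mt (rhoS w) 1 1 := by
  by_cases hbe : b = e
  · subst hbe
    exact Or.inl (Cl_diag_neg (red_class 1 one_pos b b w h))
  · right
    cases h with
    | single => exact absurd rfl hbe
    | cons _ _ g w' hg hw' =>
      have he : e = !b := by cases b <;> cases e <;> simp_all
      subst he
      have c1 := lett_class 1 one_pos b g hg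
      have c2 := red_class 1 one_pos _ _ w' hw'
      have hb := letterBound b g hg
      have d1 := det_entries (rhoS g)
      have d2 := det_entries (rhoS w')
      change Cl b b (mt (rhoS g)) at c1
      change Cl (!b) (!b) (mt (rhoS w')) at c2
      rw [map_mul, Aff.mt_mul]
      obtain ⟨σ, p, q, r, t, hσ, hp, hq, hr, ht, hM⟩ := c1
      obtain ⟨σ', p', q', r', t', hσ', hp', hq', hr', ht', hM'⟩ := c2
      have hσ2 : σ ^ 2 = 1 := by rcases hσ with rfl | rfl <;> norm_num
      have hσ2' : σ' ^ 2 = 1 := by rcases hσ' with rfl | rfl <;> norm_num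
      have e1 : q * r - p * t = 1 := by
        rw [hM] at d1
        cases b <;> simp [sg] at d1 <;>
        · have : (q * r - p * t) * σ ^ 2 = 1 := by linear_combination d1
          rwa [hσ2, mul_one] at this
      have e2 : q' * r' - p' * t' = 1 := by
        rw [hM'] at d2
        cases b <;> simp [sg] at d2 <;>
        · have : (q' * r' - p' * t') * σ' ^ 2 = 1 := by linear_combination d2
          rwa [hσ2', mul_one] at this
      have e3 : 1 / 15 ≤ p * t := by
        rw [hM] at hb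
        have : -(p * t) ≤ -1 / 15 := by
          refine le_trans (le_of_eq ?_) hb
          cases b <;> simp [sg] <;> linear_combination (-(p * t)) * hσ2
        linarith
      have e4 : (mt (rhoS g) * mt (rhoS w')) 0 0 * (mt (rhoS g) * mt (rhoS w')) 1 1 =
          (p * p' + q * r') * (r * q' + t * t') := by
        rw [hM, hM']
        have hs : (σ * σ') ^ 2 = 1 := by rw [mul_pow, hσ2, hσ2', one_mul]
        cases b <;> simp [sg, Matrix.mul_apply, Fin.sum_univ_two] <;>
          linear_combination ((p * p' + q * r') * (r * q' + t * t')) * hs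
      rw [e4]
      have h1 : 0 < p * t := mul_pos hp ht
      have h2 : 0 < p' * t' := mul_pos hp' ht'
      have h3 : 0 < p * p' * (r * q') := by positivity
      have h4 : 0 < q * r' * (t * t') := by positivity
      have h5 : (p * p' + q * r') * (r * q' + t * t') =
          p * p' * (r * q') + (p * t) * (p' * t') + (q * r) * (q' * r') + q * r' * (t * t') := by
        ring
      have h6 : q * r = 1 + p * t := by linarith
      have h7 : q' * r' = 1 + p' * t' := by linarith
      rw [h5, h6, h7]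
      nlinarith [mul_pos h1 h2]

/-- The neighbourhood of the identity used for discreteness. -/
def nbhd : Set SL(2, ℝ) :=
  {g | 0 < mt g 0 0 * mt g 1 1 ∧ mt g 0 0 * mt g 1 1 < 16 / 15 ∧ mt g 0 0 ^ 2 < 16 ∧
    mt g 1 1 ^ 2 < 16}

theorem isOpen_nbhd : IsOpen nbhd := by
  have hc : ∀ i j : Fin 2, Continuous fun g : SL(2, ℝ) => mt g i j := by
    intro i j
    exact (continuous_apply_apply i j).comp continuous_subtype_val
  have h00 := hc 0 0
  have h11 := hc 1 1
  refine IsOpen.inter (isOpen_lt continuous_const (h00.mul h11)) (IsOpen.inter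
    (isOpen_lt (h00.mul h11) continuous_const) (IsOpen.inter
    (isOpen_lt (h00.pow 2) continuous_const) (isOpen_lt (h11.pow 2) continuous_const)))

theorem eq_one_of_nbhd (γ : SurfGrp) (h : rhoS γ ∈ nbhd) : γ = 1 := by
  obtain ⟨h1, h2, h3, h4⟩ := h
  rcases red_all γ with hz | ⟨b, e, hred⟩
  · obtain ⟨k, hk⟩ := mem_ZZ.mp hz
    have hm := rhoS_zpow k
    rw [← hk] at hm
    rw [hm] at h3 h4
    simp at h3 h4
    have e1 : ((-4 : ℝ) ^ k) ^ 2 = 16 ^ k := by rw [sq, ← mul_zpow]; norm_num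
    have e2 : ((-1 / 4 : ℝ) ^ k) ^ 2 = (16 ^ k)⁻¹ := by
      rw [sq, ← mul_zpow, ← _root_.inv_zpow]; norm_num
    rw [e1] at h3
    rw [e2] at h4
    have hk0 : k = 0 := by
      by_contra hk0
      rcases lt_or_gt_of_ne hk0 with hneg | hpos
      · have : (16 : ℝ) ^ k ≤ 16 ^ (-1 : ℤ) := zpow_le_zpow_right₀ (by norm_num) (by omega)
        have h5 : (0 : ℝ) < 16 ^ k := by positivity
        have h6 : ((16 : ℝ) ^ (-1 : ℤ))⁻¹ ≤ (16 ^ k)⁻¹ := inv_anti₀ h5 this
        norm_num at h6
        linarith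
      · have : (16 : ℝ) ^ (1 : ℤ) ≤ 16 ^ k := zpow_le_zpow_right₀ (by norm_num) (by omega)
        norm_num at this
        linarith
    rw [hk, hk0, zpow_zero]
  · rcases red_bound b e γ hred with h5 | h5
    · linarith
    · linarith

/-- The explicit representation is discrete and faithful. -/
theorem rhoS_discreteFaithful : IsDiscreteFaithful (proj2 rhoS) where
  injective := rhoS_injective
  discrete := by
    rw [discreteTopology_iff_isOpen_singleton_one]
    have hopen : IsOpen ((QuotientGroup.mk : SL(2, ℝ) → PSL(2, ℝ)) '' nbhd) :=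
      QuotientGroup.isOpenMap_coe _ isOpen_nbhd
    have heq : ({1} : Set (proj2 rhoS).range) =
        Subtype.val ⁻¹' ((QuotientGroup.mk : SL(2, ℝ) → PSL(2, ℝ)) '' nbhd) := by
      ext ⟨x, γ, rfl⟩
      simp only [Set.mem_singleton_iff, Set.mem_preimage, Set.mem_image]
      constructor
      · intro h
        have h1 : proj2 rhoS γ = 1 := congrArg Subtype.val h
        refine ⟨1, ?_, ?_⟩
        · refine ⟨?_, ?_, ?_, ?_⟩ <;> norm_num [mt]
        · rw [h1]; rfl
      · rintro ⟨g, hg, hgγ⟩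
        have h1 : rhoS γ ∈ nbhd := by
          rw [proj2_apply, QuotientGroup.eq] at hgγ
          obtain ⟨r, hr2, hr⟩ := Matrix.SpecialLinearGroup.mem_center_iff.mp hgγ
          rw [Fintype.card_fin] at hr2
          have h2 : mt (rhoS γ) = r • mt g := by
            have h3 : rhoS γ = g * (g⁻¹ * rhoS γ) := by group
            calc mt (rhoS γ) = mt g * mt (g⁻¹ * rhoS γ) := by rw [← Aff.mt_mul, ← h3]
              _ = mt g * Matrix.scalar (Fin 2) r := by rw [hr]
              _ = r • mt g := by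
                rw [Matrix.scalar_apply, ← Matrix.smul_one_eq_diagonal, Matrix.mul_smul,
                  Matrix.mul_one]
          obtain ⟨k1, k2, k3, k4⟩ := hg
          have e1 : mt (rhoS γ) 0 0 * mt (rhoS γ) 1 1 = mt g 0 0 * mt g 1 1 := by
            rw [h2]; simp only [Matrix.smul_apply, smul_eq_mul]
            linear_combination (mt g 0 0 * mt g 1 1) * hr2
          have e2 : mt (rhoS γ) 0 0 ^ 2 = mt g 0 0 ^ 2 := by
            rw [h2]; simp only [Matrix.smul_apply, smul_eq_mul]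
            linear_combination (mt g 0 0 ^ 2) * hr2
          have e3 : mt (rhoS γ) 1 1 ^ 2 = mt g 1 1 ^ 2 := by
            rw [h2]; simp only [Matrix.smul_apply, smul_eq_mul]
            linear_combination (mt g 1 1 ^ 2) * hr2
          exact ⟨by rw [e1]; exact k1, by rw [e1]; exact k2, by rw [e2]; exact k3,
            by rw [e3]; exact k4⟩
        have h2 := eq_one_of_nbhd γ h1
        apply Subtype.ext
        show proj2 rhoS γ = 1
        rw [h2, map_one]
    rw [heq]
    exact hopen.preimage continuous_subtype_val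

end Pool.Agent.MP_dd334f_gt
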