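import Pool.Agent.Lib.MP_dd334f_gt.Hankel

open Matrix
open scoped MatrixGroups

namespace Pool.Agent.MP_dd334f_gt

/-! ### Fixed vectors of involutions on `ℝ⁷` -/

/-- Fixed vectors of the companion involution of determinant `δ`. -/
def compFix (δ : ℝ) : (Fin 3 → ℝ) →ₗ[ℝ] R7 where
  toFun x := ![δ ^ 3 * x 0, -δ ^ 2 * x 1, δ * x 2, 0, x 2, x 1, x 0]
  map_add' x y := by
    funext k; fin_cases k <;> simp <;> ring
  map_smul' t x := by
    funext k; fin_cases k <;> simp <;> ring

theorem compFix_apply (δ : ℝ) (x : Fin 3 → ℝ) :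
    compFix δ x = ![δ ^ 3 * x 0, -δ ^ 2 * x 1, δ * x 2, 0, x 2, x 1, x 0] := rfl

theorem compFix_injective (δ : ℝ) : Function.Injective (compFix δ) := by
  intro x y h
  funext k
  fin_cases k
  · exact congrFun h 6
  · exact congrFun h 5
  · exact congrFun h 4

theorem compFix_fixed (δ : ℝ) (hδ : δ ^ 2 = 1) (x : Fin 3 → ℝ) :
    δ • T !![0, -δ; 1, 0] (compFix δ x) = compFix δ x := by
  have h : (δ - 1) * (δ + 1) = 0 := by linarith [hδ, sq δ]
  apply Hank_inj
  rw [Hank_smul, Hank_T, compFix_apply]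
  rcases mul_eq_zero.mp h with h | h
  · have h1 : δ = 1 := by linarith
    subst h1
    ext i j
    simp only [Matrix.smul_apply, Matrix.mul_apply, Matrix.transpose_apply, Fin.sum_univ_four]
    fin_cases i <;> fin_cases j <;> simp [Hank, sym3]
    all_goals norm_num
  · have h1 : δ = -1 := by linarith
    subst h1
    ext i j
    simp only [Matrix.smul_apply, Matrix.mul_apply, Matrix.transpose_apply, Fin.sum_univ_four]
    fin_cases i <;> fin_cases j <;> simp [Hank, sym3]
    all_goals norm_num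

/-- For an invertible traceless `c` there is a change of basis to the companion matrix. -/
theorem exists_comp_basis (c : Matrix (Fin 2) (Fin 2) ℝ) (htr : c.trace = 0) (hdet : c.det ≠ 0) :
    ∃ k : Matrix (Fin 2) (Fin 2) ℝ, k.det ≠ 0 ∧ c * k = k * !![0, -c.det; 1, 0] := by
  have h11 : c 1 1 = - c 0 0 := by
    rw [Matrix.trace_fin_two] at htr; linarith
  have hd : c.det = - c 0 0 ^ 2 - c 0 1 * c 1 0 := by
    rw [Matrix.det_fin_two, h11]; ring
  have key : ∀ x y : ℝ, c * !![x, c 0 0 * x + c 0 1 * y; y, c 1 0 * x - c 0 0 * y] =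
      !![x, c 0 0 * x + c 0 1 * y; y, c 1 0 * x - c 0 0 * y] * !![0, -c.det; 1, 0] := by
    intro x y
    rw [hd]
    ext i j
    fin_cases i <;> fin_cases j <;>
      simp [Matrix.mul_apply, Fin.sum_univ_succ, h11] <;> ring
  have kdet : ∀ x y : ℝ, (!![x, c 0 0 * x + c 0 1 * y; y, c 1 0 * x - c 0 0 * y]).det =
      c 1 0 * x ^ 2 - 2 * c 0 0 * x * y - c 0 1 * y ^ 2 := by
    intro x y
    rw [Matrix.det_fin_two]
    simp; ring
  by_cases h10 : c 1 0 = 0
  · by_cases h01 : c 0 1 = 0
    · refine ⟨_, ?_, key 1 1⟩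
      rw [kdet, h10, h01]
      have : c 0 0 ≠ 0 := by
        intro h0; apply hdet; rw [hd, h0, h01]; ring
      intro h
      apply this
      linarith
    · refine ⟨_, ?_, key 0 1⟩
      rw [kdet]
      simpa using h01
  · refine ⟨_, ?_, key 1 0⟩
    rw [kdet]
    simpa using h10

theorem T_adjugate (k : Matrix (Fin 2) (Fin 2) ℝ) (a : R7) :
    T (adjugate k) (T k a) = k.det ^ 6 • a := by
  rw [← T_mul, Matrix.adjugate_mul, T_smul, T_one]

theorem T_injective (k : Matrix (Fin 2) (Fin 2) ℝ) (hk : k.det ≠ 0) :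
    Function.Injective (T k) := by
  intro a b h
  have h1 := T_adjugate k a
  have h2 := T_adjugate k b
  rw [h, h2] at h1
  have h3 := smul_right_injective R7 (pow_ne_zero 6 hk) h1
  exact h3.symm

/-- Fixed vectors of the involution attached to a traceless matrix of determinant `±1`. -/
theorem exists_fix (c : Matrix (Fin 2) (Fin 2) ℝ) (htr : c.trace = 0) (hdet : c.det ^ 2 = 1) :
    ∃ φ : (Fin 3 → ℝ) →ₗ[ℝ] R7, Function.Injective φ ∧ ∀ x, c.det • T c (φ x) = φ x := by
  have h0 : c.det ≠ 0 := by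
    intro h; rw [h] at hdet; norm_num at hdet
  obtain ⟨k, hk, hck⟩ := exists_comp_basis c htr h0
  refine ⟨T k ∘ₗ compFix c.det, (T_injective k hk).comp (compFix_injective _), ?_⟩
  intro x
  show c.det • T c (T k (compFix c.det x)) = T k (compFix c.det x)
  rw [← T_mul, hck, T_mul, ← map_smul, compFix_fixed _ hdet]

end Pool.Agent.MP_dd334f_gt
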