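import Pool.Agent.Lib.MP_dd334f_gt.Bend

open Matrix Filter Topology
open scoped MatrixGroups

namespace Pool.Agent.MP_dd334f_gt

/-! ### Representations factoring through a free group of rank two -/

theorem dbl_relator (P Q : SL(2, ℝ)) :
    ∀ r ∈ ({relator} : Set (FreeGroup (Fin 4))), FreeGroup.lift ![P, Q, Q, P] r = 1 := by
  intro r hr
  rw [Set.mem_singleton_iff] at hr
  subst hr
  simp only [relator, map_mul, map_inv, FreeGroup.lift_apply_of]
  show P * Q * P⁻¹ * Q⁻¹ * (Q * P * Q⁻¹ * P⁻¹) = 1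
  group

/-- The representation `a ↦ P, b ↦ Q, c ↦ Q, d ↦ P`. -/
def dbl (P Q : SL(2, ℝ)) : SurfGrp →* SL(2, ℝ) := PresentedGroup.toGroup (dbl_relator P Q)

theorem dbl_A (P Q : SL(2, ℝ)) : dbl P Q gA = P := PresentedGroup.toGroup.of _
theorem dbl_B (P Q : SL(2, ℝ)) : dbl P Q gB = Q := PresentedGroup.toGroup.of _

/-- Diagonal matrices. -/
noncomputable def dd (x : ℝ) (hx : x ≠ 0) : SL(2, ℝ) :=
  ⟨!![x, 0; 0, x⁻¹], by rw [Matrix.det_fin_two]; simp [hx]⟩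

theorem coe_dd (x : ℝ) (hx : x ≠ 0) : mt (dd x hx) = !![x, 0; 0, x⁻¹] := rfl

theorem dd_zpow (x : ℝ) (hx : x ≠ 0) (k : ℤ) : dd x hx ^ k = dd (x ^ k) (zpow_ne_zero k hx) := by
  induction k using Int.induction_on with
  | zero =>
    apply Subtype.ext
    show _ = mt (dd _ _)
    rw [coe_dd]
    ext i j
    fin_cases i <;> fin_cases j <;> simp
  | succ k ih =>
    rw [_root_.zpow_add_one, ih]
    apply Subtype.ext
    show mt (dd _ _ * dd _ _) = mt (dd _ _)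
    rw [Aff.mt_mul, coe_dd, coe_dd, coe_dd, zpow_add_one₀ hx]
    ext i j
    fin_cases i <;> fin_cases j <;> simp [Matrix.mul_apply, Fin.sum_univ_two, mul_comm]
  | pred k ih =>
    have hinv : mt (dd x hx)⁻¹ = !![x⁻¹, 0; 0, x] := by
      rw [mt_inv_entries, coe_dd]; simp
    rw [_root_.zpow_sub_one, ih]
    apply Subtype.ext
    show mt (dd _ _ * (dd _ _)⁻¹) = mt (dd _ _)
    rw [Aff.mt_mul, coe_dd, hinv, coe_dd, zpow_sub_one₀ hx]
    ext i j
    fin_cases i <;> fin_cases j <;> simp [Matrix.mul_apply, Fin.sum_univ_two, mul_comm]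

/-- The conjugating matrix `K`. -/
def mK : SL(2, ℝ) := ⟨!![1, 1; 1, 2], by norm_num [Matrix.det_fin_two]⟩

/-- The family `a ↦ diag(3, 1/3)`, `b ↦ K diag(μ, 1/μ) K⁻¹`. -/
noncomputable def fam (μ : ℝ) (hμ : μ ≠ 0) : SurfGrp →* SL(2, ℝ) :=
  dbl (dd 3 (by norm_num)) (mK * dd μ hμ * mK⁻¹)

theorem fam_A (μ : ℝ) (hμ : μ ≠ 0) (n : ℤ) :
    mt (fam μ hμ (gA ^ n)) = !![3 ^ n, 0; 0, (3 ^ n)⁻¹] := by
  rw [map_zpow, fam, dbl_A, dd_zpow, coe_dd]

theorem fam_B (μ : ℝ) (hμ : μ ≠ 0) (m : ℤ) :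
    mt (fam μ hμ (gB ^ m)) =
      !![2 * μ ^ m - (μ ^ m)⁻¹, -μ ^ m + (μ ^ m)⁻¹; 2 * μ ^ m - 2 * (μ ^ m)⁻¹,
        -μ ^ m + 2 * (μ ^ m)⁻¹] := by
  rw [map_zpow, fam, dbl_B]
  have : (mK * dd μ hμ * mK⁻¹) ^ m = mK * (dd μ hμ) ^ m * mK⁻¹ := by
    exact conj_zpow
  rw [this, dd_zpow, Aff.mt_mul, Aff.mt_mul, mt_inv_entries, coe_dd]
  have hK : mt mK = !![1, 1; 1, 2] := rfl
  rw [hK]
  ext i j
  fin_cases i <;> fin_cases j <;> simp [Matrix.mul_apply, Fin.sum_univ_two] <;> ring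

/-- The column vector attached to the sign of `m`. -/
def vv (m : ℤ) : Fin 2 → ℝ := if 0 < m then ![1, 1] else ![1, 2]
/-- The row vector attached to the sign of `m`. -/
def ww (m : ℤ) : Fin 2 → ℝ := if 0 < m then ![2, -1] else ![-1, 1]
/-- The diagonal matrix. -/
noncomputable def DD (n : ℤ) : Matrix (Fin 2) (Fin 2) ℝ := !![3 ^ n, 0; 0, (3 ^ n)⁻¹]

/-- The limit of a rescaled syllable. -/
noncomputable def PP (p : ℤ × ℤ) : Matrix (Fin 2) (Fin 2) ℝ := DD p.1 * Matrix.vecMulVec (vv p.2) (ww p.2)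

theorem syllable_limit (n m : ℤ) (hm : m ≠ 0) :
    Tendsto (fun μ : ℝ => if hμ : μ ≠ 0 then
      (μ ^ m.natAbs)⁻¹ • mt (fam μ hμ (gA ^ n * gB ^ m)) else 0) atTop (𝓝 (PP (n, m))) := by
  have hd : m.natAbs ≠ 0 := Int.natAbs_ne_zero.mpr hm
  have ht : Tendsto (fun μ : ℝ => (μ ^ m.natAbs)⁻¹) atTop (𝓝 0) :=
    tendsto_inv_atTop_zero.comp (tendsto_pow_atTop hd)
  set R : ℝ → Matrix (Fin 2) (Fin 2) ℝ := fun t =>
    if 0 < m then DD n * !![2 - t ^ 2, -1 + t ^ 2; 2 - 2 * t ^ 2, -1 + 2 * t ^ 2]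
    else DD n * !![2 * t ^ 2 - 1, 1 - t ^ 2; 2 * t ^ 2 - 2, 2 - t ^ 2] with hR
  have hR0 : R 0 = PP (n, m) := by
    by_cases h : 0 < m
    · simp only [hR, h, if_true, PP, vv, ww]
      congr 1
      ext i j
      fin_cases i <;> fin_cases j <;> simp [Matrix.vecMulVec]
    · simp only [hR, h, if_false, PP, vv, ww]
      congr 1
      ext i j
      fin_cases i <;> fin_cases j <;> simp [Matrix.vecMulVec]
  have hRc : Continuous R := by
    by_cases h : 0 < m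
    · simp only [hR, h, if_true]
      refine Continuous.matrix_mul continuous_const ?_
      refine continuous_matrix ?_
      intro i j
      fin_cases i <;> fin_cases j <;> simp <;> fun_prop
    · simp only [hR, h, if_false]
      refine Continuous.matrix_mul continuous_const ?_
      refine continuous_matrix ?_
      intro i j
      fin_cases i <;> fin_cases j <;> simp <;> fun_prop
  have hlim : Tendsto (fun μ : ℝ => R ((μ ^ m.natAbs)⁻¹)) atTop (𝓝 (PP (n, m))) := by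
    rw [← hR0]
    exact (hRc.tendsto 0).comp ht
  refine hlim.congr' ?_
  filter_upwards [eventually_gt_atTop (0 : ℝ)] with μ hμ0
  have hμ : μ ≠ 0 := hμ0.ne'
  rw [dif_pos hμ, map_mul, Aff.mt_mul, fam_A, fam_B]
  have ht0 : (μ ^ m.natAbs)⁻¹ ≠ 0 := inv_ne_zero (pow_ne_zero _ hμ)
  by_cases h : 0 < m
  · have e1 : μ ^ m = ((μ ^ m.natAbs)⁻¹)⁻¹ := by
      rw [inv_inv, ← zpow_natCast, Int.natAbs_of_nonneg h.le]
    simp only [hR, h, if_true]
    rw [e1]
    generalize (μ ^ m.natAbs)⁻¹ = t at ht0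
    rw [← Matrix.mul_smul, DD]
    congr 1
    ext i j
    fin_cases i <;> fin_cases j <;> simp <;> field_simp
  · have e1 : μ ^ m = (μ ^ m.natAbs)⁻¹ := by
      have : (m.natAbs : ℤ) = -m := Int.ofNat_natAbs_of_nonpos (by omega)
      rw [← zpow_natCast, this, _root_.zpow_neg, inv_inv]
    simp only [hR, h, if_false]
    rw [e1]
    generalize (μ ^ m.natAbs)⁻¹ = t at ht0
    rw [← Matrix.mul_smul, DD]
    congr 1
    ext i j
    fin_cases i <;> fin_cases j <;> simp <;> field_simp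
    all_goals ring

/-! ### Limits of words -/

/-- The word with exponent pairs `L`. -/
def wd (L : List (ℤ × ℤ)) : SurfGrp := (L.map fun p => gA ^ p.1 * gB ^ p.2).prod

theorem wd_nil : wd [] = 1 := rfl
theorem wd_cons (p : ℤ × ℤ) (L : List (ℤ × ℤ)) : wd (p :: L) = gA ^ p.1 * gB ^ p.2 * wd L := by
  simp [wd]

/-- Total `b`-length. -/
def blen (L : List (ℤ × ℤ)) : ℕ := (L.map fun p => p.2.natAbs).sum

theorem blen_cons (p : ℤ × ℤ) (L : List (ℤ × ℤ)) : blen (p :: L) = p.2.natAbs + blen L := by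
  simp [blen]

/-- The limit of a rescaled word. -/
noncomputable def Lam (L : List (ℤ × ℤ)) : Matrix (Fin 2) (Fin 2) ℝ := (L.map PP).prod

theorem Lam_cons (p : ℤ × ℤ) (L : List (ℤ × ℤ)) : Lam (p :: L) = PP p * Lam L := by
  simp [Lam]

theorem word_limit (L : List (ℤ × ℤ)) (hL : ∀ p ∈ L, p.2 ≠ 0) :
    Tendsto (fun μ : ℝ => if hμ : μ ≠ 0 then
      (μ ^ blen L)⁻¹ • mt (fam μ hμ (wd L)) else 0) atTop (𝓝 (Lam L)) := by
  induction L with
  | nil =>
    have h1 : Lam [] = 1 := rfl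
    rw [h1]
    refine tendsto_const_nhds.congr' ?_
    filter_upwards [eventually_gt_atTop (0 : ℝ)] with μ hμ0
    rw [dif_pos hμ0.ne', wd_nil, map_one, Aff.mt_one]
    simp [blen]
  | cons p L ih =>
    have h1 := syllable_limit p.1 p.2 (hL p (List.mem_cons_self ..))
    have h2 := ih (fun q hq => hL q (List.mem_cons_of_mem _ hq))
    rw [Lam_cons]
    refine (h1.mul h2).congr' ?_
    filter_upwards [eventually_gt_atTop (0 : ℝ)] with μ hμ0
    rw [dif_pos hμ0.ne', dif_pos hμ0.ne', dif_pos hμ0.ne', wd_cons, map_mul _ _ (wd L), Aff.mt_mul,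
      blen_cons, pow_add, mul_inv, Matrix.smul_mul, Matrix.mul_smul, smul_smul]

/-- The scalar `w_m · Dⁿ v_{m'}`. -/
noncomputable def br (m n m' : ℤ) : ℝ := ww m ⬝ᵥ (DD n).mulVec (vv m')

theorem nine_zpow (n : ℤ) (hn : n ≠ 0) : 9 ≤ (3 ^ n : ℝ) ^ 2 ∨ (3 ^ n : ℝ) ^ 2 ≤ 1 / 9 := by
  have e : (3 ^ n : ℝ) ^ 2 = 9 ^ n := by rw [sq, ← mul_zpow]; norm_num
  rw [e]
  rcases lt_or_gt_of_ne hn with h | h
  · right
    have : (9 : ℝ) ^ n ≤ 9 ^ (-1 : ℤ) := zpow_le_zpow_right₀ (by norm_num) (by omega)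
    norm_num at this ⊢
    exact this
  · left
    have : (9 : ℝ) ^ (1 : ℤ) ≤ 9 ^ n := zpow_le_zpow_right₀ (by norm_num) (by omega)
    norm_num at this
    exact this

theorem br_ne_zero (m n m' : ℤ) (hn : n ≠ 0) : br m n m' ≠ 0 := by
  have hy : (0 : ℝ) < 3 ^ n := by positivity
  have h9 := nine_zpow n hn
  rw [br, DD, mv2]
  intro h
  by_cases hm : 0 < m <;> by_cases hm' : 0 < m' <;>
    simp [ww, vv, hm, hm', dotProduct, Fin.sum_univ_two] at h <;>
    field_simp at h <;> rcases h9 with h9 | h9 <;> nlinarith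

/-- The shape of the limit. -/
theorem Lam_shape (p : ℤ × ℤ) (L : List (ℤ × ℤ)) (hL : ∀ q ∈ L, q.1 ≠ 0) :
    ∃ (c : ℝ) (m : ℤ), c ≠ 0 ∧
      Lam (p :: L) = c • Matrix.vecMulVec ((DD p.1).mulVec (vv p.2)) (ww m) := by
  induction L generalizing p with
  | nil =>
    refine ⟨1, p.2, one_ne_zero, ?_⟩
    rw [Lam_cons]
    show PP p * 1 = _
    rw [mul_one, one_smul, PP, Matrix.mul_vecMulVec]
  | cons q L ih =>
    obtain ⟨c, m, hc, h⟩ := ih q (fun r hr => hL r (List.mem_cons_of_mem _ hr))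
    refine ⟨c * br p.2 q.1 q.2, m, mul_ne_zero hc (br_ne_zero _ _ _ (hL q (List.mem_cons_self ..))), ?_⟩
    rw [Lam_cons, h, PP, Matrix.mul_smul, mul_smul]
    congr 1
    rw [Matrix.mul_assoc, Matrix.vecMulVec_mul_vecMulVec, Matrix.mul_vecMulVec,
      Matrix.vecMulVec_smul, br]

theorem Lam_trace_ne (L : List (ℤ × ℤ)) (hne : L ≠ []) (hL : ∀ q ∈ L, q.1 ≠ 0) :
    (Lam L).trace ≠ 0 := by
  cases L with
  | nil => exact absurd rfl hne
  | cons p L =>
    obtain ⟨c, m, hc, h⟩ := Lam_shape p L (fun q hq => hL q (List.mem_cons_of_mem _ hq))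
    rw [h, Matrix.trace_smul, Matrix.trace_vecMulVec, smul_eq_mul, dotProduct_comm]
    exact mul_ne_zero hc (br_ne_zero m p.1 p.2 (hL p (List.mem_cons_self ..)))

end Pool.Agent.MP_dd334f_gt
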