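import Pool.Agent.Lib.MP_dd334f_gt.Free

open Matrix Filter Topology
open scoped MatrixGroups

namespace Pool.Agent.MP_dd334f_gt

/-! ### Normal forms in the subgroup generated by `a` and `b` -/

/-- The two cyclic subgroups. -/
def FF (b : Bool) : Subgroup SurfGrp := if b then Subgroup.zpowers gA else Subgroup.zpowers gB

theorem lettF_true {g : SurfGrp} (h : Lett FF ⊥ true g) : ∃ n : ℤ, n ≠ 0 ∧ g = gA ^ n := by
  obtain ⟨n, hn⟩ := Subgroup.mem_zpowers_iff.mp (show g ∈ Subgroup.zpowers gA from h.1)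
  refine ⟨n, ?_, hn.symm⟩
  rintro rfl
  apply h.2
  rw [← hn, zpow_zero]
  exact Subgroup.one_mem _

theorem lettF_false {g : SurfGrp} (h : Lett FF ⊥ false g) : ∃ n : ℤ, n ≠ 0 ∧ g = gB ^ n := by
  obtain ⟨n, hn⟩ := Subgroup.mem_zpowers_iff.mp (show g ∈ Subgroup.zpowers gB from h.1)
  refine ⟨n, ?_, hn.symm⟩
  rintro rfl
  apply h.2
  rw [← hn, zpow_zero]
  exact Subgroup.one_mem _

theorem alt_wd {w : SurfGrp} (h : Alt FF ⊥ w) :
    ∃ L : List (ℤ × ℤ), L ≠ [] ∧ (∀ p ∈ L, p.1 ≠ 0 ∧ p.2 ≠ 0) ∧ w = wd L := by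
  induction h with
  | base g h hg hh =>
    obtain ⟨n, hn, rfl⟩ := lettF_true hg
    obtain ⟨m, hm, rfl⟩ := lettF_false hh
    refine ⟨[(n, m)], by simp, ?_, ?_⟩
    · intro p hp
      rw [List.mem_singleton] at hp
      subst hp
      exact ⟨hn, hm⟩
    · rw [wd_cons, wd_nil, mul_one]
  | step g h w hg hh _ ih =>
    obtain ⟨n, hn, rfl⟩ := lettF_true hg
    obtain ⟨m, hm, rfl⟩ := lettF_false hh
    obtain ⟨L, hL0, hL, rfl⟩ := ih
    refine ⟨(n, m) :: L, by simp, ?_, ?_⟩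
    · intro p hp
      rcases List.mem_cons.mp hp with rfl | hp
      · exact ⟨hn, hm⟩
      · exact hL p hp
    · rw [wd_cons]

theorem SA_form {w : SurfGrp} (hw : w ∈ SA) :
    ∃ h : SurfGrp, (∃ n : ℤ, h * w * h⁻¹ = gA ^ n) ∨ (∃ m : ℤ, h * w * h⁻¹ = gB ^ m) ∨
      ∃ L : List (ℤ × ℤ), L ≠ [] ∧ (∀ p ∈ L, p.1 ≠ 0 ∧ p.2 ≠ 0) ∧ h * w * h⁻¹ = wd L := by
  have hw' : w ∈ Subgroup.closure ((FF true : Set SurfGrp) ∪ FF false) := by
    refine Subgroup.closure_mono ?_ hw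
    rintro x (rfl | rfl)
    · exact Or.inl (Subgroup.mem_zpowers _)
    · exact Or.inr (Subgroup.mem_zpowers _)
  obtain ⟨h, h1 | h1 | h1⟩ := conj_normal_form (S := FF) (Z := ⊥) (fun b => bot_le) hw'
  · obtain ⟨n, hn⟩ := Subgroup.mem_zpowers_iff.mp
      (show h * w * h⁻¹ ∈ Subgroup.zpowers gA from h1)
    exact ⟨h, Or.inl ⟨n, hn.symm⟩⟩
  · obtain ⟨n, hn⟩ := Subgroup.mem_zpowers_iff.mp
      (show h * w * h⁻¹ ∈ Subgroup.zpowers gB from h1)
    exact ⟨h, Or.inr (Or.inl ⟨n, hn.symm⟩)⟩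
  · obtain ⟨L, hL⟩ := alt_wd h1
    exact ⟨h, Or.inr (Or.inr ⟨L, hL⟩)⟩

/-! ### Traces -/

theorem trace_limit (L : List (ℤ × ℤ)) (hL : ∀ p ∈ L, p.2 ≠ 0) :
    Tendsto (fun μ : ℝ => if hμ : μ ≠ 0 then
      (μ ^ blen L)⁻¹ * (mt (fam μ hμ (wd L))).trace else 0) atTop (𝓝 (Lam L).trace) := by
  have h1 := ((continuous_id.matrix_trace).tendsto (Lam L)).comp (word_limit L hL)
  refine h1.congr' ?_
  filter_upwards [eventually_gt_atTop (0 : ℝ)] with μ hμ0
  rw [Function.comp_apply, dif_pos hμ0.ne', dif_pos hμ0.ne']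
  show Matrix.trace (_ • _) = _
  rw [Matrix.trace_smul, smul_eq_mul]

theorem blen_pos (L : List (ℤ × ℤ)) (hne : L ≠ []) (hL : ∀ p ∈ L, p.2 ≠ 0) : 1 ≤ blen L := by
  cases L with
  | nil => exact absurd rfl hne
  | cons p L =>
    rw [blen_cons]
    have := Int.natAbs_pos.mpr (hL p (List.mem_cons_self ..))
    omega

theorem trace_dd (x : ℝ) (hx : x ≠ 0) : (mt (dd x hx)).trace = x + x⁻¹ := by
  rw [coe_dd, Matrix.trace_fin_two]; simp

theorem trace_one2 : (mt (1 : SL(2, ℝ))).trace = 2 := by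
  rw [Aff.mt_one, Matrix.trace_one]; simp

theorem zpow_val (x : ℝ) (hx : 1 < x) (n : ℤ) (h : x ^ n + (x ^ n)⁻¹ = x + x⁻¹) :
    n = 1 ∨ n = -1 := by
  have hx0 : 0 < x := by linarith
  have hy : 0 < x ^ n := by positivity
  have h2 : (x ^ n - x) * (x ^ n - x⁻¹) = 0 := by
    have h3 : x ^ n * (x ^ n + (x ^ n)⁻¹) = x ^ n * (x + x⁻¹) := by rw [h]
    have h4 : x ^ n * (x ^ n)⁻¹ = 1 := mul_inv_cancel₀ hy.ne'
    have h5 : x * x⁻¹ = 1 := mul_inv_cancel₀ hx0.ne'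
    linear_combination h3 - h4 + h5
  rcases mul_eq_zero.mp h2 with h3 | h3
  · left
    have h4 : x ^ n = x ^ (1 : ℤ) := by rw [zpow_one]; linarith
    exact zpow_right_injective₀ hx0 hx.ne' h4
  · right
    have h4 : x ^ n = x ^ (-1 : ℤ) := by rw [_root_.zpow_neg_one]; linarith
    exact zpow_right_injective₀ hx0 hx.ne' h4

theorem zpow_val0 (x : ℝ) (hx : 1 < x) (n : ℤ) (h : x ^ n + (x ^ n)⁻¹ = 2) : n = 0 := by
  have hx0 : 0 < x := by linarith
  have hy : 0 < x ^ n := by positivity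
  have h2 : (x ^ n - 1) * (x ^ n - 1) = 0 := by
    have h3 : x ^ n * (x ^ n + (x ^ n)⁻¹) = x ^ n * 2 := by rw [h]
    have h4 : x ^ n * (x ^ n)⁻¹ = 1 := mul_inv_cancel₀ hy.ne'
    linear_combination h3 - h4
  have h3 := mul_self_eq_zero.mp h2
  have h4 : x ^ n = x ^ (0 : ℤ) := by rw [zpow_zero]; linarith
  exact zpow_right_injective₀ hx0 hx.ne' h4

/-- Elements of `⟨a, b⟩` with the traces of `a`. -/
theorem same_trace_a (w : SurfGrp) (hw : w ∈ SA)
    (htr : ∀ ρ : SurfGrp →* SL(2, ℝ), (mt (ρ w)).trace = (mt (ρ gA)).trace) :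
    (∃ h, w = h * gA * h⁻¹) ∨ ∃ h, w = h * gA⁻¹ * h⁻¹ := by
  obtain ⟨h, hh⟩ := SA_form hw
  have htr' : ∀ ρ : SurfGrp →* SL(2, ℝ), (mt (ρ (h * w * h⁻¹))).trace = (mt (ρ gA)).trace := by
    intro ρ
    rw [map_mul, map_mul, map_inv, trace_conj2, htr]
  have hback : ∀ x, h * w * h⁻¹ = x → w = h⁻¹ * x * (h⁻¹)⁻¹ := by
    rintro x rfl
    group
  rcases hh with ⟨n, hn⟩ | ⟨m, hm⟩ | ⟨L, hL0, hL, hwL⟩
  · have h1 := htr' (dbl (dd 3 (by norm_num)) 1)
    rw [hn, map_zpow, dbl_A, dd_zpow, trace_dd, trace_dd] at h1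
    rcases zpow_val 3 (by norm_num) n h1 with rfl | rfl
    · left
      exact ⟨h⁻¹, by simpa using hback _ hn⟩
    · right
      exact ⟨h⁻¹, by simpa using hback _ hn⟩
  · exfalso
    have h1 := htr' (dbl (dd 3 (by norm_num)) 1)
    rw [hm, map_zpow, dbl_A, dbl_B, _root_.one_zpow, trace_one2, trace_dd] at h1
    norm_num at h1
  · exfalso
    have h1 := trace_limit L (fun p hp => (hL p hp).2)
    have hb := blen_pos L hL0 (fun p hp => (hL p hp).2)
    have h2 : Tendsto (fun μ : ℝ => if hμ : μ ≠ 0 then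
        (μ ^ blen L)⁻¹ * (mt (fam μ hμ (wd L))).trace else 0) atTop (𝓝 0) := by
      have h3 : Tendsto (fun μ : ℝ => (μ ^ blen L)⁻¹ * (3 + 3⁻¹)) atTop (𝓝 (0 * (3 + 3⁻¹))) :=
        (tendsto_inv_atTop_zero.comp (tendsto_pow_atTop (by omega))).mul_const _
      rw [zero_mul] at h3
      refine h3.congr' ?_
      filter_upwards [eventually_gt_atTop (0 : ℝ)] with μ hμ0
      rw [dif_pos hμ0.ne', ← hwL, htr', fam, dbl_A, trace_dd]
    exact Lam_trace_ne L hL0 (fun p hp => (hL p hp).1) (tendsto_nhds_unique h1 h2)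

/-! ### The separating class -/

theorem gz_wd : gz = wd [(1, 1), (-1, -1)] := by
  rw [wd_cons, wd_cons, wd_nil, gz]
  simp [mul_assoc]

theorem dbl_wd_left (x : ℝ) (hx : x ≠ 0) (L : List (ℤ × ℤ)) :
    dbl (dd x hx) 1 (wd L) = dd x hx ^ (L.map Prod.fst).sum := by
  induction L with
  | nil => simp [wd_nil]
  | cons p L ih =>
    rw [wd_cons, map_mul, map_mul, map_zpow, map_zpow, dbl_A, dbl_B, _root_.one_zpow, mul_one, ih,
      List.map_cons, List.sum_cons, _root_.zpow_add]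

theorem dbl_wd_right (x : ℝ) (hx : x ≠ 0) (L : List (ℤ × ℤ)) :
    dbl 1 (dd x hx) (wd L) = dd x hx ^ (L.map Prod.snd).sum := by
  induction L with
  | nil => simp [wd_nil]
  | cons p L ih =>
    rw [wd_cons, map_mul, map_mul, map_zpow, map_zpow, dbl_A, dbl_B, _root_.one_zpow, one_mul, ih,
      List.map_cons, List.sum_cons, _root_.zpow_add]

theorem dbl_z_left (P : SL(2, ℝ)) : dbl P 1 gz = 1 := by
  rw [gz, map_mul, map_mul, map_mul, map_inv, map_inv, dbl_A, dbl_B]; group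

theorem dbl_z_right (P : SL(2, ℝ)) : dbl 1 P gz = 1 := by
  rw [gz, map_mul, map_mul, map_mul, map_inv, map_inv, dbl_A, dbl_B]; group

theorem PP_pos (n : ℤ) : PP (n, 1) =
    !![2 * (3 : ℝ) ^ n, -(3 : ℝ) ^ n; 2 * ((3 : ℝ) ^ n)⁻¹, -((3 : ℝ) ^ n)⁻¹] := by
  simp only [PP, DD, vv, ww]
  ext i j
  fin_cases i <;> fin_cases j <;>
    simp [Matrix.mul_apply, Fin.sum_univ_two, Matrix.vecMulVec_apply] <;> ring

theorem PP_neg (n : ℤ) : PP (n, -1) =
    !![-(3 : ℝ) ^ n, (3 : ℝ) ^ n; -(2 * ((3 : ℝ) ^ n)⁻¹), 2 * ((3 : ℝ) ^ n)⁻¹] := by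
  simp only [PP, DD, vv, ww]
  ext i j
  fin_cases i <;> fin_cases j <;>
    simp [Matrix.mul_apply, Fin.sum_univ_two, Matrix.vecMulVec_apply] <;> ring

theorem Lam_pair_trace (n δ : ℤ) (hδ : δ = 1 ∨ δ = -1) :
    (Lam [(n, δ), (-n, -δ)]).trace = 2 * ((3 : ℝ) ^ n - ((3 : ℝ) ^ n)⁻¹) ^ 2 := by
  have e : Lam [(n, δ), (-n, -δ)] = PP (n, δ) * PP (-n, -δ) := by
    rw [Lam_cons, Lam_cons]
    show _ * (_ * 1) = _
    rw [mul_one]
  have e3 : (3 : ℝ) ^ (-n) = ((3 : ℝ) ^ n)⁻¹ := _root_.zpow_neg _ _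
  rw [e]
  rcases hδ with rfl | rfl
  · rw [PP_pos, PP_neg, e3, inv_inv]
    simp [Matrix.trace_fin_two, Matrix.mul_apply, Fin.sum_univ_two]
    ring
  · rw [neg_neg, PP_pos, PP_neg, e3, inv_inv]
    simp [Matrix.trace_fin_two, Matrix.mul_apply, Fin.sum_univ_two]
    ring

theorem trace_z_S : (mt (rhoS gz)).trace = -17 / 4 := by
  rw [rhoS_z, Matrix.trace_fin_two]; norm_num

theorem blen_pair : blen [((1 : ℤ), (1 : ℤ)), (-1, -1)] = 2 := rfl

/-- Comparison of growth rates. -/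
theorem growth_eq (T : ℝ → ℝ) (b c : ℕ) (l m : ℝ) (hl : l ≠ 0) (hm : m ≠ 0)
    (h1 : Tendsto (fun μ : ℝ => (μ ^ b)⁻¹ * T μ) atTop (𝓝 l))
    (h2 : Tendsto (fun μ : ℝ => (μ ^ c)⁻¹ * T μ) atTop (𝓝 m)) : b = c ∧ l = m := by
  have key : ∀ (b c : ℕ) (l m : ℝ), m ≠ 0 →
      Tendsto (fun μ : ℝ => (μ ^ b)⁻¹ * T μ) atTop (𝓝 l) →
      Tendsto (fun μ : ℝ => (μ ^ c)⁻¹ * T μ) atTop (𝓝 m) → c ≤ b ∨ False := by
    intro b c l m hm h1 h2
    by_cases hbc : c ≤ b
    · exact Or.inl hbc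
    · exfalso
      have h3 : Tendsto (fun μ : ℝ => (μ ^ (c - b))⁻¹ * ((μ ^ b)⁻¹ * T μ)) atTop (𝓝 (0 * l)) :=
        (tendsto_inv_atTop_zero.comp (tendsto_pow_atTop (by omega))).mul h1
      have h4 : Tendsto (fun μ : ℝ => (μ ^ c)⁻¹ * T μ) atTop (𝓝 (0 * l)) := by
        refine h3.congr ?_
        intro μ
        have : μ ^ c = μ ^ (c - b) * μ ^ b := by rw [← pow_add]; congr 1; omega
        rw [this, mul_inv, mul_assoc]
      apply hm
      have := tendsto_nhds_unique h2 h4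
      rw [this, zero_mul]
  have hbc : b = c := by
    rcases key b c l m hm h1 h2 with h | h
    · rcases key c b m l hl h2 h1 with h' | h'
      · exact le_antisymm h' h
      · exact h'.elim
    · exact h.elim
  subst hbc
  exact ⟨rfl, tendsto_nhds_unique h1 h2⟩

/-- Elements of `⟨a, b⟩` with the traces of `a b a⁻¹ b⁻¹`. -/
theorem same_trace_z (w : SurfGrp) (hw : w ∈ SA)
    (htr : ∀ ρ : SurfGrp →* SL(2, ℝ), (mt (ρ w)).trace = (mt (ρ gz)).trace) :
    (∃ h, w = h * gz * h⁻¹) ∨ ∃ h, w = h * gz⁻¹ * h⁻¹ := by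
  obtain ⟨h, hh⟩ := SA_form hw
  have htr' : ∀ ρ : SurfGrp →* SL(2, ℝ), (mt (ρ (h * w * h⁻¹))).trace = (mt (ρ gz)).trace := by
    intro ρ
    rw [map_mul, map_mul, map_inv, trace_conj2, htr]
  have hback : ∀ x, h * w * h⁻¹ = x → w = h⁻¹ * x * (h⁻¹)⁻¹ := by
    rintro x rfl
    group
  rcases hh with ⟨n, hn⟩ | ⟨m, hm⟩ | ⟨L, hL0, hL, hwL⟩
  · exfalso
    have h1 := htr' (dbl (dd 2 (by norm_num)) 1)
    rw [dbl_z_left, hn, map_zpow, dbl_A, dd_zpow, trace_dd, trace_one2] at h1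
    have h2 := zpow_val0 2 (by norm_num) n h1
    have h3 := htr' rhoS
    rw [hn, h2, zpow_zero, map_one, trace_one2, trace_z_S] at h3
    norm_num at h3
  · exfalso
    have h1 := htr' (dbl 1 (dd 2 (by norm_num)))
    rw [dbl_z_right, hm, map_zpow, dbl_B, dd_zpow, trace_dd, trace_one2] at h1
    have h2 := zpow_val0 2 (by norm_num) m h1
    have h3 := htr' rhoS
    rw [hm, h2, zpow_zero, map_one, trace_one2, trace_z_S] at h3
    norm_num at h3
  · -- the exponent sums vanish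
    have hs1 : (L.map Prod.fst).sum = 0 := by
      have h1 := htr' (dbl (dd 2 (by norm_num)) 1)
      rw [dbl_z_left, hwL, dbl_wd_left, dd_zpow, trace_dd, trace_one2] at h1
      exact zpow_val0 2 (by norm_num) _ h1
    have hs2 : (L.map Prod.snd).sum = 0 := by
      have h1 := htr' (dbl 1 (dd 2 (by norm_num)))
      rw [dbl_z_right, hwL, dbl_wd_right, dd_zpow, trace_dd, trace_one2] at h1
      exact zpow_val0 2 (by norm_num) _ h1
    -- the growth rates agree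
    set T : ℝ → ℝ := fun μ => if hμ : μ ≠ 0 then (mt (fam μ hμ gz)).trace else 0 with hT
    have hLim1 : Tendsto (fun μ : ℝ => (μ ^ blen L)⁻¹ * T μ) atTop (𝓝 (Lam L).trace) := by
      refine (trace_limit L (fun p hp => (hL p hp).2)).congr' ?_
      filter_upwards [eventually_gt_atTop (0 : ℝ)] with μ hμ0
      rw [dif_pos hμ0.ne', ← hwL, htr', hT]
      show _ = _ * (if hμ : μ ≠ 0 then (mt (fam μ hμ gz)).trace else 0)
      rw [dif_pos hμ0.ne']
    have hLim2 : Tendsto (fun μ : ℝ => (μ ^ 2)⁻¹ * T μ) atTop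
        (𝓝 (Lam [(1, 1), (-1, -1)]).trace) := by
      refine (trace_limit [(1, 1), (-1, -1)] (by decide)).congr' ?_
      filter_upwards [eventually_gt_atTop (0 : ℝ)] with μ hμ0
      rw [dif_pos hμ0.ne', ← gz_wd, blen_pair, hT]
      show _ = _ * (if hμ : μ ≠ 0 then (mt (fam μ hμ gz)).trace else 0)
      rw [dif_pos hμ0.ne']
    obtain ⟨hb, hlim⟩ := growth_eq T _ _ _ _ (Lam_trace_ne L hL0 (fun p hp => (hL p hp).1))
      (Lam_trace_ne _ (by simp) (by decide)) hLim1 hLim2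
    -- the word has two syllables
    obtain ⟨n, δ, hδ, rfl⟩ : ∃ n δ : ℤ, (δ = 1 ∨ δ = -1) ∧ L = [(n, δ), (-n, -δ)] := by
      match L, hL0, hL, hs1, hs2, hb with
      | [], h0, _, _, _, _ => exact absurd rfl h0
      | [p], _, hL, hs1, _, _ =>
        exfalso
        apply (hL p (by simp)).1
        simpa using hs1
      | [p, q], _, hL, hs1, hs2, hb =>
        have hp := hL p (by simp)
        have hq := hL q (by simp)
        simp only [List.map_cons, List.map_nil, List.sum_cons, List.sum_nil] at hs1 hs2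
        simp only [blen, List.map_cons, List.map_nil, List.sum_cons, List.sum_nil] at hb
        refine ⟨p.1, p.2, ?_, ?_⟩
        · have := Int.natAbs_pos.mpr hp.2
          have := Int.natAbs_pos.mpr hq.2
          omega
        · have e1 : q.1 = -p.1 := by omega
          have e2 : q.2 = -p.2 := by omega
          rw [← e1, ← e2]
      | p :: q :: r :: L', _, hL, _, _, hb =>
        exfalso
        have hp := Int.natAbs_pos.mpr (hL p (by simp)).2
        have hq := Int.natAbs_pos.mpr (hL q (by simp)).2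
        have hr := Int.natAbs_pos.mpr (hL r (by simp)).2
        rw [blen_cons, blen_cons, blen_cons] at hb
        omega
    -- the exponents of `a` are `±1`
    have hn : n = 1 ∨ n = -1 := by
      have h0 := Lam_pair_trace 1 1 (Or.inl rfl)
      rw [Lam_pair_trace n δ hδ, h0] at hlim
      have hy : (0 : ℝ) < 3 ^ n := by positivity
      have h4 : (3 : ℝ) ^ n * ((3 : ℝ) ^ n)⁻¹ = 1 := mul_inv_cancel₀ hy.ne'
      have hz : (0 : ℝ) < ((3 : ℝ) ^ n)⁻¹ := by positivity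
      apply zpow_val 3 (by norm_num) n
      have h5 : ((3 : ℝ) ^ n + ((3 : ℝ) ^ n)⁻¹) ^ 2 = (3 + 3⁻¹) ^ 2 := by
        norm_num at hlim ⊢
        linear_combination (1 / 2) * hlim + 4 * h4
      have h6 := (sq_eq_sq₀ (by positivity) (by positivity)).mp h5
      exact h6
    -- the four cases
    rcases hn with rfl | rfl <;> rcases hδ with rfl | rfl
    · left
      refine ⟨h⁻¹, ?_⟩
      have := hback _ hwL
      rwa [show wd [((1 : ℤ), (1 : ℤ)), (-1, -1)] = gz from gz_wd.symm] at this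
    · right
      refine ⟨h⁻¹ * gB⁻¹, ?_⟩
      rw [hback _ hwL, wd_cons, wd_cons, wd_nil, gz]
      group
    · right
      refine ⟨h⁻¹ * gA⁻¹, ?_⟩
      rw [hback _ hwL, wd_cons, wd_cons, wd_nil, gz]
      group
    · left
      refine ⟨h⁻¹ * gA⁻¹ * gB⁻¹, ?_⟩
      rw [hback _ hwL, wd_cons, wd_cons, wd_nil, gz]
      group

end Pool.Agent.MP_dd334f_gt
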