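import Pool.Agent.Lib.MP_dd334f_gt.Main

open Matrix
open scoped MatrixGroups

namespace Pool.Agent.MP_dd334f_gt

/-! ### An explicit Fuchsian representation and its bending -/

noncomputable def mA : SL(2, ℝ) := ⟨!![-6, 5; -2, 3 / 2], by norm_num [Matrix.det_fin_two]⟩
noncomputable def mB : SL(2, ℝ) := ⟨!![1, -5 / 2; 2, -4], by norm_num [Matrix.det_fin_two]⟩
noncomputable def mC (τ : ℝ) (hτ : τ ≠ 0) : SL(2, ℝ) :=
  ⟨!![3 / 2, 2 * τ; -5 / τ, -6], by rw [Matrix.det_fin_two]; simp; field_simp; norm_num⟩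
noncomputable def mD (τ : ℝ) (hτ : τ ≠ 0) : SL(2, ℝ) :=
  ⟨!![-4, -2 * τ; 5 / (2 * τ), 1], by rw [Matrix.det_fin_two]; simp; field_simp; norm_num⟩

theorem coe_mA : mt mA = !![-6, 5; -2, 3 / 2] := rfl
theorem coe_mB : mt mB = !![1, -5 / 2; 2, -4] := rfl
theorem coe_mC (τ : ℝ) (hτ : τ ≠ 0) : mt (mC τ hτ) = !![3 / 2, 2 * τ; -5 / τ, -6] := rfl
theorem coe_mD (τ : ℝ) (hτ : τ ≠ 0) : mt (mD τ hτ) = !![-4, -2 * τ; 5 / (2 * τ), 1] := rfl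

theorem coe_mA_inv : mt mA⁻¹ = !![3 / 2, -5; 2, -6] := by
  rw [mt, Matrix.SpecialLinearGroup.coe_inv]
  show adjugate (mt mA) = _
  rw [coe_mA, Matrix.adjugate_fin_two]; simp
theorem coe_mB_inv : mt mB⁻¹ = !![-4, 5 / 2; -2, 1] := by
  rw [mt, Matrix.SpecialLinearGroup.coe_inv]
  show adjugate (mt mB) = _
  rw [coe_mB, Matrix.adjugate_fin_two]; simp; norm_num
theorem coe_mC_inv (τ : ℝ) (hτ : τ ≠ 0) : mt (mC τ hτ)⁻¹ = !![-6, -2 * τ; 5 / τ, 3 / 2] := by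
  rw [mt, Matrix.SpecialLinearGroup.coe_inv]
  show adjugate (mt (mC τ hτ)) = _
  rw [coe_mC, Matrix.adjugate_fin_two]; simp; ring
theorem coe_mD_inv (τ : ℝ) (hτ : τ ≠ 0) : mt (mD τ hτ)⁻¹ = !![1, 2 * τ; -5 / (2 * τ), -4] := by
  rw [mt, Matrix.SpecialLinearGroup.coe_inv]
  show adjugate (mt (mD τ hτ)) = _
  rw [coe_mD, Matrix.adjugate_fin_two]; simp; ring

theorem comm_AB : mt (mA * mB * mA⁻¹ * mB⁻¹) = !![-4, 0; 0, -1 / 4] := by
  rw [Aff.mt_mul, Aff.mt_mul, Aff.mt_mul, coe_mA, coe_mB, coe_mA_inv, coe_mB_inv]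
  ext i j
  fin_cases i <;> fin_cases j <;> norm_num [Matrix.mul_apply, Fin.sum_univ_succ]

theorem comm_CD (τ : ℝ) (hτ : τ ≠ 0) :
    mt (mC τ hτ * mD τ hτ * (mC τ hτ)⁻¹ * (mD τ hτ)⁻¹) = !![-1 / 4, 0; 0, -4] := by
  rw [Aff.mt_mul, Aff.mt_mul, Aff.mt_mul, coe_mC, coe_mD, coe_mC_inv, coe_mD_inv]
  ext i j
  fin_cases i <;> fin_cases j <;> simp [Matrix.mul_apply, Fin.sum_univ_succ] <;> field_simp <;> norm_num

noncomputable def bendVal (τ : ℝ) (hτ : τ ≠ 0) : Fin 4 → SL(2, ℝ) := ![mA, mB, mC τ hτ, mD τ hτ]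

theorem bend_relator (τ : ℝ) (hτ : τ ≠ 0) :
    ∀ r ∈ ({relator} : Set (FreeGroup (Fin 4))), FreeGroup.lift (bendVal τ hτ) r = 1 := by
  intro r hr
  rw [Set.mem_singleton_iff] at hr
  subst hr
  simp only [relator, map_mul, map_inv, FreeGroup.lift_apply_of]
  apply Subtype.ext
  show mt (mA * mB * mA⁻¹ * mB⁻¹ * (mC τ hτ * mD τ hτ * (mC τ hτ)⁻¹ * (mD τ hτ)⁻¹)) = _
  rw [Aff.mt_mul, comm_AB, comm_CD]
  ext i j
  fin_cases i <;> fin_cases j <;> norm_num [Matrix.mul_apply, Fin.sum_univ_succ]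

/-- The bent representations; `bend 1` is Fuchsian. -/
noncomputable def bend (τ : ℝ) (hτ : τ ≠ 0) : SurfGrp →* SL(2, ℝ) :=
  PresentedGroup.toGroup (bend_relator τ hτ)

theorem bend_A (τ : ℝ) (hτ : τ ≠ 0) : bend τ hτ gA = mA := PresentedGroup.toGroup.of _
theorem bend_B (τ : ℝ) (hτ : τ ≠ 0) : bend τ hτ gB = mB := PresentedGroup.toGroup.of _
theorem bend_C (τ : ℝ) (hτ : τ ≠ 0) : bend τ hτ gC = mC τ hτ := PresentedGroup.toGroup.of _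
theorem bend_D (τ : ℝ) (hτ : τ ≠ 0) : bend τ hτ gD = mD τ hτ := PresentedGroup.toGroup.of _

/-- The base representation. -/
noncomputable def rhoS : SurfGrp →* SL(2, ℝ) := bend 1 one_ne_zero

theorem rhoS_A : rhoS gA = mA := bend_A _ _
theorem rhoS_B : rhoS gB = mB := bend_B _ _

/-- The separating element `z = a b a⁻¹ b⁻¹`. -/
def gz : SurfGrp := gA * gB * gA⁻¹ * gB⁻¹

theorem rhoS_z : mt (rhoS gz) = !![-4, 0; 0, -1 / 4] := by
  rw [gz, map_mul, map_mul, map_mul, map_inv, map_inv, rhoS_A, rhoS_B]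
  exact comm_AB

end Pool.Agent.MP_dd334f_gt
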