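import Pool.Agent.Lib.MP_dd334f_gt.FreeTrace

open Matrix
open scoped MatrixGroups

namespace Pool.Agent.MP_dd334f_gt

/-! ### Elements with the traces of `a` or of `a b a⁻¹ b⁻¹` -/

theorem single_relator (P : SL(2, ℝ)) :
    ∀ r ∈ ({relator} : Set (FreeGroup (Fin 4))), FreeGroup.lift ![P, 1, 1, 1] r = 1 := by
  intro r hr
  rw [Set.mem_singleton_iff] at hr
  subst hr
  simp only [relator, map_mul, map_inv, FreeGroup.lift_apply_of]
  show P * 1 * P⁻¹ * 1⁻¹ * (1 * 1 * 1⁻¹ * 1⁻¹) = 1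
  group

/-- The representation `a ↦ P`, `b, c, d ↦ 1`. -/
def single (P : SL(2, ℝ)) : SurfGrp →* SL(2, ℝ) := PresentedGroup.toGroup (single_relator P)

theorem single_A (P : SL(2, ℝ)) : single P gA = P := PresentedGroup.toGroup.of _
theorem single_B (P : SL(2, ℝ)) : single P gB = 1 := PresentedGroup.toGroup.of _
theorem single_C (P : SL(2, ℝ)) : single P gC = 1 := PresentedGroup.toGroup.of _
theorem single_D (P : SL(2, ℝ)) : single P gD = 1 := PresentedGroup.toGroup.of _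

theorem single_SB (P : SL(2, ℝ)) (β : SurfGrp) (h : β ∈ SB) : single P β = 1 := by
  have h1 : SB ≤ (single P).ker := by
    rw [SB, Subgroup.closure_le]
    rintro x (rfl | rfl)
    · exact single_C P
    · exact single_D P
  exact h1 h

theorem bend_trace_const (w g : SurfGrp) (hg : g ∈ SA)
    (htr : ∀ ρ : SurfGrp →* SL(2, ℝ), (mt (ρ w)).trace = (mt (ρ g)).trace) :
    ∃ k, k * w * k⁻¹ ∈ SA ∨ k * w * k⁻¹ ∈ SB := by
  apply conj_mem_of_const w (mt (rhoS g)).trace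
  intro τ hτ
  rw [htr, bend_SA τ _ g hg]

theorem all_trace_a (w : SurfGrp)
    (htr : ∀ ρ : SurfGrp →* SL(2, ℝ), (mt (ρ w)).trace = (mt (ρ gA)).trace) :
    (∃ h, w = h * gA * h⁻¹) ∨ ∃ h, w = h * gA⁻¹ * h⁻¹ := by
  obtain ⟨k, hk⟩ := bend_trace_const w gA gA_mem htr
  have htr' : ∀ ρ : SurfGrp →* SL(2, ℝ), (mt (ρ (k * w * k⁻¹))).trace = (mt (ρ gA)).trace := by
    intro ρ
    rw [map_mul, map_mul, map_inv, trace_conj2, htr]
  rcases hk with hk | hk
  · rcases same_trace_a _ hk htr' with ⟨h, hh⟩ | ⟨h, hh⟩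
    · left
      refine ⟨k⁻¹ * h, ?_⟩
      have : w = k⁻¹ * (k * w * k⁻¹) * k := by group
      rw [this, hh]; group
    · right
      refine ⟨k⁻¹ * h, ?_⟩
      have : w = k⁻¹ * (k * w * k⁻¹) * k := by group
      rw [this, hh]; group
  · exfalso
    have h1 := htr' (single (dd 2 (by norm_num)))
    rw [single_SB _ _ hk, single_A, trace_dd, trace_one2] at h1
    norm_num at h1

theorem trace_inv2 (g : SL(2, ℝ)) : (mt g⁻¹).trace = (mt g).trace := by
  rw [mt_inv, Matrix.trace_sub, Matrix.trace_smul, Matrix.trace_one]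
  simp
  ring

theorem all_trace_z (w : SurfGrp)
    (htr : ∀ ρ : SurfGrp →* SL(2, ℝ), (mt (ρ w)).trace = (mt (ρ gz)).trace) :
    (∃ h, w = h * gz * h⁻¹) ∨ ∃ h, w = h * gz⁻¹ * h⁻¹ := by
  obtain ⟨k, hk⟩ := bend_trace_const w gz gz_mem_SA htr
  have htr' : ∀ ρ : SurfGrp →* SL(2, ℝ), (mt (ρ (k * w * k⁻¹))).trace = (mt (ρ gz)).trace := by
    intro ρ
    rw [map_mul, map_mul, map_inv, trace_conj2, htr]
  have hw : w = k⁻¹ * (k * w * k⁻¹) * k := by group
  rcases hk with hk | hk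
  · rcases same_trace_z _ hk htr' with ⟨h, hh⟩ | ⟨h, hh⟩
    · left
      refine ⟨k⁻¹ * h, ?_⟩
      rw [hw, hh]; group
    · right
      refine ⟨k⁻¹ * h, ?_⟩
      rw [hw, hh]; group
  · have htr'' : ∀ ρ : SurfGrp →* SL(2, ℝ),
        (mt (ρ (swapHom (k * w * k⁻¹)))).trace = (mt (ρ gz)).trace := by
      intro ρ
      have h1 := htr' (ρ.comp swapHom)
      rw [MonoidHom.comp_apply, MonoidHom.comp_apply, swap_z, map_inv, trace_inv2] at h1
      exact h1
    have hss := swap_swap (k * w * k⁻¹)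
    rcases same_trace_z _ (swap_mem_SA hk) htr'' with ⟨h, hh⟩ | ⟨h, hh⟩
    · right
      refine ⟨k⁻¹ * swapHom h, ?_⟩
      rw [hw, ← hss, hh, map_mul, map_mul, map_inv, swap_z]; group
    · left
      refine ⟨k⁻¹ * swapHom h, ?_⟩
      rw [hw, ← hss, hh, map_mul, map_mul, map_inv, map_inv, swap_z]; group

/-! ### Orders -/

theorem gA_pow_ne (n : ℕ) (hn : n ≠ 0) : gA ^ n ≠ 1 := by
  intro h
  have h1 : mt (dbl (dd 2 (by norm_num)) 1 (gA ^ n)) = mt (dbl (dd 2 (by norm_num)) 1 1) := by rw [h]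
  rw [map_pow, dbl_A, map_one, ← zpow_natCast, dd_zpow] at h1
  have h2 := congrArg Matrix.trace h1
  rw [trace_dd, trace_one2] at h2
  have := zpow_val0 2 (by norm_num) _ h2
  exact hn (by exact_mod_cast this)

theorem gz_pow_ne (n : ℕ) (hn : n ≠ 0) : gz ^ n ≠ 1 := by
  intro h
  have h1 : mt (rhoS (gz ^ (n : ℤ))) = mt (rhoS 1) := by rw [zpow_natCast, h]
  rw [rhoS_zpow, map_one, Aff.mt_one] at h1
  have h2 := congrArg (fun M : Matrix (Fin 2) (Fin 2) ℝ => M 0 0) h1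
  simp at h2
  have h3 : |(-4 : ℝ) ^ n| = 1 := by rw [h2]; simp
  rw [abs_pow, show |(-4 : ℝ)| = 4 by norm_num] at h3
  have h4 : (1 : ℝ) < 4 ^ n := one_lt_pow₀ (by norm_num) hn
  linarith

/-! ### Simple elements are good -/

theorem good_of_simple (γ : SurfGrp) (h : IsSimple γ) : GoodClass γ := by
  obtain ⟨φ, hφ⟩ := h
  have main : ∀ g : SurfGrp, φ γ = g → (∀ n : ℕ, n ≠ 0 → g ^ n ≠ 1) →
      (∀ w : SurfGrp, (∀ ρ : SurfGrp →* SL(2, ℝ), (mt (ρ w)).trace = (mt (ρ g)).trace) →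
        (∃ h, w = h * g * h⁻¹) ∨ ∃ h, w = h * g⁻¹ * h⁻¹) → GoodClass γ := by
    intro g hg hord hall
    have hpow : ∀ n : ℕ, n ≠ 0 → γ ^ n ≠ 1 := by
      intro n hn h1
      apply hord n hn
      rw [← hg, ← map_pow, h1, map_one]
    refine Or.inr ⟨?_, ?_, hpow 2 (by norm_num), hpow 3 (by norm_num)⟩
    · have htr : ∀ ρ : SurfGrp →* SL(2, ℝ),
          (mt (ρ (φ (iotaHom γ)))).trace = (mt (ρ g)).trace := by
        intro ρ
        have h1 := trace_iota (ρ.comp φ.toMonoidHom) γ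
        rw [MonoidHom.comp_apply, MonoidHom.comp_apply] at h1
        rw [← hg]
        exact h1
      rcases hall _ htr with ⟨k, hk⟩ | ⟨k, hk⟩
      · left
        refine ⟨φ.symm k, ?_⟩
        apply φ.injective
        rw [map_mul, map_mul, map_inv, MulEquiv.apply_symm_apply, hg, hk]
      · right
        refine ⟨φ.symm k, ?_⟩
        apply φ.injective
        rw [map_mul, map_mul, map_inv, map_inv, MulEquiv.apply_symm_apply, hg, hk]
    · have := hpow 1 one_ne_zero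
      rwa [pow_one] at this
  rcases hφ with hφ | hφ | hφ
  · left
    rw [← φ.map_one] at hφ
    exact φ.injective hφ
  · exact main gA hφ gA_pow_ne all_trace_a
  · exact main gz hφ gz_pow_ne all_trace_z

theorem not_spansAt' (ρt : SurfGrp →* SL(2, ℝ)) (hinj : Function.Injective (proj2 ρt))
    (F : Set (DiffClassFn 4)) : ¬ SpansAt F (irrPSL.comp (proj2 ρt)) :=
  not_spansAt ρt hinj good_of_simple F

end Pool.Agent.MP_dd334f_gt
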