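import Pool.Agent.Lib.MP_dd334f_gt.Defs

open Matrix
open scoped MatrixGroups

namespace Pool.Agent.MP_dd334f_gt

/-- The space `ℝ⁷` of Hankel parameters. -/
abbrev R7 : Type := Fin 7 → ℝ

/-- The `4 × 4` Hankel matrix with parameters `a`. -/
def Hank (a : R7) : Matrix (Fin 4) (Fin 4) ℝ :=
  !![a 0, a 1, a 2, a 3; a 1, a 2, a 3, a 4; a 2, a 3, a 4, a 5; a 3, a 4, a 5, a 6]

/-- The invariant symplectic form. -/
def Om : Matrix (Fin 4) (Fin 4) ℝ :=
  !![0, 0, 0, 1; 0, 0, -3, 0; 0, 3, 0, 0; -1, 0, 0, 0]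

theorem Hank_add (a b : R7) : Hank (a + b) = Hank a + Hank b := by
  ext i j; fin_cases i <;> fin_cases j <;> simp [Hank]

theorem Hank_smul (t : ℝ) (a : R7) : Hank (t • a) = t • Hank a := by
  ext i j; fin_cases i <;> fin_cases j <;> simp [Hank]

theorem Hank_inj {a b : R7} (h : Hank a = Hank b) : a = b := by
  funext k
  fin_cases k
  · exact congrFun (congrFun h 0) 0
  · exact congrFun (congrFun h 0) 1
  · exact congrFun (congrFun h 0) 2
  · exact congrFun (congrFun h 0) 3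
  · exact congrFun (congrFun h 1) 3
  · exact congrFun (congrFun h 2) 3
  · exact congrFun (congrFun h 3) 3

/-- Read off Hankel parameters from a `4 × 4` matrix. -/
def hpar (M : Matrix (Fin 4) (Fin 4) ℝ) : R7 :=
  ![M 0 0, M 0 1, M 0 2, M 0 3, M 1 3, M 2 3, M 3 3]

/-- The action of `2 × 2` matrices on Hankel parameters. -/
def T (h : Matrix (Fin 2) (Fin 2) ℝ) : R7 →ₗ[ℝ] R7 where
  toFun a := hpar (sym3 h * Hank a * (sym3 h)ᵀ)
  map_add' a b := by
    rw [Hank_add, mul_add, add_mul]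
    funext k; fin_cases k <;> rfl
  map_smul' t a := by
    rw [Hank_smul, Matrix.mul_smul, Matrix.smul_mul]
    funext k; fin_cases k <;> rfl

theorem T_apply (h : Matrix (Fin 2) (Fin 2) ℝ) (a : R7) :
    T h a = hpar (sym3 h * Hank a * (sym3 h)ᵀ) := rfl

theorem Hank_T (h : Matrix (Fin 2) (Fin 2) ℝ) (a : R7) :
    Hank (T h a) = sym3 h * Hank a * (sym3 h)ᵀ := by
  rw [T_apply]
  ext i j
  fin_cases i <;> fin_cases j <;>
    first
    | rfl
    | (simp [Hank, hpar, sym3, Matrix.mul_apply, Fin.sum_univ_succ]; ring)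

theorem T_mul (g h : Matrix (Fin 2) (Fin 2) ℝ) (a : R7) : T (g * h) a = T g (T h a) := by
  apply Hank_inj
  rw [Hank_T, Hank_T, Hank_T, sym3_mul, Matrix.transpose_mul]
  simp only [Matrix.mul_assoc]

theorem T_one (a : R7) : T 1 a = a := by
  apply Hank_inj
  rw [Hank_T, sym3_one]; simp

theorem T_smul (t : ℝ) (h : Matrix (Fin 2) (Fin 2) ℝ) (a : R7) : T (t • h) a = t ^ 6 • T h a := by
  apply Hank_inj
  rw [Hank_T, Hank_smul, Hank_T, sym3_smul, Matrix.transpose_smul, Matrix.smul_mul,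
    Matrix.smul_mul, Matrix.mul_smul, smul_smul]
  congr 1; ring

theorem Om_sym3_adjugate (h : Matrix (Fin 2) (Fin 2) ℝ) :
    Om * sym3 (adjugate h) = (sym3 h)ᵀ * Om := by
  ext i j
  fin_cases i <;> fin_cases j <;>
    simp [Om, sym3, Matrix.mul_apply, Fin.sum_univ_succ, Matrix.adjugate_fin_two] <;> ring

theorem trace_Hank_Om (a : R7) : (Hank a * Om).trace = 0 := by
  simp [Hank, Om, Matrix.trace, Fin.sum_univ_succ]

/-- The embedding of `ℝ⁷` in `sl(4, ℝ)`. -/
def VK : R7 →ₗ[ℝ] sl 4 where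
  toFun a := ⟨Hank a * Om, mem_sl.mpr (trace_Hank_Om a)⟩
  map_add' a b := by
    apply Subtype.ext
    show Hank (a + b) * Om = Hank a * Om + Hank b * Om
    rw [Hank_add, add_mul]
  map_smul' t a := by
    apply Subtype.ext
    show Hank (t • a) * Om = t • (Hank a * Om)
    rw [Hank_smul, Matrix.smul_mul]

theorem coe_VK (a : R7) : ((VK a : sl 4) : Matrix (Fin 4) (Fin 4) ℝ) = Hank a * Om := rfl

/-- Elements of the image of `VK` lie in the symplectic Lie algebra of `Om`. -/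
theorem VK_symplectic (a : R7) :
    (Hank a * Om)ᵀ * Om = - (Om * (Hank a * Om)) := by
  ext i j
  fin_cases i <;> fin_cases j <;>
    simp [Om, Hank, Matrix.mul_apply, Fin.sum_univ_succ] <;> ring

/-- The equivariant projection `M₄(ℝ) → ℝ⁷`. -/
noncomputable def prj : Matrix (Fin 4) (Fin 4) ℝ →ₗ[ℝ] R7 where
  toFun X :=
    let M := Om * X
    ![-(M 3 3), (M 2 3 + M 3 2) / 6, -(M 1 3 + M 2 2 + M 3 1) / 15,
      (M 0 3 + M 1 2 + M 2 1 + M 3 0) / 20, -(M 0 2 + M 1 1 + M 2 0) / 15,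
      (M 0 1 + M 1 0) / 6, -(M 0 0)]
  map_add' X Y := by
    simp only [mul_add]
    funext k; fin_cases k <;> simp <;> ring
  map_smul' t X := by
    simp only [Matrix.mul_smul]
    funext k; fin_cases k <;> simp <;> ring

theorem prj_apply (X : Matrix (Fin 4) (Fin 4) ℝ) :
    prj X = ![-((Om * X) 3 3), ((Om * X) 2 3 + (Om * X) 3 2) / 6,
      -((Om * X) 1 3 + (Om * X) 2 2 + (Om * X) 3 1) / 15,
      ((Om * X) 0 3 + (Om * X) 1 2 + (Om * X) 2 1 + (Om * X) 3 0) / 20,
      -((Om * X) 0 2 + (Om * X) 1 1 + (Om * X) 2 0) / 15,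
      ((Om * X) 0 1 + (Om * X) 1 0) / 6, -((Om * X) 0 0)] := rfl

theorem prj_VK (a : R7) : prj (Hank a * Om) = a := by
  rw [prj_apply]
  funext k
  fin_cases k <;> simp [Om, Hank, Matrix.mul_apply, Fin.sum_univ_succ] <;> ring

theorem Om_conj (h : Matrix (Fin 2) (Fin 2) ℝ) (X : Matrix (Fin 4) (Fin 4) ℝ) :
    Om * (sym3 h * X * sym3 (adjugate h)) =
      (sym3 (adjugate h))ᵀ * (Om * X) * sym3 (adjugate h) := by
  have h1 : Om * sym3 h = (sym3 (adjugate h))ᵀ * Om := by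
    have := Om_sym3_adjugate (adjugate h)
    rwa [Matrix.adjugate_adjugate _ (by simp), Fintype.card_fin, pow_zero, one_smul] at this
  calc Om * (sym3 h * X * sym3 (adjugate h)) = (Om * sym3 h) * X * sym3 (adjugate h) := by
        simp only [Matrix.mul_assoc]
    _ = _ := by rw [h1]; simp only [Matrix.mul_assoc]

theorem prj_conj (h : Matrix (Fin 2) (Fin 2) ℝ) (X : Matrix (Fin 4) (Fin 4) ℝ) :
    prj (sym3 h * X * sym3 (adjugate h)) = T h (prj X) := by
  rw [T_apply, prj_apply, prj_apply, Om_conj]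
  generalize Om * X = M
  funext k
  fin_cases k <;> simp [sym3, Hank, hpar, Matrix.adjugate_fin_two, Matrix.mul_apply, Fin.sum_univ_succ]
  all_goals ring

end Pool.Agent.MP_dd334f_gt
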