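import Pool.Agent.Lib.MP_dd334f_gt.Surface

open Matrix
open scoped MatrixGroups

namespace Pool.Agent.MP_dd334f_gt

/-! ### Intertwiners between a representation and its composite with the involution -/

section
variable (X : Fin 4 → SL(2, ℝ))

/-- Shorthand for the underlying matrix. -/
abbrev mt (g : SL(2, ℝ)) : Matrix (Fin 2) (Fin 2) ℝ := (g : Matrix (Fin 2) (Fin 2) ℝ)

theorem mt_inv (g : SL(2, ℝ)) : mt g⁻¹ = (mt g).trace • (1 : Matrix (Fin 2) (Fin 2) ℝ) - mt g := by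
  rw [mt, Matrix.SpecialLinearGroup.coe_inv, Matrix.adjugate_fin_two]
  ext i j
  fin_cases i <;> fin_cases j <;> simp [Matrix.trace_fin_two]

theorem trace_conj2 (g h : SL(2, ℝ)) : (mt (g * h * g⁻¹)).trace = (mt h).trace := by
  simp only [mt, Matrix.SpecialLinearGroup.coe_mul]
  rw [Matrix.trace_mul_comm, ← Matrix.mul_assoc, ← Matrix.SpecialLinearGroup.coe_mul,
    inv_mul_cancel, Matrix.SpecialLinearGroup.coe_one, Matrix.one_mul]

theorem trace_conj2' (g h : SL(2, ℝ)) : (mt (g⁻¹ * h * g)).trace = (mt h).trace := by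
  have := trace_conj2 g⁻¹ h
  rwa [inv_inv] at this

/-- Reduction of a trace of a product with an inverse. -/
theorem trace_mul_inv (g h : SL(2, ℝ)) :
    (mt (g * h⁻¹)).trace = (mt g).trace * (mt h).trace - (mt (g * h)).trace := by
  simp only [mt, Matrix.SpecialLinearGroup.coe_mul]
  have := mt_inv h
  simp only [mt] at this
  rw [this, Matrix.mul_sub, Matrix.trace_sub, Matrix.mul_smul, Matrix.trace_smul, Matrix.mul_one]
  simp [mul_comm]

theorem trace_comm2 (g h : SL(2, ℝ)) : (mt (g * h)).trace = (mt (h * g)).trace := by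
  simp only [mt, Matrix.SpecialLinearGroup.coe_mul]
  exact Matrix.trace_mul_comm _ _

variable {X}

/-- The four triple-product identities. -/
theorem triple_012 (h : X 0 * X 1 * X 2 * X 3 = X 3 * X 2 * X 1 * X 0) :
    (mt (X 0 * X 1 * X 2)).trace = (mt (X 2 * X 1 * X 0)).trace := by
  have : X 0 * X 1 * X 2 = X 3 * (X 2 * X 1 * X 0) * (X 3)⁻¹ := by
    rw [eq_mul_inv_iff_mul_eq, h]; group
  rw [this, trace_conj2]

theorem triple_123 (h : X 0 * X 1 * X 2 * X 3 = X 3 * X 2 * X 1 * X 0) :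
    (mt (X 1 * X 2 * X 3)).trace = (mt (X 3 * X 2 * X 1)).trace := by
  have : X 1 * X 2 * X 3 = (X 0)⁻¹ * (X 3 * X 2 * X 1) * X 0 := by
    have h2 : (X 0)⁻¹ * (X 3 * X 2 * X 1) * X 0 = (X 0)⁻¹ * (X 3 * X 2 * X 1 * X 0) := by group
    rw [h2, ← h]; group
  rw [this, trace_conj2']

theorem triple_230 (h : X 0 * X 1 * X 2 * X 3 = X 3 * X 2 * X 1 * X 0) :
    (mt (X 2 * X 3 * X 0)).trace = (mt (X 3 * X 2 * X 0)).trace := by
  have h1 : X 2 * X 3 * (X 0)⁻¹ = (X 1)⁻¹ * ((X 0)⁻¹ * (X 3 * X 2)) * X 1 := by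
    have h2 : X 2 * X 3 = (X 1)⁻¹ * (X 0)⁻¹ * (X 3 * X 2 * X 1 * X 0) := by rw [← h]; group
    rw [h2]; group
  have h3 : (mt (X 2 * X 3 * (X 0)⁻¹)).trace = (mt (X 3 * X 2 * (X 0)⁻¹)).trace := by
    rw [h1, trace_conj2', trace_comm2]
  rw [trace_mul_inv, trace_mul_inv, trace_comm2 (X 2) (X 3)] at h3
  linarith

theorem triple_301 (h : X 0 * X 1 * X 2 * X 3 = X 3 * X 2 * X 1 * X 0) :
    (mt (X 3 * X 0 * X 1)).trace = (mt (X 3 * X 1 * X 0)).trace := by
  have h1 : X 3 * (X 0)⁻¹ * (X 1)⁻¹ = (X 2)⁻¹ * ((X 1)⁻¹ * (X 0)⁻¹ * X 3) * X 2 := by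
    have h2 : (X 2)⁻¹ * ((X 1)⁻¹ * (X 0)⁻¹ * X 3) * X 2 =
      (X 2)⁻¹ * (X 1)⁻¹ * (X 0)⁻¹ * (X 3 * X 2 * X 1 * X 0) * (X 0)⁻¹ * (X 1)⁻¹ := by group
    rw [h2, ← h]; group
  have h3 : (mt (X 3 * (X 0)⁻¹ * (X 1)⁻¹)).trace = (mt (X 3 * (X 1)⁻¹ * (X 0)⁻¹)).trace := by
    rw [h1, trace_conj2', trace_comm2, mul_assoc]
  rw [trace_mul_inv, trace_mul_inv, trace_mul_inv, trace_mul_inv,
    trace_comm2 (X 3 * (X 0)⁻¹), trace_comm2 (X 3 * (X 1)⁻¹), ← mul_assoc, ← mul_assoc,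
    trace_mul_inv, trace_mul_inv, trace_comm2 (X 1) (X 3), trace_comm2 (X 0) (X 3)] at h3
  have h4 : (mt (X 3 * X 0 * X 1)).trace = (mt (X 1 * X 3 * X 0)).trace := by
    rw [trace_comm2, mul_assoc]
  have h5 : (mt (X 3 * X 1 * X 0)).trace = (mt (X 0 * X 3 * X 1)).trace := by
    rw [trace_comm2, mul_assoc]
  rw [h4, h5]
  linarith

/-- All triple products have symmetric traces. -/
theorem triple_all (h : X 0 * X 1 * X 2 * X 3 = X 3 * X 2 * X 1 * X 0) (i j k : Fin 4) :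
    (mt (X i * X j * X k)).trace = (mt (X j * X i * X k)).trace := by
  have cyc : ∀ g h k : SL(2, ℝ), (mt (g * h * k)).trace = (mt (h * k * g)).trace := by
    intro g h k
    rw [mul_assoc, trace_comm2]
  have e012 := triple_012 h
  have e123 := triple_123 h
  have e230 := triple_230 h
  have e301 := triple_301 h
  have c1 := cyc (X 0) (X 1) (X 2)
  have c2 := cyc (X 1) (X 2) (X 0)
  have c3 := cyc (X 2) (X 1) (X 0)
  have c4 := cyc (X 1) (X 0) (X 2)
  have d1 := cyc (X 1) (X 2) (X 3)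
  have d2 := cyc (X 2) (X 3) (X 1)
  have d3 := cyc (X 3) (X 2) (X 1)
  have d4 := cyc (X 2) (X 1) (X 3)
  have f1 := cyc (X 2) (X 3) (X 0)
  have f2 := cyc (X 3) (X 0) (X 2)
  have f3 := cyc (X 3) (X 2) (X 0)
  have f4 := cyc (X 2) (X 0) (X 3)
  have g1 := cyc (X 3) (X 0) (X 1)
  have g2 := cyc (X 0) (X 1) (X 3)
  have g3 := cyc (X 3) (X 1) (X 0)
  have g4 := cyc (X 1) (X 0) (X 3)
  by_cases hij : i = j
  · rw [hij]
  by_cases hik : i = k
  · rw [hik, cyc (X k) (X j) (X k), cyc (X j) (X k) (X k), cyc (X k) (X k) (X j)]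
  by_cases hjk : j = k
  · rw [hjk, cyc (X i) (X k) (X k), cyc (X k) (X k) (X i)]
  fin_cases i <;> fin_cases j <;> fin_cases k <;> first
    | (exfalso; revert hij hik hjk; decide)
    | (simp only [Fin.zero_eta, Fin.mk_one, Fin.reduceFinMk]; linarith)

/-- Polarized Cayley-Hamilton for `2 × 2` matrices, one of them traceless. -/
theorem polar_CH (N M : Matrix (Fin 2) (Fin 2) ℝ) (hN : N.trace = 0) :
    N * M + M * N = M.trace • N + (N * M).trace • (1 : Matrix (Fin 2) (Fin 2) ℝ) := by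
  have h11 : N 1 1 = - N 0 0 := by
    rw [Matrix.trace_fin_two] at hN; linarith
  ext i j
  fin_cases i <;> fin_cases j <;>
    simp [Matrix.mul_apply, Matrix.trace_fin_two, Fin.sum_univ_succ, h11] <;> ring

theorem CH_SL (g : SL(2, ℝ)) :
    mt g * mt g = (mt g).trace • mt g - (1 : Matrix (Fin 2) (Fin 2) ℝ) := by
  have hdet : (mt g) 0 0 * (mt g) 1 1 - (mt g) 0 1 * (mt g) 1 0 = 1 := by
    rw [← Matrix.det_fin_two]; exact g.2
  ext i j
  fin_cases i <;> fin_cases j <;>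
    simp [Matrix.mul_apply, Matrix.trace_fin_two, Fin.sum_univ_succ] <;> linarith

/-- The commutator intertwines `X_k` and its inverse. -/
theorem inter_gen (h : X 0 * X 1 * X 2 * X 3 = X 3 * X 2 * X 1 * X 0) (i j k : Fin 4) :
    (mt (X i) * mt (X j) - mt (X j) * mt (X i)) * mt (X k) =
      mt (X k)⁻¹ * (mt (X i) * mt (X j) - mt (X j) * mt (X i)) := by
  set N := mt (X i) * mt (X j) - mt (X j) * mt (X i) with hN
  have htr : N.trace = 0 := by
    rw [hN, Matrix.trace_sub, Matrix.trace_mul_comm, sub_self]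
  have h2 : (N * mt (X k)).trace = 0 := by
    rw [hN, Matrix.sub_mul, Matrix.trace_sub]
    have := triple_all h i j k
    simp only [mt, Matrix.SpecialLinearGroup.coe_mul] at this ⊢
    rw [this, sub_self]
  have h3 := polar_CH N (mt (X k)) htr
  rw [h2, zero_smul, add_zero] at h3
  have h4 : mt (X k)⁻¹ * N = (mt (X k)).trace • N - mt (X k) * N := by
    rw [mt_inv, Matrix.sub_mul, Matrix.smul_mul, Matrix.one_mul]
  rw [h4, ← h3]
  abel

end

/-- An intertwiner on the octagon generators intertwines `ρ` and `ρ ∘ ι`. -/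
theorem inter_all (ρ : SurfGrp →* SL(2, ℝ)) (N : Matrix (Fin 2) (Fin 2) ℝ)
    (hN : ∀ k, N * mt (ρ (xg k)) = mt (ρ (xg k))⁻¹ * N) (γ : SurfGrp) :
    N * mt (ρ γ) = mt (ρ (iotaHom γ)) * N := by
  induction γ using xg_induction with
  | h1 => simp [mt]
  | hx i => rw [hN i, iotaHom_xg, map_inv]
  | hmul γ δ h1 h2 =>
    simp only [map_mul, mt, Matrix.SpecialLinearGroup.coe_mul] at *
    rw [← Matrix.mul_assoc, h1, Matrix.mul_assoc, h2, Matrix.mul_assoc]
  | hinv γ h1 =>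
    have e1 : mt (ρ γ) * mt (ρ γ)⁻¹ = 1 := by
      simp only [mt]
      rw [← Matrix.SpecialLinearGroup.coe_mul, mul_inv_cancel, Matrix.SpecialLinearGroup.coe_one]
    have e2 : mt (ρ (iotaHom γ))⁻¹ * mt (ρ (iotaHom γ)) = 1 := by
      simp only [mt]
      rw [← Matrix.SpecialLinearGroup.coe_mul, inv_mul_cancel, Matrix.SpecialLinearGroup.coe_one]
    rw [map_inv, map_inv, map_inv]
    calc N * mt (ρ γ)⁻¹ = (mt (ρ (iotaHom γ))⁻¹ * mt (ρ (iotaHom γ))) * N * mt (ρ γ)⁻¹ := by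
          rw [e2, Matrix.one_mul]
      _ = mt (ρ (iotaHom γ))⁻¹ * (mt (ρ (iotaHom γ)) * N) * mt (ρ γ)⁻¹ := by
          simp only [Matrix.mul_assoc]
      _ = mt (ρ (iotaHom γ))⁻¹ * (N * mt (ρ γ)) * mt (ρ γ)⁻¹ := by rw [h1]
      _ = mt (ρ (iotaHom γ))⁻¹ * N * (mt (ρ γ) * mt (ρ γ)⁻¹) := by simp only [Matrix.mul_assoc]
      _ = _ := by rw [e1, Matrix.mul_one]

/-- The relation for the images of the octagon generators. -/
theorem rho_relation {G : Type*} [Group G] (ρ : SurfGrp →* G) :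
    ρ (xg 0) * ρ (xg 1) * ρ (xg 2) * ρ (xg 3) = ρ (xg 3) * ρ (xg 2) * ρ (xg 1) * ρ (xg 0) := by
  simp only [← map_mul, xg_relation]

/-- The hyperelliptic involution acts trivially on the `SL(2)` characters. -/
theorem trace_iota (ρ : SurfGrp →* SL(2, ℝ)) (γ : SurfGrp) :
    (mt (ρ (iotaHom γ))).trace = (mt (ρ γ)).trace := by
  by_cases hab : ∀ i j, ρ (xg i) * ρ (xg j) = ρ (xg j) * ρ (xg i)
  · -- the image is commutative on generators
    have hc : ∀ i (δ : SurfGrp), ρ (xg i) * ρ δ = ρ δ * ρ (xg i) := by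
      intro i δ
      induction δ using xg_induction with
      | h1 => simp
      | hx j => exact hab i j
      | hmul a b ha hb => rw [map_mul, ← mul_assoc, ha, mul_assoc, hb, mul_assoc]
      | hinv a ha =>
        rw [map_inv]
        exact (Commute.inv_right (show Commute (ρ (xg i)) (ρ a) from ha))
    have hc2 : ∀ γ δ : SurfGrp, ρ γ * ρ δ = ρ δ * ρ γ := by
      intro γ δ
      induction γ using xg_induction with
      | h1 => simp
      | hx j => exact hc j δ
      | hmul a b ha hb => rw [map_mul, mul_assoc, hb, ← mul_assoc, ha, mul_assoc]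
      | hinv a ha =>
        rw [map_inv]
        exact (Commute.inv_left (show Commute (ρ a) (ρ δ) from ha))
    have hinv : ∀ γ, ρ (iotaHom γ) = (ρ γ)⁻¹ := by
      intro γ
      induction γ using xg_induction with
      | h1 => simp
      | hx j => rw [iotaHom_xg, map_inv]
      | hmul a b ha hb => rw [map_mul, map_mul, ha, hb, map_mul, _root_.mul_inv_rev, ← map_inv, ← map_inv, hc2]
      | hinv a ha => rw [map_inv, map_inv, ha, map_inv]
    rw [hinv, mt_inv, Matrix.trace_sub, Matrix.trace_smul]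
    simp; ring
  · push Not at hab
    obtain ⟨i, j, hij⟩ := hab
    set N := mt (ρ (xg i)) * mt (ρ (xg j)) - mt (ρ (xg j)) * mt (ρ (xg i)) with hN
    have hN0 : N ≠ 0 := by
      intro h0
      apply hij
      apply Subtype.ext
      rw [hN, sub_eq_zero] at h0
      simpa [mt] using h0
    have hint := inter_all ρ N (fun k => inter_gen (X := fun i => ρ (xg i)) (rho_relation ρ) i j k) γ
    clear_value N
    by_contra hne
    have h1 : N * (mt (ρ γ) * mt (ρ γ)) = (mt (ρ (iotaHom γ)) * mt (ρ (iotaHom γ))) * N := by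
      rw [← Matrix.mul_assoc, hint, Matrix.mul_assoc, hint, Matrix.mul_assoc]
    rw [CH_SL, CH_SL, Matrix.mul_sub, Matrix.sub_mul, Matrix.mul_smul, Matrix.smul_mul,
      Matrix.mul_one, Matrix.one_mul, ← hint, sub_left_inj] at h1
    have h2 : ((mt (ρ γ)).trace - (mt (ρ (iotaHom γ))).trace) • (N * mt (ρ γ)) = 0 := by
      rw [sub_smul, h1, sub_self]
    rw [smul_eq_zero] at h2
    rcases h2 with h2 | h2
    · exact hne (by linarith)
    · apply hN0
      have e1 : mt (ρ γ) * mt (ρ γ)⁻¹ = 1 := by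
        simp only [mt]
        rw [← Matrix.SpecialLinearGroup.coe_mul, mul_inv_cancel, Matrix.SpecialLinearGroup.coe_one]
      calc N = N * (mt (ρ γ) * mt (ρ γ)⁻¹) := by rw [e1, Matrix.mul_one]
        _ = 0 := by rw [← Matrix.mul_assoc, h2, Matrix.zero_mul]

end Pool.Agent.MP_dd334f_gt
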