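import Pool.Agent.Lib.MP_dd334f_gt.Classes

open Matrix
open scoped MatrixGroups

namespace Pool.Agent.MP_dd334f_gt

/-- The cyclic group generated by the separating curve. -/
def ZZ : Subgroup SurfGrp := Subgroup.zpowers gz

/-- The two handle groups. -/
def SS (b : Bool) : Subgroup SurfGrp := if b then SA else SB

theorem SS_true : SS true = SA := rfl
theorem SS_false : SS false = SB := rfl

theorem gA_mem : gA ∈ SA := Subgroup.subset_closure (by simp)
theorem gB_mem : gB ∈ SA := Subgroup.subset_closure (by simp)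
theorem gC_mem : gC ∈ SB := Subgroup.subset_closure (by simp)
theorem gD_mem : gD ∈ SB := Subgroup.subset_closure (by simp)

theorem gz_mem_SA : gz ∈ SA :=
  SA.mul_mem (SA.mul_mem (SA.mul_mem gA_mem gB_mem) (SA.inv_mem gA_mem)) (SA.inv_mem gB_mem)

theorem gz_mem_SB : gz ∈ SB := by
  rw [z_eq]
  exact SB.inv_mem
    (SB.mul_mem (SB.mul_mem (SB.mul_mem gC_mem gD_mem) (SB.inv_mem gC_mem)) (SB.inv_mem gD_mem))

theorem ZZ_le (b : Bool) : ZZ ≤ SS b := by
  rw [ZZ, Subgroup.zpowers_le]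
  cases b
  · exact gz_mem_SB
  · exact gz_mem_SA

theorem mem_ZZ {g : SurfGrp} : g ∈ ZZ ↔ ∃ k : ℤ, g = gz ^ k := by
  rw [ZZ, Subgroup.mem_zpowers_iff]
  constructor
  · rintro ⟨k, rfl⟩; exact ⟨k, rfl⟩
  · rintro ⟨k, rfl⟩; exact ⟨k, rfl⟩

theorem swap_mem_ZZ {g : SurfGrp} (h : swapHom g ∈ ZZ) : g ∈ ZZ := by
  rw [mem_ZZ] at h ⊢
  obtain ⟨k, hk⟩ := h
  refine ⟨-k, ?_⟩
  rw [← swap_swap g, hk, map_zpow, swap_z, _root_.inv_zpow']

theorem closure_SS : Subgroup.closure ((SS true : Set SurfGrp) ∪ SS false) = ⊤ := by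
  rw [eq_top_iff, ← PresentedGroup.closure_range_of, Subgroup.closure_le]
  rintro _ ⟨i, rfl⟩
  fin_cases i
  · exact Subgroup.subset_closure (Or.inl gA_mem)
  · exact Subgroup.subset_closure (Or.inl gB_mem)
  · exact Subgroup.subset_closure (Or.inr gC_mem)
  · exact Subgroup.subset_closure (Or.inr gD_mem)

/-- Letters of the first handle have the first pattern. -/
theorem lettA (α : SurfGrp) (h : α ∈ SA) (hz : α ∉ ZZ) : Cl true true (mt (rhoS α)) := by
  apply Cl_of_geom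
  rcases SA_dichotomy α h with hk | hg
  · exact absurd (mem_ZZ.mpr hk) hz
  · exact hg

theorem coe_mR : mt mR = !![0, 1; -1, 0] := rfl
theorem coe_mR_inv : mt mR⁻¹ = !![0, -1; 1, 0] := by
  rw [mt, Matrix.SpecialLinearGroup.coe_inv]
  show adjugate (mt mR) = _
  rw [coe_mR, Matrix.adjugate_fin_two]; simp

/-- The matrix of the swapped element. -/
theorem rhoS_swap_coe (γ : SurfGrp) : mt (rhoS (swapHom γ)) =
    !![mt (rhoS γ) 1 1, -(mt (rhoS γ) 1 0); -(mt (rhoS γ) 0 1), mt (rhoS γ) 0 0] := by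
  rw [rhoS_swap, Aff.mt_mul, Aff.mt_mul, coe_mR, coe_mR_inv]
  generalize mt (rhoS γ) = M
  ext i j
  rw [Matrix.mul_apply, Fin.sum_univ_two, Matrix.mul_apply, Matrix.mul_apply, Fin.sum_univ_two,
    Fin.sum_univ_two]
  fin_cases i <;> fin_cases j <;> simp

theorem lettB (β : SurfGrp) (h : β ∈ SB) (hz : β ∉ ZZ) : Cl false false (mt (rhoS β)) := by
  have h1 := lettA (swapHom β) (swap_mem_SA h) (fun hc => hz (swap_mem_ZZ hc))
  rw [← swap_swap β, rhoS_swap_coe]
  obtain ⟨σ, p, q, r, t, hσ, hp, hq, hr, ht, hM⟩ := h1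
  rw [hM]
  rcases hσ with rfl | rfl
  · refine ⟨-1, t, r, q, p, Or.inr rfl, ht, hr, hq, hp, ?_⟩
    ext i j
    fin_cases i <;> fin_cases j <;> simp [sg]
  · refine ⟨1, t, r, q, p, Or.inl rfl, ht, hr, hq, hp, ?_⟩
    ext i j
    fin_cases i <;> fin_cases j <;> simp [sg]

/-! ### The bent representations on letters -/

theorem bend_SA (τ : ℝ) (hτ : τ ≠ 0) (α : SurfGrp) (h : α ∈ SA) : bend τ hτ α = rhoS α := by
  induction h using Subgroup.closure_induction with
  | mem x hx =>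
    rcases hx with rfl | rfl
    · rw [bend_A, rhoS_A]
    · rw [bend_B, rhoS_B]
  | one => rw [map_one, map_one]
  | mul x y _ _ hx hy => rw [map_mul, map_mul, hx, hy]
  | inv x _ hx => rw [map_inv, map_inv, hx]

/-- Conjugation of a matrix by `diag(τ, 1)`. -/
noncomputable def dconj (τ : ℝ) (M : Matrix (Fin 2) (Fin 2) ℝ) : Matrix (Fin 2) (Fin 2) ℝ :=
  !![M 0 0, τ * M 0 1; M 1 0 / τ, M 1 1]

theorem dconj_mul (τ : ℝ) (hτ : τ ≠ 0) (M N : Matrix (Fin 2) (Fin 2) ℝ) :
    dconj τ (M * N) = dconj τ M * dconj τ N := by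
  ext i j
  fin_cases i <;> fin_cases j <;>
    simp [dconj, Matrix.mul_apply, Fin.sum_univ_two] <;> field_simp

theorem bend_SB (τ : ℝ) (hτ : τ ≠ 0) (β : SurfGrp) (h : β ∈ SB) :
    mt (bend τ hτ β) = dconj τ (mt (rhoS β)) := by
  induction h using Subgroup.closure_induction with
  | mem x hx =>
    rcases hx with rfl | rfl
    · rw [bend_C, rhoS_C, coe_mC, dconj]
      ext i j
      fin_cases i <;> fin_cases j <;> simp; ring
    · rw [bend_D, rhoS_D, coe_mD, dconj]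
      ext i j
      fin_cases i <;> fin_cases j <;> simp
      · ring
      · field_simp
  | one =>
    rw [map_one, map_one, Aff.mt_one]
    ext i j
    fin_cases i <;> fin_cases j <;> simp [dconj]
  | mul x y _ _ hx hy => rw [map_mul, map_mul, Aff.mt_mul, Aff.mt_mul, hx, hy, dconj_mul τ hτ]
  | inv x _ hx =>
    rw [map_inv, map_inv]
    have h1 : ∀ g : SL(2, ℝ), mt g⁻¹ = !![mt g 1 1, -(mt g 0 1); -(mt g 1 0), mt g 0 0] := by
      intro g
      rw [mt, Matrix.SpecialLinearGroup.coe_inv]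
      exact Matrix.adjugate_fin_two _
    rw [h1, h1, hx]
    ext i j
    fin_cases i <;> fin_cases j <;> simp [dconj]
    ring

theorem Cl_dconj {s e : Bool} {M : Matrix (Fin 2) (Fin 2) ℝ} (τ : ℝ) (hτ : 0 < τ)
    (h : Cl s e M) : Cl s e (dconj τ M) := by
  obtain ⟨σ, p, q, r, t, hσ, hp, hq, hr, ht, rfl⟩ := h
  refine ⟨σ, p, τ * q, r / τ, t, hσ, hp, by positivity, by positivity, ht, ?_⟩
  ext i j
  fin_cases i <;> fin_cases j <;> simp [dconj] <;> ring

theorem lett_class (τ : ℝ) (hτ : 0 < τ) (b : Bool) (g : SurfGrp) (h : Lett SS ZZ b g) :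
    Cl b b (mt (bend τ hτ.ne' g)) := by
  cases b
  · rw [bend_SB τ hτ.ne' g h.1]
    exact Cl_dconj τ hτ (lettB g h.1 h.2)
  · rw [bend_SA τ hτ.ne' g h.1]
    exact lettA g h.1 h.2

theorem red_class (τ : ℝ) (hτ : 0 < τ) (b e : Bool) (w : SurfGrp) (h : Red SS ZZ b e w) :
    Cl b e (mt (bend τ hτ.ne' w)) := by
  induction h with
  | single b g hg => exact lett_class τ hτ b g hg
  | cons b e g w hg _ ih =>
    rw [map_mul, Aff.mt_mul]
    exact Cl_mul (lett_class τ hτ b g hg) ih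

theorem red_all (w : SurfGrp) : w ∈ ZZ ∨ ∃ b e, Red SS ZZ b e w :=
  red_of_mem ZZ_le (by rw [closure_SS]; trivial)

/-! ### Faithfulness -/

theorem Cl_not_scalar {s e : Bool} {M : Matrix (Fin 2) (Fin 2) ℝ} (h : Cl s e M) : M 0 1 ≠ 0 := by
  obtain ⟨σ, p, q, r, t, hσ, hp, hq, hr, ht, rfl⟩ := h
  rcases hσ with rfl | rfl <;> cases e <;> simp [sg] <;> exact hq.ne'

theorem rhoS_injective : Function.Injective (proj2 rhoS) := by
  rw [injective_iff_map_eq_one]
  intro γ hγ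
  rw [proj2_apply, QuotientGroup.eq_one_iff, Matrix.SpecialLinearGroup.mem_center_iff] at hγ
  obtain ⟨r, hr2, hr⟩ := hγ
  rcases red_all γ with hz | ⟨b, e, hred⟩
  · obtain ⟨k, hk⟩ := mem_ZZ.mp hz
    have h1 := rhoS_zpow k
    rw [← hk] at h1
    have h2 : mt (rhoS γ) = Matrix.scalar (Fin 2) r := hr.symm
    rw [h1] at h2
    have h00 := congrFun (congrFun h2 0) 0
    rw [Fintype.card_fin] at hr2
    simp at h00
    have h3 : ((-4 : ℝ) ^ k) ^ 2 = 1 := by rw [h00, hr2]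
    have h4 : (16 : ℝ) ^ k = 1 := by
      rw [← h3, sq, ← mul_zpow]
      norm_num
    have h5 : k = 0 := by
      by_contra hk0
      have := (zpow_right_injective₀ (a := (16 : ℝ)) (by norm_num) (by norm_num))
      exact hk0 (this (by simpa using h4))
    rw [hk, h5, zpow_zero]
  · exfalso
    have h1 := Cl_not_scalar (red_class 1 one_pos b e γ hred)
    apply h1
    have h2 : mt (rhoS γ) = Matrix.scalar (Fin 2) r := hr.symm
    show mt (rhoS γ) 0 1 = 0
    rw [h2]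
    simp

end Pool.Agent.MP_dd334f_gt
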