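import Pool.Agent.Lib.MP_dd334f_gt.Regular

open Matrix
open scoped MatrixGroups

namespace Pool.Agent.MP_dd334f_gt

/-! ### The cocycle in `sl(4)` -/

theorem adSL_VK (h : Matrix (Fin 2) (Fin 2) ℝ) (hdet : h.det ^ 2 = 1) (g : SL(4, ℝ))
    (hg : (g : Matrix (Fin 4) (Fin 4) ℝ) = sym3 h) (a : R7) :
    adSL g (VK a) = VK (h.det • T h a) := by
  apply Subtype.ext
  rw [coe_adSL, coe_VK, coe_VK, Hank_smul, Hank_T, hg]
  have hinv : ((g⁻¹ : SL(4, ℝ)) : Matrix (Fin 4) (Fin 4) ℝ) = h.det • sym3 (adjugate h) := by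
    have e1 : ((g⁻¹ : SL(4, ℝ)) : Matrix (Fin 4) (Fin 4) ℝ) * (g : Matrix (Fin 4) (Fin 4) ℝ) = 1 := by
      rw [← Matrix.SpecialLinearGroup.coe_mul, inv_mul_cancel, Matrix.SpecialLinearGroup.coe_one]
    have e2 : sym3 h * sym3 (adjugate h) = h.det • (1 : Matrix (Fin 4) (Fin 4) ℝ) := by
      rw [← sym3_mul, Matrix.mul_adjugate, sym3_smul, sym3_one]
      congr 1
      rw [pow_succ, hdet, one_mul]
    calc ((g⁻¹ : SL(4, ℝ)) : Matrix (Fin 4) (Fin 4) ℝ)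
        = ((g⁻¹ : SL(4, ℝ)) : Matrix (Fin 4) (Fin 4) ℝ) * (h.det • (h.det •
            (1 : Matrix (Fin 4) (Fin 4) ℝ))) := by
          rw [smul_smul, ← sq, hdet, one_smul, Matrix.mul_one]
      _ = h.det • ((((g⁻¹ : SL(4, ℝ)) : Matrix (Fin 4) (Fin 4) ℝ) *
            (g : Matrix (Fin 4) (Fin 4) ℝ)) * sym3 (adjugate h)) := by
          rw [← e2, ← hg, Matrix.mul_smul, Matrix.mul_assoc]
      _ = _ := by rw [e1, Matrix.one_mul]
  rw [hinv, Matrix.mul_smul, Matrix.smul_mul]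
  congr 1
  calc sym3 h * (Hank a * Om) * sym3 (adjugate h)
      = sym3 h * Hank a * (Om * sym3 (adjugate h)) := by simp only [Matrix.mul_assoc]
    _ = _ := by rw [Om_sym3_adjugate]; simp only [Matrix.mul_assoc]

section
variable (ρt : SurfGrp →* SL(2, ℝ))

theorem proj2_apply (γ : SurfGrp) : proj2 ρt γ = (QuotientGroup.mk (ρt γ) : PSL(2, ℝ)) := rfl

/-- The Fuchsian point `ι₄ ∘ ρ₀`. -/
def fuchs : SurfGrp →* PSL(4, ℝ) := irrPSL.comp (proj2 ρt)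

theorem fuchs_apply (γ : SurfGrp) :
    fuchs ρt γ = (QuotientGroup.mk (irrSL (ρt γ)) : PSL(4, ℝ)) := rfl

theorem Ad_fuchs_VK (γ : SurfGrp) (a : R7) :
    Ad (fuchs ρt γ) (VK a) = VK (T (mt (ρt γ)) a) := by
  rw [fuchs_apply, Ad_mk, adSL_VK (mt (ρt γ)) (by rw [det_mt, one_pow]) _ rfl, det_mt, one_smul]

/-- The cocycle in `Z¹` attached to a cocycle in `ℝ⁷`. -/
def liftCocycle (u : SurfGrp → R7) (hu : ∀ γ δ, u (γ * δ) = u γ + T (mt (ρt γ)) (u δ)) :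
    Z1 (fuchs ρt) :=
  ⟨fun γ => VK (u γ), fun γ δ => by
    show VK (u (γ * δ)) = VK (u γ) + Ad (fuchs ρt γ) (VK (u δ))
    rw [hu, map_add, Ad_fuchs_VK]⟩

theorem liftCocycle_apply (u : SurfGrp → R7)
    (hu : ∀ γ δ, u (γ * δ) = u γ + T (mt (ρt γ)) (u δ)) (γ : SurfGrp) :
    (liftCocycle ρt u hu : SurfGrp → sl 4) γ = VK (u γ) := rfl

theorem liftCocycle_notMem (u : SurfGrp → R7)
    (hu : ∀ γ δ, u (γ * δ) = u γ + T (mt (ρt γ)) (u δ))
    (hnc : ∀ w : R7, ∃ γ, u γ ≠ w - T (mt (ρt γ)) w) :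
    liftCocycle ρt u hu ∉ B1 (fuchs ρt) := by
  rintro ⟨w, hw⟩
  obtain ⟨γ, hγ⟩ := hnc (prj (w : Matrix (Fin 4) (Fin 4) ℝ))
  apply hγ
  have h1 : (coboundary (fuchs ρt) w : SurfGrp → sl 4) γ = VK (u γ) := by
    rw [hw]; rfl
  have h2 : (w : sl 4) - Ad (fuchs ρt γ) w = VK (u γ) := h1
  have h3 := congrArg (fun X : sl 4 => prj (X : Matrix (Fin 4) (Fin 4) ℝ)) h2
  rw [coe_VK, prj_VK] at h3
  rw [← h3, fuchs_apply, Ad_mk]
  show prj ((w : Matrix (Fin 4) (Fin 4) ℝ) - ((adSL (irrSL (ρt γ)) w : sl 4) :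
    Matrix (Fin 4) (Fin 4) ℝ)) = _
  rw [map_sub, coe_adSL, ← map_inv, coe_irrSL, coe_irrSL]
  have h4 := prj_conj (mt (ρt γ)) (w : Matrix (Fin 4) (Fin 4) ℝ)
  have h5 : mt (ρt γ)⁻¹ = adjugate (mt (ρt γ)) := Matrix.SpecialLinearGroup.coe_inv _
  rw [h5, h4]

end

/-! ### Vanishing of the differentials -/

section
variable {n : ℕ} (ρ : SurfGrp →* PSL(n, ℝ)) (U : Z1 ρ) (f : DiffClassFn n)

theorem Z1_mul (γ δ : SurfGrp) : (U : SurfGrp → sl n) (γ * δ) =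
    (U : SurfGrp → sl n) γ + Ad (ρ γ) ((U : SurfGrp → sl n) δ) := U.2 γ δ

theorem Z1_one : (U : SurfGrp → sl n) 1 = 0 := by
  have := Z1_mul ρ U 1 1
  rw [mul_one, map_one, map_one, Module.End.one_apply] at this
  simpa using this

theorem Z1_inv (γ : SurfGrp) : (U : SurfGrp → sl n) γ⁻¹ =
    - Ad (ρ γ)⁻¹ ((U : SurfGrp → sl n) γ) := by
  have := Z1_mul ρ U γ⁻¹ γ
  rw [inv_mul_cancel, Z1_one, map_inv] at this
  exact (neg_eq_of_add_eq_zero_left this.symm).symm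

theorem pre_conj (h γ : SurfGrp) :
    preDifferential f ρ (h * γ * h⁻¹) U = preDifferential f ρ γ U := by
  rw [preDifferential_apply, preDifferential_apply, Z1_mul, Z1_mul, Z1_inv, map_neg,
    ← Module.End.mul_apply, ← map_mul, ← map_inv, ← map_mul]
  have h1 : ρ (h * γ * h⁻¹) = ρ h * ρ γ * (ρ h)⁻¹ := by simp only [map_mul, map_inv]
  have h2 := f.deriv_conj (ρ γ) (ρ h) ((U : SurfGrp → sl n) γ)
  rw [← h1] at h2
  rw [map_add, map_add, map_neg, h2, f.deriv_Ad_self]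
  abel

theorem pre_inv (γ : SurfGrp) :
    preDifferential f ρ γ⁻¹ U = - f.deriv (ρ γ)⁻¹ ((U : SurfGrp → sl n) γ) := by
  rw [preDifferential_apply, Z1_inv, map_neg, map_inv, f.deriv_Ad_self]

theorem pre_one : preDifferential f ρ 1 U = 0 := by
  rw [preDifferential_apply, Z1_one, map_zero]

end

/-! ### Regularity of elements of infinite order -/

section
variable (ρt : SurfGrp →* SL(2, ℝ)) (hinj : Function.Injective (proj2 ρt))

include hinj in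
theorem eq_one_of_scalar (γ : SurfGrp) (s : ℝ)
    (h : mt (ρt γ) = s • (1 : Matrix (Fin 2) (Fin 2) ℝ)) : γ = 1 := by
  apply hinj
  rw [map_one, proj2_apply]
  rw [QuotientGroup.eq_one_iff, Matrix.SpecialLinearGroup.mem_center_iff]
  refine ⟨s, ?_, ?_⟩
  · have hd := det_mt (ρt γ)
    rw [h, Matrix.det_smul, Matrix.det_one, mul_one] at hd
    exact hd
  · rw [Matrix.scalar_apply, ← Matrix.smul_one_eq_diagonal]
    exact h.symm

include hinj in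
theorem regular_of_order (γ : SurfGrp) (h1 : γ ≠ 1) (h2 : γ ^ 2 ≠ 1) (h3 : γ ^ 3 ≠ 1) :
    (∀ s : ℝ, mt (ρt γ) ≠ s • (1 : Matrix (Fin 2) (Fin 2) ℝ)) ∧ (mt (ρt γ)).trace ≠ 0 ∧
      (mt (ρt γ)).trace ^ 2 ≠ 1 := by
  have hCH := CH_SL (ρt γ)
  refine ⟨fun s hs => h1 (eq_one_of_scalar ρt hinj γ s hs), ?_, ?_⟩
  · intro h
    apply h2
    apply eq_one_of_scalar ρt hinj (γ ^ 2) (-1)
    rw [pow_two, map_mul, Aff.mt_mul, hCH, h, zero_smul, zero_sub, neg_smul, one_smul]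
  · intro h
    apply h3
    apply eq_one_of_scalar ρt hinj (γ ^ 3) (-(mt (ρt γ)).trace)
    rw [pow_succ, pow_two, map_mul, map_mul, Aff.mt_mul, Aff.mt_mul, hCH, Matrix.sub_mul, Matrix.smul_mul,
      hCH, Matrix.one_mul, smul_sub, smul_smul, ← sq, h, one_smul]
    rw [neg_smul]; abel

end

/-! ### Non-spanning -/

/-- The classes on which the argument works. -/
def GoodClass (γ : SurfGrp) : Prop :=
  γ = 1 ∨ (((∃ h, iotaHom γ = h * γ * h⁻¹) ∨ (∃ h, iotaHom γ = h * γ⁻¹ * h⁻¹)) ∧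
    γ ≠ 1 ∧ γ ^ 2 ≠ 1 ∧ γ ^ 3 ≠ 1)

theorem exists_killed (ρt : SurfGrp →* SL(2, ℝ)) (hinj : Function.Injective (proj2 ρt)) :
    ∃ U : Z1 (fuchs ρt), U ∉ B1 (fuchs ρt) ∧ ∀ (f : DiffClassFn 4) (γ : SurfGrp), GoodClass γ →
      preDifferential f (fuchs ρt) γ U = 0 := by
  obtain ⟨J, hJ1, hJ2, hJ3⟩ := exists_J' ρt hinj
  obtain ⟨u, hu1, hu2, hu3⟩ := exists_cocycle ρt J hJ1 hJ2 hJ3
  refine ⟨liftCocycle ρt u hu1, liftCocycle_notMem ρt u hu1 hu3, ?_⟩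
  intro f γ hγ
  set U := liftCocycle ρt u hu1 with hU
  have hUγ : ∀ δ, (U : SurfGrp → sl 4) δ = VK (u δ) := fun δ => rfl
  rcases hγ with rfl | ⟨hγ, hg1, hg2, hg3⟩
  · exact pre_one _ _ _
  -- the conjugating element of `PSL(4)`
  have hJdet : (sym3 J).det = 1 := by
    rw [det_sym3]
    calc J.det ^ 6 = (J.det ^ 2) ^ 3 := by ring
      _ = 1 := by rw [hJ2, one_pow]
  let k : SL(4, ℝ) := ⟨sym3 J, hJdet⟩
  have hk : ∀ δ, fuchs ρt (iotaHom δ) =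
      (QuotientGroup.mk k) * fuchs ρt δ * (QuotientGroup.mk k)⁻¹ := by
    intro δ
    rw [eq_mul_inv_iff_mul_eq, fuchs_apply, fuchs_apply, ← QuotientGroup.mk_mul,
      ← QuotientGroup.mk_mul]
    congr 1
    apply Subtype.ext
    rw [Matrix.SpecialLinearGroup.coe_mul, Matrix.SpecialLinearGroup.coe_mul]
    show sym3 (mt (ρt (iotaHom δ))) * sym3 J = sym3 J * sym3 (mt (ρt δ))
    rw [← sym3_mul, ← sym3_mul, hJ3]
  have hiota : preDifferential f (fuchs ρt) (iotaHom γ) U =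
      - preDifferential f (fuchs ρt) γ U := by
    rw [preDifferential_apply, preDifferential_apply, hUγ, hUγ, hu2, map_neg, map_neg]
    have h1 : VK (J.det • T J (u γ)) = Ad (QuotientGroup.mk k : PSL(4, ℝ)) (VK (u γ)) := by
      rw [Ad_mk, adSL_VK J hJ2 k rfl]
    rw [h1, hk, f.deriv_conj]
  rcases hγ with ⟨h, hh⟩ | ⟨h, hh⟩
  · rw [hh, pre_conj] at hiota
    linarith
  · rw [hh, pre_conj, pre_inv] at hiota
    obtain ⟨r1, r2, r3⟩ := regular_of_order ρt hinj γ hg1 hg2 hg3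
    have h2 := deriv_inv f (ρt γ) r1 r2 r3 ((U : SurfGrp → sl 4) γ) (VK_symplectic (u γ))
    rw [fuchs_apply, h2] at hiota
    rw [preDifferential_apply, fuchs_apply] at hiota ⊢
    linarith

theorem not_spansAt (ρt : SurfGrp →* SL(2, ℝ)) (hinj : Function.Injective (proj2 ρt))
    (hsimple : ∀ γ, IsSimple γ → GoodClass γ) (F : Set (DiffClassFn 4)) :
    ¬ SpansAt F (fuchs ρt) := by
  intro hspan
  obtain ⟨U, hU1, hU2⟩ := exists_killed ρt hinj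
  have hne : (Submodule.Quotient.mk U : H1 (fuchs ρt)) ≠ 0 := by
    intro h
    exact hU1 ((Submodule.Quotient.mk_eq_zero _).mp h)
  obtain ⟨ℓ, hℓ⟩ := Module.Projective.exists_dual_ne_zero ℝ hne
  apply hℓ
  have hle : Submodule.span ℝ {ℓ : Module.Dual ℝ (H1 (fuchs ρt)) |
      ∃ f ∈ F, ∃ γ : SurfGrp, IsSimple γ ∧ ℓ = differential f (fuchs ρt) γ} ≤
      LinearMap.ker (Module.Dual.eval ℝ (H1 (fuchs ρt)) (Submodule.Quotient.mk U)) := by
    rw [Submodule.span_le]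
    rintro _ ⟨f, -, γ, hγ, rfl⟩
    exact hU2 f γ (hsimple γ hγ)
  rw [SpansAt] at hspan
  rw [hspan] at hle
  exact hle (Submodule.mem_top (x := ℓ))

end Pool.Agent.MP_dd334f_gt
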