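import Pool.Agent.Lib.MP_dd334f_gt.Fuchs

open Matrix
open scoped MatrixGroups

namespace Pool.Agent.MP_dd334f_gt

/-! ### Ping-pong for the one-holed torus group -/

/-- Quadratic forms whose nonpositive sets are the four surface intervals. -/
def QJ : Fin 4 → (Fin 2 → ℝ) → ℝ
  | 0, v => v 0 * v 1
  | 1, v => 24 * v 0 ^ 2 - 38 * (v 0 * v 1) + 15 * v 1 ^ 2
  | 2, v => 4 * v 0 ^ 2 - 9 * (v 0 * v 1) + 5 * v 1 ^ 2
  | 3, v => 2 * v 0 ^ 2 - 9 * (v 0 * v 1) + 10 * v 1 ^ 2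

/-- Quadratic forms whose nonpositive sets are the ping-pong intervals. -/
def QI : Fin 4 → (Fin 2 → ℝ) → ℝ
  | 0, v => -7 * v 0 ^ 2 + 2 * (v 0 * v 1) + 32 * v 1 ^ 2
  | 1, v => 96 * v 0 ^ 2 - 4 * (v 0 * v 1) - 57 * v 1 ^ 2
  | 2, v => 50 * v 0 ^ 2 - 95 * (v 0 * v 1) + 44 * v 1 ^ 2
  | 3, v => 35 * v 0 ^ 2 - 117 * (v 0 * v 1) + 88 * v 1 ^ 2

theorem QJ_0 (v : Fin 2 → ℝ) : QJ 0 v = v 0 * v 1 := rfl
theorem QJ_1 (v : Fin 2 → ℝ) : QJ 1 v = 24 * v 0 ^ 2 - 38 * (v 0 * v 1) + 15 * v 1 ^ 2 := rfl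
theorem QJ_2 (v : Fin 2 → ℝ) : QJ 2 v = 4 * v 0 ^ 2 - 9 * (v 0 * v 1) + 5 * v 1 ^ 2 := rfl
theorem QJ_3 (v : Fin 2 → ℝ) : QJ 3 v = 2 * v 0 ^ 2 - 9 * (v 0 * v 1) + 10 * v 1 ^ 2 := rfl
theorem QI_0 (v : Fin 2 → ℝ) : QI 0 v = -7 * v 0 ^ 2 + 2 * (v 0 * v 1) + 32 * v 1 ^ 2 := rfl
theorem QI_1 (v : Fin 2 → ℝ) : QI 1 v = 96 * v 0 ^ 2 - 4 * (v 0 * v 1) - 57 * v 1 ^ 2 := rfl
theorem QI_2 (v : Fin 2 → ℝ) : QI 2 v = 50 * v 0 ^ 2 - 95 * (v 0 * v 1) + 44 * v 1 ^ 2 := rfl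
theorem QI_3 (v : Fin 2 → ℝ) : QI 3 v = 35 * v 0 ^ 2 - 117 * (v 0 * v 1) + 88 * v 1 ^ 2 := rfl

theorem posdef (α β γ : ℝ) (hα : 0 < α) (hd : β ^ 2 < 4 * α * γ) (v : Fin 2 → ℝ) (hv : v ≠ 0) :
    0 < α * v 0 ^ 2 + β * (v 0 * v 1) + γ * v 1 ^ 2 := by
  have h1 : 4 * α * (α * v 0 ^ 2 + β * (v 0 * v 1) + γ * v 1 ^ 2) =
      (2 * α * v 0 + β * v 1) ^ 2 + (4 * α * γ - β ^ 2) * v 1 ^ 2 := by ring
  have h2 : 0 < 4 * α * (α * v 0 ^ 2 + β * (v 0 * v 1) + γ * v 1 ^ 2) := by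
    rw [h1]
    by_cases hv1 : v 1 = 0
    · have hv0 : v 0 ≠ 0 := by
        intro h0
        apply hv
        funext i
        fin_cases i
        · exact h0
        · exact hv1
      rw [hv1]
      have : 0 < (2 * α * v 0) ^ 2 := by positivity
      simpa using this
    · have h3 : 0 < (4 * α * γ - β ^ 2) * v 1 ^ 2 := by
        apply mul_pos (by linarith)
        positivity
      have h4 : 0 ≤ (2 * α * v 0 + β * v 1) ^ 2 := sq_nonneg _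
      linarith
  exact (mul_pos_iff_of_pos_left (by positivity)).mp h2

/-- The intervals `I_x` are pairwise disjoint. -/
theorem QI_disj (x y : Fin 4) (hxy : x ≠ y) (v : Fin 2 → ℝ) (hv : v ≠ 0) (h : QI x v ≤ 0) :
    0 < QI y v := by
  fin_cases x <;> fin_cases y
  · exact absurd rfl hxy
  · have := posdef 82 0 7 (by norm_num) (by norm_num) v hv
    simp only [QI_0, QI_1, Fin.zero_eta, Fin.mk_one, Fin.reduceFinMk] at h ⊢
    linarith
  · have := posdef 43 (-93) 76 (by norm_num) (by norm_num) v hv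
    simp only [QI_0, QI_2, Fin.zero_eta, Fin.mk_one, Fin.reduceFinMk] at h ⊢
    linarith
  · have := posdef 28 (-115) 120 (by norm_num) (by norm_num) v hv
    simp only [QI_0, QI_3, Fin.zero_eta, Fin.mk_one, Fin.reduceFinMk] at h ⊢
    linarith
  · have := posdef 41 0 (7 / 2) (by norm_num) (by norm_num) v hv
    simp only [QI_1, QI_0, Fin.zero_eta, Fin.mk_one, Fin.reduceFinMk] at h ⊢
    linarith
  · exact absurd rfl hxy
  · have := posdef 62 (-191 / 2) (295 / 8) (by norm_num) (by norm_num) v hv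
    simp only [QI_1, QI_2, Fin.zero_eta, Fin.mk_one, Fin.reduceFinMk] at h ⊢
    linarith
  · have := posdef 131 (-121) 31 (by norm_num) (by norm_num) v hv
    simp only [QI_1, QI_3, Fin.zero_eta, Fin.mk_one, Fin.reduceFinMk] at h ⊢
    linarith
  · have := posdef 43 (-93) 76 (by norm_num) (by norm_num) v hv
    simp only [QI_2, QI_0, Fin.zero_eta, Fin.mk_one, Fin.reduceFinMk] at h ⊢
    linarith
  · have := posdef 446 (-669) 251 (by norm_num) (by norm_num) v hv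
    simp only [QI_2, QI_1, Fin.zero_eta, Fin.mk_one, Fin.reduceFinMk] at h ⊢
    linarith
  · exact absurd rfl hxy
  · have := posdef 135 (-307) 176 (by norm_num) (by norm_num) v hv
    simp only [QI_2, QI_3, Fin.zero_eta, Fin.mk_one, Fin.reduceFinMk] at h ⊢
    linarith
  · have := posdef 28 (-115) 120 (by norm_num) (by norm_num) v hv
    simp only [QI_3, QI_0, Fin.zero_eta, Fin.mk_one, Fin.reduceFinMk] at h ⊢
    linarith
  · have := posdef 131 (-121) 31 (by norm_num) (by norm_num) v hv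
    simp only [QI_3, QI_1, Fin.zero_eta, Fin.mk_one, Fin.reduceFinMk] at h ⊢
    linarith
  · have := posdef (135 / 2) (-307 / 2) 88 (by norm_num) (by norm_num) v hv
    simp only [QI_3, QI_2, Fin.zero_eta, Fin.mk_one, Fin.reduceFinMk] at h ⊢
    linarith
  · exact absurd rfl hxy

/-- The intervals `J_m` are pairwise disjoint. -/
theorem QJ_disj (x y : Fin 4) (hxy : x ≠ y) (v : Fin 2 → ℝ) (hv : v ≠ 0) (h : QJ x v ≤ 0) :
    0 < QJ y v := by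
  fin_cases x <;> fin_cases y
  · exact absurd rfl hxy
  · have := posdef 24 (-37) 15 (by norm_num) (by norm_num) v hv
    simp only [QJ_0, QJ_1, Fin.zero_eta, Fin.mk_one, Fin.reduceFinMk] at h ⊢
    linarith
  · have := posdef 4 (-8) 5 (by norm_num) (by norm_num) v hv
    simp only [QJ_0, QJ_2, Fin.zero_eta, Fin.mk_one, Fin.reduceFinMk] at h ⊢
    linarith
  · have := posdef 2 (-8) 10 (by norm_num) (by norm_num) v hv
    simp only [QJ_0, QJ_3, Fin.zero_eta, Fin.mk_one, Fin.reduceFinMk] at h ⊢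
    linarith
  · have := posdef 24 (-37) 15 (by norm_num) (by norm_num) v hv
    simp only [QJ_1, QJ_0, Fin.zero_eta, Fin.mk_one, Fin.reduceFinMk] at h ⊢
    linarith
  · exact absurd rfl hxy
  · have := posdef 28 (-47) 20 (by norm_num) (by norm_num) v hv
    simp only [QJ_1, QJ_2, Fin.zero_eta, Fin.mk_one, Fin.reduceFinMk] at h ⊢
    linarith
  · have := posdef 26 (-47) 25 (by norm_num) (by norm_num) v hv
    simp only [QJ_1, QJ_3, Fin.zero_eta, Fin.mk_one, Fin.reduceFinMk] at h ⊢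
    linarith
  · have := posdef 4 (-8) 5 (by norm_num) (by norm_num) v hv
    simp only [QJ_2, QJ_0, Fin.zero_eta, Fin.mk_one, Fin.reduceFinMk] at h ⊢
    linarith
  · have := posdef 28 (-47) 20 (by norm_num) (by norm_num) v hv
    simp only [QJ_2, QJ_1, Fin.zero_eta, Fin.mk_one, Fin.reduceFinMk] at h ⊢
    linarith
  · exact absurd rfl hxy
  · have := posdef 6 (-18) 15 (by norm_num) (by norm_num) v hv
    simp only [QJ_2, QJ_3, Fin.zero_eta, Fin.mk_one, Fin.reduceFinMk] at h ⊢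
    linarith
  · have := posdef 2 (-8) 10 (by norm_num) (by norm_num) v hv
    simp only [QJ_3, QJ_0, Fin.zero_eta, Fin.mk_one, Fin.reduceFinMk] at h ⊢
    linarith
  · have := posdef 26 (-47) 25 (by norm_num) (by norm_num) v hv
    simp only [QJ_3, QJ_1, Fin.zero_eta, Fin.mk_one, Fin.reduceFinMk] at h ⊢
    linarith
  · have := posdef 6 (-18) 15 (by norm_num) (by norm_num) v hv
    simp only [QJ_3, QJ_2, Fin.zero_eta, Fin.mk_one, Fin.reduceFinMk] at h ⊢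
    linarith
  · exact absurd rfl hxy

theorem IJ_0_1 (v : Fin 2 → ℝ) (hv : v ≠ 0) (h : QI 0 v ≤ 0) : 0 < QJ 1 v := by
  have := posdef 17 (-36) 47 (by norm_num) (by norm_num) v hv
  simp only [QI_0, QJ_1] at h ⊢
  linarith
theorem JI_1_0 (v : Fin 2 → ℝ) (hv : v ≠ 0) (h : QJ 1 v ≤ 0) : 0 < QI 0 v := by
  have := posdef 17 (-36) 47 (by norm_num) (by norm_num) v hv
  simp only [QI_0, QJ_1] at h ⊢
  linarith

theorem IJ_0_2 (v : Fin 2 → ℝ) (hv : v ≠ 0) (h : QI 0 v ≤ 0) : 0 < QJ 2 v := by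
  have := posdef (5 / 3) (-25 / 3) (47 / 3) (by norm_num) (by norm_num) v hv
  simp only [QI_0, QJ_2] at h ⊢
  linarith
theorem JI_2_0 (v : Fin 2 → ℝ) (hv : v ≠ 0) (h : QJ 2 v ≤ 0) : 0 < QI 0 v := by
  have := posdef 5 (-25) 47 (by norm_num) (by norm_num) v hv
  simp only [QI_0, QJ_2] at h ⊢
  linarith

theorem IJ_1_2 (v : Fin 2 → ℝ) (hv : v ≠ 0) (h : QI 1 v ≤ 0) : 0 < QJ 2 v := by
  have := posdef (196 / 25) (-229 / 25) (68 / 25) (by norm_num) (by norm_num) v hv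
  simp only [QI_1, QJ_2] at h ⊢
  linarith
theorem JI_2_1 (v : Fin 2 → ℝ) (hv : v ≠ 0) (h : QJ 2 v ≤ 0) : 0 < QI 1 v := by
  have := posdef 196 (-229) 68 (by norm_num) (by norm_num) v hv
  simp only [QI_1, QJ_2] at h ⊢
  linarith

theorem IJ_1_3 (v : Fin 2 → ℝ) (hv : v ≠ 0) (h : QI 1 v ≤ 0) : 0 < QJ 3 v := by
  have := posdef 14 (-19 / 2) (23 / 8) (by norm_num) (by norm_num) v hv
  simp only [QI_1, QJ_3] at h ⊢
  linarith
theorem JI_3_1 (v : Fin 2 → ℝ) (hv : v ≠ 0) (h : QJ 3 v ≤ 0) : 0 < QI 1 v := by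
  have := posdef 110 (-67) 13 (by norm_num) (by norm_num) v hv
  simp only [QI_1, QJ_3] at h ⊢
  linarith

theorem IJ_2_0 (v : Fin 2 → ℝ) (hv : v ≠ 0) (h : QI 2 v ≤ 0) : 0 < QJ 0 v := by
  have := posdef 25 (-93 / 2) 22 (by norm_num) (by norm_num) v hv
  simp only [QI_2, QJ_0] at h ⊢
  linarith
theorem JI_0_2 (v : Fin 2 → ℝ) (hv : v ≠ 0) (h : QJ 0 v ≤ 0) : 0 < QI 2 v := by
  have := posdef 50 (-93) 44 (by norm_num) (by norm_num) v hv
  simp only [QI_2, QJ_0] at h ⊢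
  linarith

theorem IJ_2_3 (v : Fin 2 → ℝ) (hv : v ≠ 0) (h : QI 2 v ≤ 0) : 0 < QJ 3 v := by
  have := posdef 52 (-104) 54 (by norm_num) (by norm_num) v hv
  simp only [QI_2, QJ_3] at h ⊢
  linarith
theorem JI_3_2 (v : Fin 2 → ℝ) (hv : v ≠ 0) (h : QJ 3 v ≤ 0) : 0 < QI 2 v := by
  have := posdef 52 (-104) 54 (by norm_num) (by norm_num) v hv
  simp only [QI_2, QJ_3] at h ⊢
  linarith

theorem IJ_3_0 (v : Fin 2 → ℝ) (hv : v ≠ 0) (h : QI 3 v ≤ 0) : 0 < QJ 0 v := by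
  have := posdef (35 / 8) (-109 / 8) 11 (by norm_num) (by norm_num) v hv
  simp only [QI_3, QJ_0] at h ⊢
  linarith
theorem JI_0_3 (v : Fin 2 → ℝ) (hv : v ≠ 0) (h : QJ 0 v ≤ 0) : 0 < QI 3 v := by
  have := posdef 35 (-110) 88 (by norm_num) (by norm_num) v hv
  simp only [QI_3, QJ_0] at h ⊢
  linarith

theorem IJ_3_1 (v : Fin 2 → ℝ) (hv : v ≠ 0) (h : QI 3 v ≤ 0) : 0 < QJ 1 v := by
  have := posdef 59 (-155) 103 (by norm_num) (by norm_num) v hv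
  simp only [QI_3, QJ_1] at h ⊢
  linarith
theorem JI_1_3 (v : Fin 2 → ℝ) (hv : v ≠ 0) (h : QJ 1 v ≤ 0) : 0 < QI 3 v := by
  have := posdef 59 (-155) 103 (by norm_num) (by norm_num) v hv
  simp only [QI_3, QJ_1] at h ⊢
  linarith


/-- The letters `a, b, a⁻¹, b⁻¹`. -/
def lv : Fin 4 → SurfGrp := ![gA, gB, gA⁻¹, gB⁻¹]
/-- The inverse letter. -/
def iv : Fin 4 → Fin 4 := ![2, 3, 0, 1]
/-- The base elements of the four surface intervals. -/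
def kk : Fin 4 → SurfGrp := ![1, gA⁻¹, gB⁻¹ * gA⁻¹, gA * gB⁻¹ * gA⁻¹]
/-- The matrices of the letters. -/
noncomputable def lm (x : Fin 4) : Matrix (Fin 2) (Fin 2) ℝ := mt (rhoS (lv x))

theorem lm_0 : lm 0 = !![-6, 5; -2, 3 / 2] := by
  show mt (rhoS gA) = _
  rw [rhoS_A, coe_mA]
theorem lm_1 : lm 1 = !![1, -5 / 2; 2, -4] := by
  show mt (rhoS gB) = _
  rw [rhoS_B, coe_mB]
theorem lm_2 : lm 2 = !![3 / 2, -5; 2, -6] := by
  show mt (rhoS gA⁻¹) = _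
  rw [map_inv, rhoS_A, coe_mA_inv]
theorem lm_3 : lm 3 = !![-4, 5 / 2; -2, 1] := by
  show mt (rhoS gB⁻¹) = _
  rw [map_inv, rhoS_B, coe_mB_inv]

theorem mv2 (a b c d : ℝ) (v : Fin 2 → ℝ) :
    (!![a, b; c, d]).mulVec v = ![a * v 0 + b * v 1, c * v 0 + d * v 1] := by
  funext i
  fin_cases i <;> simp [Matrix.mulVec, dotProduct, Fin.sum_univ_two]

theorem mulVec_ne_zero (g : SL(2, ℝ)) (v : Fin 2 → ℝ) (hv : v ≠ 0) : (mt g).mulVec v ≠ 0 := by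
  intro h
  apply hv
  calc v = (mt g⁻¹ * mt g).mulVec v := by rw [mt_inv_mul, Matrix.one_mulVec]
    _ = 0 := by rw [← Matrix.mulVec_mulVec, h, Matrix.mulVec_zero]

/-- Letters exchange the ping-pong intervals. -/
theorem QI_step (x : Fin 4) (v : Fin 2 → ℝ) (h : 0 < QI (iv x) v) :
    QI x ((lm x).mulVec v) ≤ 0 := by
  fin_cases x
  · change 0 < QI 2 v at h
    show QI 0 ((lm 0).mulVec v) ≤ 0
    rw [lm_0, mv2, QI_0]; rw [QI_2] at h
    simp; nlinarith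
  · change 0 < QI 3 v at h
    show QI 1 ((lm 1).mulVec v) ≤ 0
    rw [lm_1, mv2, QI_1]; rw [QI_3] at h
    simp; nlinarith
  · change 0 < QI 0 v at h
    show QI 2 ((lm 2).mulVec v) ≤ 0
    rw [lm_2, mv2, QI_2]; rw [QI_0] at h
    simp; nlinarith
  · change 0 < QI 1 v at h
    show QI 3 ((lm 3).mulVec v) ≤ 0
    rw [lm_3, mv2, QI_3]; rw [QI_1] at h
    simp; nlinarith

/-- The shallow table. -/
def shb : Fin 4 → Fin 4 → Bool
  | 0, 1 => true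
  | 0, 2 => true
  | 1, 2 => true
  | 1, 3 => true
  | 2, 0 => true
  | 2, 3 => true
  | 3, 0 => true
  | 3, 1 => true
  | _, _ => false

theorem stepJ (x l : Fin 4) (v : Fin 2 → ℝ) (hv : v ≠ 0) (h1 : QI x ((lm x).mulVec v) ≤ 0)
    (h2 : ∀ m, shb x m = true → 0 < QJ m v) : 0 < QJ l ((lm x).mulVec v) := by
  have hne : (lm x).mulVec v ≠ 0 := mulVec_ne_zero _ v hv
  fin_cases x <;> fin_cases l
  · have h := h2 1 rfl
    show 0 < QJ 0 ((lm 0).mulVec v)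
    rw [lm_0, mv2, QJ_0]; rw [QJ_1] at h
    simp; nlinarith
  · exact IJ_0_1 _ hne h1
  · exact IJ_0_2 _ hne h1
  · have h := h2 2 rfl
    show 0 < QJ 3 ((lm 0).mulVec v)
    rw [lm_0, mv2, QJ_3]; rw [QJ_2] at h
    simp; nlinarith
  · have h := h2 3 rfl
    show 0 < QJ 0 ((lm 1).mulVec v)
    rw [lm_1, mv2, QJ_0]; rw [QJ_3] at h
    simp; nlinarith
  · have h := h2 2 rfl
    show 0 < QJ 1 ((lm 1).mulVec v)
    rw [lm_1, mv2, QJ_1]; rw [QJ_2] at h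
    simp; nlinarith
  · exact IJ_1_2 _ hne h1
  · exact IJ_1_3 _ hne h1
  · exact IJ_2_0 _ hne h1
  · have h := h2 0 rfl
    show 0 < QJ 1 ((lm 2).mulVec v)
    rw [lm_2, mv2, QJ_1]; rw [QJ_0] at h
    simp; nlinarith
  · have h := h2 3 rfl
    show 0 < QJ 2 ((lm 2).mulVec v)
    rw [lm_2, mv2, QJ_2]; rw [QJ_3] at h
    simp; nlinarith
  · exact IJ_2_3 _ hne h1
  · exact IJ_3_0 _ hne h1
  · exact IJ_3_1 _ hne h1
  · have h := h2 1 rfl
    show 0 < QJ 2 ((lm 3).mulVec v)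
    rw [lm_3, mv2, QJ_2]; rw [QJ_1] at h
    simp; nlinarith
  · have h := h2 0 rfl
    show 0 < QJ 3 ((lm 3).mulVec v)
    rw [lm_3, mv2, QJ_3]; rw [QJ_0] at h
    simp; nlinarith

theorem shallow_group (x m : Fin 4) (h : shb x m = true) :
    ∃ (m' : Fin 4) (k : ℤ), lv x * kk m = kk m' * gz ^ k := by
  fin_cases x <;> fin_cases m <;> first
    | exact absurd h (by decide)
    | skip
  · exact ⟨0, 0, by show gA * gA⁻¹ = 1 * gz ^ (0 : ℤ); group⟩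
  · exact ⟨3, 0, by show gA * (gB⁻¹ * gA⁻¹) = gA * gB⁻¹ * gA⁻¹ * gz ^ (0 : ℤ); group⟩
  · exact ⟨1, 0, by show gB * (gB⁻¹ * gA⁻¹) = gA⁻¹ * gz ^ (0 : ℤ); group⟩
  · exact ⟨0, -1, by show gB * (gA * gB⁻¹ * gA⁻¹) = 1 * gz ^ (-1 : ℤ); rw [gz]; group⟩
  · exact ⟨1, 0, by show gA⁻¹ * 1 = gA⁻¹ * gz ^ (0 : ℤ); group⟩
  · exact ⟨2, 0, by show gA⁻¹ * (gA * gB⁻¹ * gA⁻¹) = gB⁻¹ * gA⁻¹ * gz ^ (0 : ℤ); group⟩
  · exact ⟨3, 1, by show gB⁻¹ * 1 = gA * gB⁻¹ * gA⁻¹ * gz ^ (1 : ℤ); rw [gz]; group⟩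
  · exact ⟨2, 0, by show gB⁻¹ * gA⁻¹ = gB⁻¹ * gA⁻¹ * gz ^ (0 : ℤ); group⟩

theorem deep_QI (x m : Fin 4) (h : shb x m = false) (v : Fin 2 → ℝ) (hv : v ≠ 0)
    (hm : QJ m v ≤ 0) : 0 < QI (iv x) v := by
  fin_cases x <;> fin_cases m <;> first
    | exact absurd h (by decide)
    | skip
  · exact JI_0_2 v hv hm
  · exact JI_3_2 v hv hm
  · exact JI_0_3 v hv hm
  · exact JI_1_3 v hv hm
  · exact JI_1_0 v hv hm
  · exact JI_2_0 v hv hm
  · exact JI_2_1 v hv hm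
  · exact JI_3_1 v hv hm

end Pool.Agent.MP_dd334f_gt
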