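import Pool.Agent.Lib.MP_dd334f_gt.Cocycle

open Matrix
open scoped MatrixGroups

namespace Pool.Agent.MP_dd334f_gt

/-! ### The centralizer of a matrix with a cyclic vector -/

theorem span_of_commute (G Z : Matrix (Fin 4) (Fin 4) ℝ) (v : Fin 4 → ℝ)
    (hK : (Matrix.of fun i j : Fin 4 => (G ^ (j : ℕ)).mulVec v i).det ≠ 0) (hZ : Z * G = G * Z) :
    ∃ c : Fin 4 → ℝ, Z = ∑ j : Fin 4, c j • G ^ (j : ℕ) := by
  set K : Matrix (Fin 4) (Fin 4) ℝ := Matrix.of fun i j : Fin 4 => (G ^ (j : ℕ)).mulVec v i with hKdef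
  have hu : IsUnit K.det := isUnit_iff_ne_zero.mpr hK
  set c : Fin 4 → ℝ := K⁻¹.mulVec (Z.mulVec v) with hc
  have hKc : K.mulVec c = Z.mulVec v := by
    rw [hc, Matrix.mulVec_mulVec, Matrix.mul_nonsing_inv K hu, Matrix.one_mulVec]
  refine ⟨c, ?_⟩
  set P : Matrix (Fin 4) (Fin 4) ℝ := ∑ j : Fin 4, c j • G ^ (j : ℕ) with hP
  have hPv : P.mulVec v = Z.mulVec v := by
    rw [← hKc]
    funext i
    rw [hP, Matrix.sum_mulVec]
    simp only [Matrix.mulVec, dotProduct, hKdef, Matrix.of_apply, Finset.sum_apply, Matrix.smul_apply,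
      smul_eq_mul]
    refine Finset.sum_congr rfl fun j _ => ?_
    rw [Finset.sum_mul]
    refine Finset.sum_congr rfl fun k _ => ?_
    ring
  have hZj : ∀ j : ℕ, Z * G ^ j = G ^ j * Z := fun j => (Commute.pow_right (show Commute Z G from hZ) j).eq
  have hPj : ∀ j : ℕ, P * G ^ j = G ^ j * P := by
    intro j
    rw [hP, Finset.sum_mul, Finset.mul_sum]
    refine Finset.sum_congr rfl fun k _ => ?_
    rw [Matrix.smul_mul, Matrix.mul_smul, ← pow_add, ← pow_add, add_comm]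
  have hZK : Z * K = P * K := by
    ext i j
    have h1 : (Z * G ^ (j : ℕ)).mulVec v = (P * G ^ (j : ℕ)).mulVec v := by
      rw [hZj, hPj, ← Matrix.mulVec_mulVec, ← Matrix.mulVec_mulVec, hPv]
    have h2 := congrFun h1 i
    rw [← Matrix.mulVec_mulVec, ← Matrix.mulVec_mulVec] at h2
    exact h2
  calc Z = Z * K * K⁻¹ := by rw [Matrix.mul_assoc, Matrix.mul_nonsing_inv K hu, Matrix.mul_one]
    _ = P * K * K⁻¹ := by rw [hZK]
    _ = P := by rw [Matrix.mul_assoc, Matrix.mul_nonsing_inv K hu, Matrix.mul_one]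

theorem sym3_pow (h : Matrix (Fin 2) (Fin 2) ℝ) (j : ℕ) : sym3 h ^ j = sym3 (h ^ j) := by
  induction j with
  | zero => rw [pow_zero, pow_zero, sym3_one]
  | succ j ih => rw [pow_succ, pow_succ, ih, sym3_mul]

/-- A cyclic vector for `sym3 g`. -/
theorem exists_cyclic (g : SL(2, ℝ)) (hs : ∀ s : ℝ, mt g ≠ s • (1 : Matrix (Fin 2) (Fin 2) ℝ))
    (h0 : (mt g).trace ≠ 0) (h1 : (mt g).trace ^ 2 ≠ 1) :
    ∃ v : Fin 4 → ℝ, (Matrix.of fun i j : Fin 4 => (sym3 (mt g) ^ (j : ℕ)).mulVec v i).det ≠ 0 := by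
  set τ := (mt g).trace with hτ
  -- a vector `w` with `w, g w` independent
  obtain ⟨w0, w1, hw⟩ : ∃ w0 w1 : ℝ,
      (!![w0, mt g 0 0 * w0 + mt g 0 1 * w1; w1, mt g 1 0 * w0 + mt g 1 1 * w1]).det ≠ 0 := by
    by_contra hcon
    push Not at hcon
    have e1 := hcon 1 0
    have e2 := hcon 0 1
    have e3 := hcon 1 1
    simp [Matrix.det_fin_two] at e1 e2 e3
    apply hs (mt g 0 0)
    ext i j
    fin_cases i <;> fin_cases j
    · simp
    · simpa using e2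
    · simpa using e1
    · simp; linarith
  set k : Matrix (Fin 2) (Fin 2) ℝ :=
    !![w0, mt g 0 0 * w0 + mt g 0 1 * w1; w1, mt g 1 0 * w0 + mt g 1 1 * w1] with hk
  have hdet : (mt g) 0 0 * (mt g) 1 1 - (mt g) 0 1 * (mt g) 1 0 = 1 := by
    rw [← Matrix.det_fin_two]; exact g.2
  have hgk : mt g * k = k * !![0, -1; 1, τ] := by
    rw [hk, hτ, Matrix.trace_fin_two]
    ext i j
    fin_cases i <;> fin_cases j
    · simp [Matrix.mul_apply, Fin.sum_univ_succ]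
    · simp [Matrix.mul_apply, Fin.sum_univ_succ]
      linear_combination (-w0) * hdet
    · simp [Matrix.mul_apply, Fin.sum_univ_succ]
    · simp [Matrix.mul_apply, Fin.sum_univ_succ]
      linear_combination (-w1) * hdet
  have hgkj : ∀ j : ℕ, (mt g) ^ j * k = k * !![0, -1; 1, τ] ^ j := by
    intro j
    induction j with
    | zero => simp
    | succ j ih => rw [pow_succ', Matrix.mul_assoc, ih, ← Matrix.mul_assoc, hgk, Matrix.mul_assoc,
        pow_succ']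
  refine ⟨(sym3 k).mulVec ![1, 0, 0, 0], ?_⟩
  have hK : (Matrix.of fun i j : Fin 4 =>
      (sym3 (mt g) ^ (j : ℕ)).mulVec ((sym3 k).mulVec ![1, 0, 0, 0]) i) =
      sym3 k * !![1, 0, -1, -τ ^ 3; 0, 0, τ, τ ^ 2 * (τ ^ 2 - 1);
        0, 0, -τ ^ 2, -τ * (τ ^ 2 - 1) ^ 2; 0, 1, τ ^ 3, (τ ^ 2 - 1) ^ 3] := by
    have hcol : ∀ j : ℕ, (sym3 (mt g) ^ j).mulVec ((sym3 k).mulVec ![1, 0, 0, 0]) =
        (sym3 k).mulVec ((sym3 (!![0, -1; 1, τ] ^ j)).mulVec ![1, 0, 0, 0]) := by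
      intro j
      rw [Matrix.mulVec_mulVec, Matrix.mulVec_mulVec, sym3_pow, ← sym3_mul, hgkj, sym3_mul]
    have p2 : (!![0, -1; 1, τ] : Matrix (Fin 2) (Fin 2) ℝ) ^ 2 = !![-1, -τ; τ, τ ^ 2 - 1] := by
      rw [pow_two]
      ext i j
      fin_cases i <;> fin_cases j <;> simp [Matrix.mul_apply, Fin.sum_univ_succ]
      ring
    have p3 : (!![0, -1; 1, τ] : Matrix (Fin 2) (Fin 2) ℝ) ^ 3 =
        !![-τ, 1 - τ ^ 2; τ ^ 2 - 1, τ ^ 3 - 2 * τ] := by
      rw [pow_succ, p2]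
      ext i j
      fin_cases i <;> fin_cases j <;> simp [Matrix.mul_apply, Fin.sum_univ_succ] <;> ring
    have hfirst : ∀ (M : Matrix (Fin 2) (Fin 2) ℝ) (l : Fin 4),
        (sym3 M).mulVec ![1, 0, 0, 0] l = sym3 M l 0 := by
      intro M l
      simp [Matrix.mulVec, dotProduct, Fin.sum_univ_succ]
    ext i j
    rw [Matrix.of_apply, hcol, Matrix.mul_apply]
    rw [Matrix.mulVec, dotProduct]
    refine Finset.sum_congr rfl fun l _ => ?_
    rw [hfirst]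
    congr 1
    fin_cases j
    · show sym3 (!![0, -1; 1, τ] ^ 0) l 0 = _
      rw [pow_zero]
      fin_cases l <;> simp [sym3]
    · show sym3 (!![0, -1; 1, τ] ^ 1) l 0 = _
      rw [pow_one]
      fin_cases l <;> simp [sym3]
    · show sym3 (!![0, -1; 1, τ] ^ 2) l 0 = _
      rw [p2]
      fin_cases l <;> simp [sym3]
      all_goals ring
    · show sym3 (!![0, -1; 1, τ] ^ 3) l 0 = _
      rw [p3]
      fin_cases l <;> simp [sym3]
      all_goals ring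
  rw [hK, Matrix.det_mul, det_sym3]
  apply mul_ne_zero (pow_ne_zero 6 hw)
  have hdet2 : (!![1, 0, -1, -τ ^ 3; 0, 0, τ, τ ^ 2 * (τ ^ 2 - 1);
        0, 0, -τ ^ 2, -τ * (τ ^ 2 - 1) ^ 2; 0, 1, τ ^ 3, (τ ^ 2 - 1) ^ 3] :
        Matrix (Fin 4) (Fin 4) ℝ).det = τ ^ 2 * (τ ^ 2 - 1) := by
    simp [Matrix.det_succ_row_zero, Fin.sum_univ_succ, Fin.succAbove]
    ring
  rw [hdet2]
  exact mul_ne_zero (pow_ne_zero 2 h0) (sub_ne_zero.mpr h1)

/-- The transpose relation for `sym3 g`, `g ∈ SL(2)`. -/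
theorem Om_sym3_inv (g : SL(2, ℝ)) : Om * sym3 (mt g⁻¹) = (sym3 (mt g))ᵀ * Om := by
  rw [mt, Matrix.SpecialLinearGroup.coe_inv]
  exact Om_sym3_adjugate _

/-- A traceless matrix of determinant `-1` inverting `g`. -/
theorem exists_inverter (g : SL(2, ℝ)) :
    ∃ r : Matrix (Fin 2) (Fin 2) ℝ, r.trace = 0 ∧ r.det = -1 ∧ r * mt g = mt g⁻¹ * r := by
  obtain ⟨p, q, hpq, hne⟩ : ∃ p q : ℝ,
      p * (mt g 0 0 - mt g 1 1) + q * (mt g 0 1 + mt g 1 0) = 0 ∧ 0 < p ^ 2 + q ^ 2 := by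
    by_cases h : mt g 0 1 + mt g 1 0 = 0 ∧ mt g 0 0 - mt g 1 1 = 0
    · exact ⟨1, 0, by rw [h.2]; ring, by norm_num⟩
    · refine ⟨mt g 0 1 + mt g 1 0, -(mt g 0 0 - mt g 1 1), by ring, ?_⟩
      by_contra hcon
      apply h
      constructor
      · nlinarith [sq_nonneg (mt g 0 1 + mt g 1 0), sq_nonneg (mt g 0 0 - mt g 1 1)]
      · nlinarith [sq_nonneg (mt g 0 1 + mt g 1 0), sq_nonneg (mt g 0 0 - mt g 1 1)]
  set s := Real.sqrt (p ^ 2 + q ^ 2) with hs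
  have hs2 : s ^ 2 = p ^ 2 + q ^ 2 := Real.sq_sqrt hne.le
  have hs0 : s ≠ 0 := (Real.sqrt_pos.mpr hne).ne'
  refine ⟨!![p / s, q / s; q / s, -(p / s)], ?_, ?_, ?_⟩
  · simp [Matrix.trace_fin_two]
  · rw [Matrix.det_fin_two]
    simp
    field_simp
    linarith
  · rw [mt_inv, Matrix.trace_fin_two]
    ext i j
    fin_cases i <;> fin_cases j <;>
      simp [Matrix.mul_apply, Fin.sum_univ_two] <;> field_simp <;> linarith

/-- Linear forms on matrices are represented by the trace form. -/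
theorem exists_trace_rep (ℓ : Matrix (Fin 4) (Fin 4) ℝ →ₗ[ℝ] ℝ) :
    ∃ Z : Matrix (Fin 4) (Fin 4) ℝ, ∀ Y, ℓ Y = (Z * Y).trace := by
  refine ⟨Matrix.of fun i j => ℓ (Matrix.single j i 1), fun Y => ?_⟩
  conv_lhs => rw [Matrix.matrix_eq_sum_single Y]
  simp only [map_sum, Matrix.trace, Matrix.diag_apply, Matrix.mul_apply, Matrix.of_apply]
  rw [Finset.sum_comm]
  refine Finset.sum_congr rfl fun i _ => Finset.sum_congr rfl fun j _ => ?_
  rw [show Matrix.single j i (Y j i) = Y j i • Matrix.single j i (1 : ℝ) by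
    rw [Matrix.smul_single, smul_eq_mul, mul_one], map_smul, smul_eq_mul, mul_comm]

/-- The traceless part. -/
noncomputable def tl : Matrix (Fin 4) (Fin 4) ℝ →ₗ[ℝ] sl 4 where
  toFun Y := ⟨Y - (Y.trace / 4) • (1 : Matrix (Fin 4) (Fin 4) ℝ), by
    rw [mem_sl, Matrix.trace_sub, Matrix.trace_smul, Matrix.trace_one, Fintype.card_fin]
    simp⟩
  map_add' Y Y' := by
    apply Subtype.ext
    show Y + Y' - ((Y + Y').trace / 4) • (1 : Matrix (Fin 4) (Fin 4) ℝ) =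
      (Y - (Y.trace / 4) • (1 : Matrix (Fin 4) (Fin 4) ℝ)) +
      (Y' - (Y'.trace / 4) • (1 : Matrix (Fin 4) (Fin 4) ℝ))
    rw [Matrix.trace_add, add_div, add_smul]; abel
  map_smul' t Y := by
    apply Subtype.ext
    show t • Y - ((t • Y).trace / 4) • (1 : Matrix (Fin 4) (Fin 4) ℝ) =
      t • (Y - (Y.trace / 4) • (1 : Matrix (Fin 4) (Fin 4) ℝ))
    rw [Matrix.trace_smul, smul_sub, smul_smul, smul_eq_mul, mul_div_assoc]

theorem coe_tl (Y : Matrix (Fin 4) (Fin 4) ℝ) :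
    ((tl Y : sl 4) : Matrix (Fin 4) (Fin 4) ℝ) = Y - (Y.trace / 4) • (1 : Matrix (Fin 4) (Fin 4) ℝ) :=
  rfl

theorem tl_coe (X : sl 4) : tl (X : Matrix (Fin 4) (Fin 4) ℝ) = X := by
  apply Subtype.ext
  rw [coe_tl, trace_sl, zero_div, zero_smul, sub_zero]

theorem tl_conj (g : SL(4, ℝ)) (Y : Matrix (Fin 4) (Fin 4) ℝ) :
    tl ((g : Matrix (Fin 4) (Fin 4) ℝ) * Y * ((g⁻¹ : SL(4, ℝ)) : Matrix (Fin 4) (Fin 4) ℝ)) =
      adSL g (tl Y) := by
  apply Subtype.ext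
  rw [coe_tl, coe_adSL, coe_tl, trace_conj, Matrix.mul_sub, Matrix.sub_mul, Matrix.mul_smul,
    Matrix.smul_mul, Matrix.mul_one, ← Matrix.SpecialLinearGroup.coe_mul g g⁻¹, mul_inv_cancel,
    Matrix.SpecialLinearGroup.coe_one]

/-- The derivative of a class function at `g` is represented by a matrix commuting with `g`. -/
theorem exists_Z (f : DiffClassFn 4) (g : SL(4, ℝ)) :
    ∃ Z : Matrix (Fin 4) (Fin 4) ℝ, Z * (g : Matrix (Fin 4) (Fin 4) ℝ) = g * Z ∧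
      ∀ X : sl 4, f.deriv (QuotientGroup.mk g) X = (Z * (X : Matrix (Fin 4) (Fin 4) ℝ)).trace := by
  obtain ⟨Z, hZ⟩ := exists_trace_rep ((f.deriv (QuotientGroup.mk g)).toLinearMap ∘ₗ tl)
  have hX : ∀ X : sl 4, f.deriv (QuotientGroup.mk g) X =
      (Z * (X : Matrix (Fin 4) (Fin 4) ℝ)).trace := by
    intro X
    rw [← hZ]
    show _ = f.deriv (QuotientGroup.mk g) (tl X)
    rw [tl_coe]
  refine ⟨Z, ?_, hX⟩
  set gi : Matrix (Fin 4) (Fin 4) ℝ := ((g⁻¹ : SL(4, ℝ)) : Matrix (Fin 4) (Fin 4) ℝ) with hgi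
  have e1 : (g : Matrix (Fin 4) (Fin 4) ℝ) * gi = 1 := by
    rw [hgi, ← Matrix.SpecialLinearGroup.coe_mul, mul_inv_cancel, Matrix.SpecialLinearGroup.coe_one]
  have e2 : gi * (g : Matrix (Fin 4) (Fin 4) ℝ) = 1 := by
    rw [hgi, ← Matrix.SpecialLinearGroup.coe_mul, inv_mul_cancel, Matrix.SpecialLinearGroup.coe_one]
  have h1 : gi * Z * (g : Matrix (Fin 4) (Fin 4) ℝ) = Z := by
    rw [Matrix.ext_iff_trace_mul_right]
    intro Y
    have h2 : (Z * ((g : Matrix (Fin 4) (Fin 4) ℝ) * Y * gi)).trace = (Z * Y).trace := by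
      rw [← hZ, ← hZ]
      show f.deriv (QuotientGroup.mk g) (tl _) = f.deriv (QuotientGroup.mk g) (tl _)
      rw [hgi, tl_conj, ← Ad_mk, f.deriv_Ad_self]
    rw [← h2]
    calc (gi * Z * (g : Matrix (Fin 4) (Fin 4) ℝ) * Y).trace
        = (gi * (Z * (g : Matrix (Fin 4) (Fin 4) ℝ) * Y)).trace := by
          simp only [Matrix.mul_assoc]
      _ = (Z * (g : Matrix (Fin 4) (Fin 4) ℝ) * Y * gi).trace := Matrix.trace_mul_comm _ _
      _ = _ := by simp only [Matrix.mul_assoc]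
  calc Z * (g : Matrix (Fin 4) (Fin 4) ℝ) = (g * gi) * Z * g := by rw [e1, Matrix.one_mul]
    _ = g * (gi * Z * g) := by simp only [Matrix.mul_assoc]
    _ = g * Z := by rw [h1]

theorem coe_irrSL (g : SL(2, ℝ)) : ((irrSL g : SL(4, ℝ)) : Matrix (Fin 4) (Fin 4) ℝ) = sym3 (mt g) :=
  rfl

/-- For `g ∈ SL(2)` in general position, the derivative of a class function at `g⁻¹` is minus the
derivative at `g` on the symplectic Lie algebra. -/
theorem deriv_inv (f : DiffClassFn 4) (g : SL(2, ℝ))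
    (hs : ∀ s : ℝ, mt g ≠ s • (1 : Matrix (Fin 2) (Fin 2) ℝ))
    (h0 : (mt g).trace ≠ 0) (h1 : (mt g).trace ^ 2 ≠ 1) (X : sl 4)
    (hX : (X : Matrix (Fin 4) (Fin 4) ℝ)ᵀ * Om = -(Om * (X : Matrix (Fin 4) (Fin 4) ℝ))) :
    f.deriv (QuotientGroup.mk (irrSL g))⁻¹ X = - f.deriv (QuotientGroup.mk (irrSL g)) X := by
  obtain ⟨Z, hZg, hZ⟩ := exists_Z f (irrSL g)
  obtain ⟨r, hr1, hr2, hr3⟩ := exists_inverter g
  obtain ⟨v, hv⟩ := exists_cyclic g hs h0 h1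
  rw [coe_irrSL] at hZg
  obtain ⟨c, hc⟩ := span_of_commute (sym3 (mt g)) Z v hv hZg
  set G := sym3 (mt g) with hG
  set R := sym3 r with hR
  -- `S = Om R` satisfies `S G = Gᵀ S`
  have hRG : R * G = sym3 (mt g⁻¹) * R := by rw [hR, hG, ← sym3_mul, hr3, sym3_mul]
  have hSG : (Om * R) * G = Gᵀ * (Om * R) := by
    rw [Matrix.mul_assoc, hRG, ← Matrix.mul_assoc, Om_sym3_inv, Matrix.mul_assoc]
  have hSj : ∀ j : ℕ, (Om * R) * G ^ j = (Gᵀ) ^ j * (Om * R) := by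
    intro j
    induction j with
    | zero => simp
    | succ j ih => rw [pow_succ, ← Matrix.mul_assoc, ih, Matrix.mul_assoc, hSG, ← Matrix.mul_assoc,
        pow_succ]
  have hSZ : (Om * R) * Z = Zᵀ * (Om * R) := by
    rw [hc, Matrix.transpose_sum, Finset.mul_sum, Finset.sum_mul]
    refine Finset.sum_congr rfl fun j _ => ?_
    rw [Matrix.transpose_smul, Matrix.mul_smul, Matrix.smul_mul, hSj, Matrix.transpose_pow]
  -- the element of `SL(4)` inverting `g`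
  have hRdet : R.det = 1 := by rw [hR, det_sym3, hr2]; norm_num
  let k : SL(4, ℝ) := ⟨R, hRdet⟩
  have hkg : k * irrSL g = (irrSL g)⁻¹ * k := by
    apply Subtype.ext
    rw [Matrix.SpecialLinearGroup.coe_mul, Matrix.SpecialLinearGroup.coe_mul, ← map_inv]
    exact hRG
  have hconj : (QuotientGroup.mk (irrSL g) : PSL(4, ℝ))⁻¹ =
      (QuotientGroup.mk k) * (QuotientGroup.mk (irrSL g)) * (QuotientGroup.mk k)⁻¹ := by
    rw [← QuotientGroup.mk_mul, hkg, QuotientGroup.mk_mul, QuotientGroup.mk_inv,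
      mul_inv_cancel_right]
  have hXk : X = Ad (QuotientGroup.mk k : PSL(4, ℝ)) (Ad (QuotientGroup.mk k⁻¹ : PSL(4, ℝ)) X) := by
    rw [← Module.End.mul_apply, ← map_mul, ← QuotientGroup.mk_mul, mul_inv_cancel,
      QuotientGroup.mk_one, map_one, Module.End.one_apply]
  rw [hconj]
  conv_lhs => rw [hXk]
  rw [f.deriv_conj, hZ, hZ, Ad_mk, coe_adSL, inv_inv]
  -- trace computation
  set Xm : Matrix (Fin 4) (Fin 4) ℝ := (X : Matrix (Fin 4) (Fin 4) ℝ) with hXm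
  set ki : Matrix (Fin 4) (Fin 4) ℝ := ((k⁻¹ : SL(4, ℝ)) : Matrix (Fin 4) (Fin 4) ℝ) with hki
  have hkk : (k : Matrix (Fin 4) (Fin 4) ℝ) = R := rfl
  rw [hkk]
  have e1 : R * ki = 1 := by
    rw [hki, ← hkk, ← Matrix.SpecialLinearGroup.coe_mul, mul_inv_cancel,
      Matrix.SpecialLinearGroup.coe_one]
  have hOmdet : IsUnit Om.det := by
    have : Om.det = 9 := by
      simp [Om, Matrix.det_succ_row_zero, Fin.sum_univ_succ, Fin.succAbove]; norm_num
    rw [this]; exact isUnit_iff_ne_zero.mpr (by norm_num)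
  have e3 : Om⁻¹ * Om = 1 := Matrix.nonsing_inv_mul _ hOmdet
  have e4 : Om * Om⁻¹ = 1 := Matrix.mul_nonsing_inv _ hOmdet
  have e5 : R * Z * ki = Om⁻¹ * Zᵀ * Om := by
    calc R * Z * ki = (Om⁻¹ * Om) * R * Z * ki := by rw [e3, Matrix.one_mul]
      _ = Om⁻¹ * ((Om * R) * Z) * ki := by simp only [Matrix.mul_assoc]
      _ = Om⁻¹ * (Zᵀ * (Om * R)) * ki := by rw [hSZ]
      _ = Om⁻¹ * Zᵀ * Om * (R * ki) := by simp only [Matrix.mul_assoc]
      _ = _ := by rw [e1, Matrix.mul_one]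
  calc (Z * (ki * Xm * R)).trace = (Z * ki * Xm * R).trace := by simp only [Matrix.mul_assoc]
    _ = (R * (Z * ki * Xm)).trace := Matrix.trace_mul_comm _ _
    _ = ((R * Z * ki) * Xm).trace := by simp only [Matrix.mul_assoc]
    _ = (Om⁻¹ * Zᵀ * (Om * Xm)).trace := by rw [e5]; simp only [Matrix.mul_assoc]
    _ = -(Om⁻¹ * (Zᵀ * Xmᵀ * Om)).trace := by
        rw [← neg_neg (Om * Xm), ← hX, Matrix.mul_neg, Matrix.trace_neg]
        simp only [Matrix.mul_assoc]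
    _ = -((Zᵀ * Xmᵀ * Om) * Om⁻¹).trace := by rw [Matrix.trace_mul_comm]
    _ = -(Zᵀ * Xmᵀ).trace := by rw [Matrix.mul_assoc, e4, Matrix.mul_one]
    _ = -(Z * Xm).trace := by
        rw [← Matrix.transpose_mul, Matrix.trace_transpose, Matrix.trace_mul_comm]

end Pool.Agent.MP_dd334f_gt
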