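import Pool.Agent.Lib.MP_dd334f_gt.DetExp

/-!
# Definitions used in the statement: differentiable class functions
-/

open Matrix
open scoped MatrixGroups

namespace Pool.Agent.MP_dd334f_gt.Stmt

/-! ### Differentiable class functions -/

/-- The class in `PSL(n, ℝ)` of a matrix in `SL(n, ℝ)`. -/
def cls {n : ℕ} (g : SL(n, ℝ)) : PSL(n, ℝ) := QuotientGroup.mk g

/-- The space `sl(n, ℝ)` of real `n × n` matrices of trace zero. -/
def sln (n : ℕ) : Submodule ℝ (Matrix (Fin n) (Fin n) ℝ) :=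
  LinearMap.ker (Matrix.traceLinearMap (Fin n) ℝ ℝ)

theorem det_exp_sln {n : ℕ} (X : sln n) :
    (NormedSpace.exp (X : Matrix (Fin n) (Fin n) ℝ)).det = 1 :=
  det_exp_of_trace_eq_zero _ X.2

/-- The exponential map `sl(n, ℝ) → SL(n, ℝ)`. -/
noncomputable def expo {n : ℕ} (X : sln n) : SL(n, ℝ) :=
  ⟨NormedSpace.exp (X : Matrix (Fin n) (Fin n) ℝ), det_exp_sln X⟩

/-- Differentiable class functions on `PSL(n, ℝ)`: functions invariant under conjugation, and
differentiable at every `g` in the chart `X ↦ exp(X) g`, `X ∈ sl(n, ℝ)`. -/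
structure ClassFn (n : ℕ) where
  /-- the underlying function -/
  toFun : PSL(n, ℝ) → ℝ
  conj_inv : ∀ g h : PSL(n, ℝ), toFun (h * g * h⁻¹) = toFun g
  diff : ∀ g : PSL(n, ℝ), DifferentiableAt ℝ (fun X : sln n => toFun (cls (expo X) * g)) 0

/-- The derivative `D_g f : sl(n, ℝ) → ℝ` at `g`: the derivative at `X = 0` of
`X ↦ f (exp(X) g)`. -/
noncomputable def ClassFn.D {n : ℕ} (f : ClassFn n) (g : PSL(n, ℝ)) : sln n →L[ℝ] ℝ :=
  fderiv ℝ (fun X : sln n => f.toFun (cls (expo X) * g)) 0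

end Pool.Agent.MP_dd334f_gt.Stmt
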