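import Pool.Agent.Lib.MP_dd334f_gt.StmtA

/-!
# Invariance of the derivatives of class functions
-/

open Matrix
open scoped MatrixGroups

namespace Pool.Agent.MP_dd334f_gt.Stmt

/-- The linear map `X ↦ h X h⁻¹` of `sl(n, ℝ)`, used only in proofs. -/
def adj {n : ℕ} (h : SL(n, ℝ)) : sln n →ₗ[ℝ] sln n where
  toFun X := ⟨(h : Matrix (Fin n) (Fin n) ℝ) * (X : Matrix (Fin n) (Fin n) ℝ) *
    ((h⁻¹ : SL(n, ℝ)) : Matrix (Fin n) (Fin n) ℝ), by
      show ((h : Matrix (Fin n) (Fin n) ℝ) * (X : Matrix (Fin n) (Fin n) ℝ) *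
        ((h⁻¹ : SL(n, ℝ)) : Matrix (Fin n) (Fin n) ℝ)).trace = 0
      rw [Matrix.trace_mul_comm, ← mul_assoc, ← Matrix.SpecialLinearGroup.coe_mul, inv_mul_cancel,
        Matrix.SpecialLinearGroup.coe_one, one_mul]
      exact X.2⟩
  map_add' X Y := by
    apply Subtype.ext
    simp [mul_add, add_mul]
  map_smul' t X := by
    apply Subtype.ext
    simp

theorem expo_adj {n : ℕ} (h : SL(n, ℝ)) (X : sln n) : expo (adj h X) = h * expo X * h⁻¹ := by
  apply Subtype.ext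
  have hu1 : (h : Matrix (Fin n) (Fin n) ℝ) * ((h⁻¹ : SL(n, ℝ)) : Matrix (Fin n) (Fin n) ℝ) = 1 := by
    rw [← Matrix.SpecialLinearGroup.coe_mul, mul_inv_cancel, Matrix.SpecialLinearGroup.coe_one]
  have hu2 : ((h⁻¹ : SL(n, ℝ)) : Matrix (Fin n) (Fin n) ℝ) * (h : Matrix (Fin n) (Fin n) ℝ) = 1 := by
    rw [← Matrix.SpecialLinearGroup.coe_mul, inv_mul_cancel, Matrix.SpecialLinearGroup.coe_one]
  have := Matrix.exp_units_conj (⟨(h : Matrix (Fin n) (Fin n) ℝ),
    ((h⁻¹ : SL(n, ℝ)) : Matrix (Fin n) (Fin n) ℝ), hu1, hu2⟩ : (Matrix (Fin n) (Fin n) ℝ)ˣ)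
    (X : Matrix (Fin n) (Fin n) ℝ)
  rw [Matrix.SpecialLinearGroup.coe_mul, Matrix.SpecialLinearGroup.coe_mul]
  exact this

theorem cls_mul {n : ℕ} (g h : SL(n, ℝ)) : cls (g * h) = cls g * cls h := rfl
theorem cls_inv {n : ℕ} (g : SL(n, ℝ)) : cls g⁻¹ = (cls g)⁻¹ := rfl

section
attribute [local instance] Matrix.normedAddCommGroup Matrix.normedSpace

theorem ClassFn.D_conj {n : ℕ} (f : ClassFn n) (g : PSL(n, ℝ)) (h : SL(n, ℝ)) (X : sln n) :
    f.D (cls h * g * (cls h)⁻¹) (adj h X) = f.D g X := by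
  have hG := (f.diff (cls h * g * (cls h)⁻¹)).hasFDerivAt
  have hF := (f.diff g).hasFDerivAt
  have hA : HasFDerivAt (fun X : sln n => adj h X) (LinearMap.toContinuousLinearMap (adj h)) 0 :=
    (LinearMap.toContinuousLinearMap (adj h)).hasFDerivAt
  have hG' : HasFDerivAt (fun X : sln n => f.toFun (cls (expo X) * (cls h * g * (cls h)⁻¹)))
      (f.D (cls h * g * (cls h)⁻¹)) (adj h 0) := by
    rw [map_zero]; exact hG
  have hcomp := hG'.comp (0 : sln n) hA
  have heq : (fun X : sln n => f.toFun (cls (expo X) * (cls h * g * (cls h)⁻¹))) ∘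
      (fun X : sln n => adj h X) = fun X : sln n => f.toFun (cls (expo X) * g) := by
    funext X
    show f.toFun (cls (expo (adj h X)) * (cls h * g * (cls h)⁻¹)) = _
    rw [expo_adj, cls_mul, cls_mul, cls_inv, ← f.conj_inv (cls (expo X) * g) (cls h)]
    congr 1
    group
  rw [heq] at hcomp
  have := hcomp.unique hF
  exact congrArg (fun L : sln n →L[ℝ] ℝ => L X) this

end

theorem ClassFn.D_self {n : ℕ} (f : ClassFn n) (h : SL(n, ℝ)) (X : sln n) :
    f.D (cls h) (adj h X) = f.D (cls h) X := by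
  have := f.D_conj (cls h) h X
  rwa [mul_inv_cancel_right] at this

end Pool.Agent.MP_dd334f_gt.Stmt
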