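import Pool.Agent.Lib.MP_dd334f_gt.Defs

namespace Pool.Agent.MP_dd334f_gt

/-! ### Octagon generators of the genus-two surface group -/

section
variable {G : Type*} [Group G]

/-- Values on `a, b, c, d` attached to a quadruple `ξ`. -/
def hexVal (ξ : Fin 4 → G) : Fin 4 → G :=
  ![ξ 0, ξ 1 * ξ 2 * ξ 3, ξ 1 * ξ 2, ξ 3 * (ξ 1)⁻¹]

theorem hex_relator (ξ : Fin 4 → G) (h : ξ 0 * ξ 1 * ξ 2 * ξ 3 = ξ 3 * ξ 2 * ξ 1 * ξ 0) :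
    ∀ r ∈ ({relator} : Set (FreeGroup (Fin 4))), FreeGroup.lift (hexVal ξ) r = 1 := by
  intro r hr
  rw [Set.mem_singleton_iff] at hr
  subst hr
  simp only [relator, map_mul, map_inv, FreeGroup.lift_apply_of]
  show ξ 0 * (ξ 1 * ξ 2 * ξ 3) * (ξ 0)⁻¹ * (ξ 1 * ξ 2 * ξ 3)⁻¹ *
    (ξ 1 * ξ 2 * (ξ 3 * (ξ 1)⁻¹) * (ξ 1 * ξ 2)⁻¹ * (ξ 3 * (ξ 1)⁻¹)⁻¹) = 1
  have h2 : ξ 0 * (ξ 1 * ξ 2 * ξ 3) * (ξ 0)⁻¹ * (ξ 1 * ξ 2 * ξ 3)⁻¹ *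
    (ξ 1 * ξ 2 * (ξ 3 * (ξ 1)⁻¹) * (ξ 1 * ξ 2)⁻¹ * (ξ 3 * (ξ 1)⁻¹)⁻¹) =
    (ξ 0 * ξ 1 * ξ 2 * ξ 3) * (ξ 3 * ξ 2 * ξ 1 * ξ 0)⁻¹ := by group
  rw [h2, h, mul_inv_cancel]

/-- The homomorphism `π → G` sending the octagon generators to `ξ`. -/
def hexHom (ξ : Fin 4 → G) (h : ξ 0 * ξ 1 * ξ 2 * ξ 3 = ξ 3 * ξ 2 * ξ 1 * ξ 0) :
    SurfGrp →* G :=
  PresentedGroup.toGroup (hex_relator ξ h)

end

/-- The octagon generators `x₁ = a, x₂ = d⁻¹c⁻¹b, x₃ = b⁻¹cdc, x₄ = c⁻¹b`. -/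
def xg : Fin 4 → SurfGrp :=
  ![gA, gD⁻¹ * gC⁻¹ * gB, gB⁻¹ * gC * gD * gC, gC⁻¹ * gB]

theorem surf_relation : gA * gB * gA⁻¹ * gB⁻¹ * (gC * gD * gC⁻¹ * gD⁻¹) = 1 := by
  have : (PresentedGroup.mk ({relator} : Set (FreeGroup (Fin 4))) relator) = 1 :=
    PresentedGroup.one_of_mem (Set.mem_singleton _)
  exact this

theorem xg_relation : xg 0 * xg 1 * xg 2 * xg 3 = xg 3 * xg 2 * xg 1 * xg 0 := by
  show gA * (gD⁻¹ * gC⁻¹ * gB) * (gB⁻¹ * gC * gD * gC) * (gC⁻¹ * gB) =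
    (gC⁻¹ * gB) * (gB⁻¹ * gC * gD * gC) * (gD⁻¹ * gC⁻¹ * gB) * gA
  have h := surf_relation
  have h2 : gA * (gD⁻¹ * gC⁻¹ * gB) * (gB⁻¹ * gC * gD * gC) * (gC⁻¹ * gB) =
    (gA * gB * gA⁻¹ * gB⁻¹ * (gC * gD * gC⁻¹ * gD⁻¹)) *
    ((gC⁻¹ * gB) * (gB⁻¹ * gC * gD * gC) * (gD⁻¹ * gC⁻¹ * gB) * gA) := by group
  rw [h2, h, one_mul]

theorem gA_eq : gA = xg 0 := rfl
theorem gB_eq : gB = xg 1 * xg 2 * xg 3 := by
  show gB = (gD⁻¹ * gC⁻¹ * gB) * (gB⁻¹ * gC * gD * gC) * (gC⁻¹ * gB)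
  group
theorem gC_eq : gC = xg 1 * xg 2 := by
  show gC = (gD⁻¹ * gC⁻¹ * gB) * (gB⁻¹ * gC * gD * gC)
  group
theorem gD_eq : gD = xg 3 * (xg 1)⁻¹ := by
  show gD = (gC⁻¹ * gB) * (gD⁻¹ * gC⁻¹ * gB)⁻¹
  group

section
variable {G : Type*} [Group G]

theorem hexHom_of (ξ : Fin 4 → G) (h : ξ 0 * ξ 1 * ξ 2 * ξ 3 = ξ 3 * ξ 2 * ξ 1 * ξ 0)
    (i : Fin 4) : hexHom ξ h (PresentedGroup.of i) = hexVal ξ i :=
  PresentedGroup.toGroup.of _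

theorem hexHom_xg (ξ : Fin 4 → G) (h : ξ 0 * ξ 1 * ξ 2 * ξ 3 = ξ 3 * ξ 2 * ξ 1 * ξ 0)
    (i : Fin 4) : hexHom ξ h (xg i) = ξ i := by
  have hA : hexHom ξ h gA = ξ 0 := hexHom_of ξ h 0
  have hB : hexHom ξ h gB = ξ 1 * ξ 2 * ξ 3 := hexHom_of ξ h 1
  have hC : hexHom ξ h gC = ξ 1 * ξ 2 := hexHom_of ξ h 2
  have hD : hexHom ξ h gD = ξ 3 * (ξ 1)⁻¹ := hexHom_of ξ h 3
  fin_cases i
  · exact hA
  · show hexHom ξ h (gD⁻¹ * gC⁻¹ * gB) = ξ 1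
    simp only [map_mul, map_inv, hB, hC, hD]; group
  · show hexHom ξ h (gB⁻¹ * gC * gD * gC) = ξ 2
    simp only [map_mul, map_inv, hB, hC, hD]; group
  · show hexHom ξ h (gC⁻¹ * gB) = ξ 3
    simp only [map_mul, map_inv, hB, hC]; group

theorem hom_ext_xg {φ ψ : SurfGrp →* G} (h : ∀ i, φ (xg i) = ψ (xg i)) : φ = ψ := by
  apply PresentedGroup.ext
  intro i
  fin_cases i
  · exact h 0
  · show φ gB = ψ gB
    rw [gB_eq]; simp only [map_mul, h]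
  · show φ gC = ψ gC
    rw [gC_eq]; simp only [map_mul, h]
  · show φ gD = ψ gD
    rw [gD_eq]; simp only [map_mul, map_inv, h]

/-- Induction on the surface group through the octagon generators. -/
theorem xg_induction {P : SurfGrp → Prop} (h1 : P 1) (hx : ∀ i, P (xg i))
    (hmul : ∀ γ δ, P γ → P δ → P (γ * δ)) (hinv : ∀ γ, P γ → P γ⁻¹) (γ : SurfGrp) : P γ := by
  let H : Subgroup SurfGrp :=
    { carrier := {γ | P γ}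
      mul_mem' := fun {a b} ha hb => hmul a b ha hb
      one_mem' := h1
      inv_mem' := fun {a} ha => hinv a ha }
  have hof : ∀ i : Fin 4, (PresentedGroup.of i : SurfGrp) ∈ H := by
    intro i
    fin_cases i
    · exact hx 0
    · show gB ∈ H
      rw [gB_eq]; exact H.mul_mem (H.mul_mem (hx 1) (hx 2)) (hx 3)
    · show gC ∈ H
      rw [gC_eq]; exact H.mul_mem (hx 1) (hx 2)
    · show gD ∈ H
      rw [gD_eq]; exact H.mul_mem (hx 3) (H.inv_mem (hx 1))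
  have htop : H = ⊤ := by
    rw [eq_top_iff, ← PresentedGroup.closure_range_of, Subgroup.closure_le]
    rintro _ ⟨i, rfl⟩
    exact hof i
  have : γ ∈ H := by rw [htop]; trivial
  exact this

end

/-! ### The hyperelliptic involution -/

theorem inv_relation : (xg 0)⁻¹ * (xg 1)⁻¹ * (xg 2)⁻¹ * (xg 3)⁻¹ =
    (xg 3)⁻¹ * (xg 2)⁻¹ * (xg 1)⁻¹ * (xg 0)⁻¹ := by
  have h := xg_relation
  have h1 : (xg 0)⁻¹ * (xg 1)⁻¹ * (xg 2)⁻¹ * (xg 3)⁻¹ =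
    (xg 3 * xg 2 * xg 1 * xg 0)⁻¹ := by group
  have h2 : (xg 3)⁻¹ * (xg 2)⁻¹ * (xg 1)⁻¹ * (xg 0)⁻¹ = (xg 0 * xg 1 * xg 2 * xg 3)⁻¹ := by group
  rw [h1, h2, h]

/-- The hyperelliptic involution `x_i ↦ x_i⁻¹` as an endomorphism. -/
def iotaHom : SurfGrp →* SurfGrp := hexHom (fun i => (xg i)⁻¹) inv_relation

theorem iotaHom_xg (i : Fin 4) : iotaHom (xg i) = (xg i)⁻¹ := hexHom_xg _ _ i

theorem iotaHom_iotaHom (γ : SurfGrp) : iotaHom (iotaHom γ) = γ := by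
  have : iotaHom.comp iotaHom = MonoidHom.id SurfGrp := by
    apply hom_ext_xg
    intro i
    simp [iotaHom_xg]
  exact DFunLike.congr_fun this γ

end Pool.Agent.MP_dd334f_gt
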