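import Pool.Agent.Lib.MP_dd334f_gt.Pingpong

open Matrix
open scoped MatrixGroups

namespace Pool.Agent.MP_dd334f_gt

/-- Nontrivial reduced words in `a, b`, with their first letter. -/
inductive RedW : Fin 4 → SurfGrp → Prop
  | single (x : Fin 4) : RedW x (lv x)
  | cons (x y : Fin 4) (α : SurfGrp) : RedW y α → y ≠ iv x → RedW x (lv x * α)

/-- The subgroup generated by `a` and `b`. -/
def SA : Subgroup SurfGrp := Subgroup.closure {gA, gB}

theorem lv_iv (x : Fin 4) : lv (iv x) = (lv x)⁻¹ := by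
  fin_cases x <;> simp [lv, iv]

theorem iv_iv (x : Fin 4) : iv (iv x) = x := by
  fin_cases x <;> rfl

theorem redW_mul (x : Fin 4) (α : SurfGrp) (h : α = 1 ∨ ∃ y, RedW y α) :
    lv x * α = 1 ∨ ∃ y, RedW y (lv x * α) := by
  rcases h with rfl | ⟨y, hy⟩
  · right
    rw [mul_one]
    exact ⟨x, RedW.single x⟩
  · by_cases hyx : y = iv x
    · cases hy with
      | single => left; rw [hyx, lv_iv, mul_inv_cancel]
      | cons _ z β hz hzy =>
        right
        refine ⟨z, ?_⟩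
        rw [hyx, lv_iv, mul_inv_cancel_left]
        exact hz
    · right
      exact ⟨x, RedW.cons x y α hy hyx⟩

theorem redW_of_mem (α : SurfGrp) (h : α ∈ SA) : α = 1 ∨ ∃ y, RedW y α := by
  induction h using Subgroup.closure_induction_left with
  | one => left; rfl
  | mul_left x hx y _ ih =>
    rcases hx with rfl | rfl
    · exact redW_mul 0 y ih
    · exact redW_mul 1 y ih
  | inv_mul_cancel x hx y _ ih =>
    rcases hx with rfl | rfl
    · exact redW_mul 2 y ih
    · exact redW_mul 3 y ih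

theorem rhoS_zpow (k : ℤ) : mt (rhoS (gz ^ k)) = !![(-4) ^ k, 0; 0, (-1 / 4) ^ k] := by
  induction k using Int.induction_on with
  | zero => 
    rw [zpow_zero, map_one, Aff.mt_one]
    ext i j
    fin_cases i <;> fin_cases j <;> simp
  | succ k ih =>
    rw [_root_.zpow_add_one, map_mul, Aff.mt_mul, ih, rhoS_z, zpow_add_one₀ (by norm_num),
      zpow_add_one₀ (by norm_num)]
    ext i j
    fin_cases i <;> fin_cases j <;> simp [Matrix.mul_apply, Fin.sum_univ_two]
  | pred k ih =>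
    have hinv : mt (rhoS gz)⁻¹ = !![-1 / 4, 0; 0, -4] := by
      rw [mt, Matrix.SpecialLinearGroup.coe_inv]
      show adjugate (mt (rhoS gz)) = _
      rw [rhoS_z, Matrix.adjugate_fin_two]; simp
    rw [_root_.zpow_sub_one, map_mul, map_inv, Aff.mt_mul, ih, hinv, zpow_sub_one₀ (by norm_num),
      zpow_sub_one₀ (by norm_num)]
    ext i j
    fin_cases i <;> fin_cases j <;> simp [Matrix.mul_apply, Fin.sum_univ_two]
    all_goals norm_num

theorem zpow_prod (k : ℤ) (v : Fin 2 → ℝ) :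
    QJ 0 ((mt (rhoS (gz ^ k))).mulVec v) = QJ 0 v := by
  rw [rhoS_zpow, mv2, QJ_0, QJ_0]
  have : ((-4 : ℝ)) ^ k * (-1 / 4) ^ k = 1 := by
    rw [← mul_zpow]; norm_num
  simp
  linear_combination (v 0 * v 1) * this

/-- The base elements carry `J₀` to `J_m`. -/
theorem QJ_kk (m : Fin 4) (v : Fin 2 → ℝ) (h : QJ 0 v ≤ 0) :
    QJ m ((mt (rhoS (kk m))).mulVec v) ≤ 0 := by
  have hA : mt (rhoS gA⁻¹) = !![3 / 2, -5; 2, -6] := lm_2
  have hB : mt (rhoS gB⁻¹) = !![-4, 5 / 2; -2, 1] := lm_3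
  have hA' : mt (rhoS gA) = !![-6, 5; -2, 3 / 2] := lm_0
  rw [QJ_0] at h
  fin_cases m
  · show QJ 0 ((mt (rhoS 1)).mulVec v) ≤ 0
    rw [map_one, Aff.mt_one, Matrix.one_mulVec, QJ_0]; exact h
  · show QJ 1 ((mt (rhoS gA⁻¹)).mulVec v) ≤ 0
    rw [hA, mv2, QJ_1]; simp; nlinarith
  · show QJ 2 ((mt (rhoS (gB⁻¹ * gA⁻¹))).mulVec v) ≤ 0
    rw [map_mul, Aff.mt_mul, hA, hB, ← Matrix.mulVec_mulVec, mv2, mv2, QJ_2]; simp; nlinarith
  · show QJ 3 ((mt (rhoS (gA * gB⁻¹ * gA⁻¹))).mulVec v) ≤ 0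
    rw [map_mul, map_mul, Aff.mt_mul, Aff.mt_mul, hA, hB, hA', ← Matrix.mulVec_mulVec,
      ← Matrix.mulVec_mulVec, mv2, mv2, mv2, QJ_3]; simp; nlinarith

/-- The deep alternative. -/
def Deep (x : Fin 4) (g : SurfGrp) : Prop :=
  ∀ v : Fin 2 → ℝ, v ≠ 0 → QJ 0 v ≤ 0 →
    QI x ((mt (rhoS g)).mulVec v) ≤ 0 ∧ ∀ l, 0 < QJ l ((mt (rhoS g)).mulVec v)

theorem claim_base (x m : Fin 4) (k : ℤ) :
    (∃ (m' : Fin 4) (k' : ℤ), lv x * (kk m * gz ^ k) = kk m' * gz ^ k') ∨
      Deep x (lv x * (kk m * gz ^ k)) := by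
  by_cases hs : shb x m = true
  · left
    obtain ⟨m', k', h⟩ := shallow_group x m hs
    exact ⟨m', k' + k, by rw [← mul_assoc, h, mul_assoc, ← _root_.zpow_add]⟩
  · right
    intro v hv hv0
    have hs' : shb x m = false := by simpa using hs
    set w := (mt (rhoS (kk m * gz ^ k))).mulVec v with hw
    have hwne : w ≠ 0 := mulVec_ne_zero _ v hv
    have hwJ : QJ m w ≤ 0 := by
      rw [hw, map_mul, Aff.mt_mul, ← Matrix.mulVec_mulVec]
      apply QJ_kk
      rw [zpow_prod]; exact hv0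
    have heq : (mt (rhoS (lv x * (kk m * gz ^ k)))).mulVec v = (lm x).mulVec w := by
      rw [map_mul, Aff.mt_mul, ← Matrix.mulVec_mulVec]; rfl
    rw [heq]
    have h1 := QI_step x w (deep_QI x m hs' w hwne hwJ)
    refine ⟨h1, fun l => stepJ x l w hwne h1 ?_⟩
    intro m' hm'
    apply QJ_disj m m' _ w hwne hwJ
    intro heq2
    rw [heq2] at hs'
    rw [hs'] at hm'
    exact absurd hm' (by decide)

theorem claim (x : Fin 4) (α : SurfGrp) (h : RedW x α) (j : Fin 4) :
    (∃ (m : Fin 4) (k : ℤ), α * kk j = kk m * gz ^ k) ∨ Deep x (α * kk j) := by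
  induction h with
  | single x =>
    have := claim_base x j 0
    simpa using this
  | cons x y α _ hyx ih =>
    rcases ih with ⟨m, k, hmk⟩ | hdeep
    · rw [mul_assoc, hmk]
      exact claim_base x m k
    · right
      intro v hv hv0
      obtain ⟨h1, h2⟩ := hdeep v hv hv0
      set w := (mt (rhoS (α * kk j))).mulVec v with hw
      have hwne : w ≠ 0 := mulVec_ne_zero _ v hv
      have heq : (mt (rhoS (lv x * α * kk j))).mulVec v = (lm x).mulVec w := by
        rw [mul_assoc, map_mul, Aff.mt_mul, ← Matrix.mulVec_mulVec]; rfl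
      rw [heq]
      have h3 := QI_step x w (QI_disj y (iv x) hyx w hwne h1)
      exact ⟨h3, fun l => stepJ x l w hwne h3 fun m _ => h2 m⟩

/-- Elements of the one-holed torus group are powers of the boundary or push the boundary
interval off itself. -/
theorem SA_dichotomy (α : SurfGrp) (h : α ∈ SA) :
    (∃ k : ℤ, α = gz ^ k) ∨
      ∀ v : Fin 2 → ℝ, v ≠ 0 → QJ 0 v ≤ 0 → 0 < QJ 0 ((mt (rhoS α)).mulVec v) := by
  rcases redW_of_mem α h with rfl | ⟨x, hx⟩
  · exact Or.inl ⟨0, by simp⟩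
  · have h1 := claim x α hx 0
    have hk0 : kk 0 = 1 := rfl
    rw [hk0, mul_one] at h1
    rcases h1 with ⟨m, k, hmk⟩ | hd
    · by_cases hm : m = 0
      · left
        exact ⟨k, by rw [hmk, hm, hk0, one_mul]⟩
      · right
        intro v hv hv0
        rw [hmk, map_mul, Aff.mt_mul, ← Matrix.mulVec_mulVec]
        apply QJ_disj m 0 hm
        · exact mulVec_ne_zero _ _ (mulVec_ne_zero _ v hv)
        · apply QJ_kk
          rw [zpow_prod]; exact hv0
    · right
      intro v hv hv0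
      exact (hd v hv hv0).2 0

end Pool.Agent.MP_dd334f_gt
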